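import Mathlib

/-! Definitions for the cloning groups built from an involution and their group von Neumann
algebras. -/

set_option autoImplicit false

open scoped InnerProductSpace
open Filter Topology

namespace Pool.Agent.P.MP_335bcb_an

/-- Finite rooted binary trees. -/
inductive BTree where
  | leaf : BTree
  | node : BTree → BTree → BTree

/-- Number of leaves. -/
def BTree.leaves : BTree → ℕ
  | .leaf => 1
  | .node l r => l.leaves + r.leaves

/-- Attach a caret at the `k`-th leaf (leaves numbered from `0`, left to right). -/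
def BTree.caret : BTree → ℕ → BTree
  | .leaf, _ => .node .leaf .leaf
  | .node l r, k =>
    if k < l.leaves then .node (l.caret k) r else .node l (r.caret (k - l.leaves))

/-- Triples `(T₋, g, T₊)` with `g ∈ G ^ n` given as a list; for `ψ = true` the first coordinate
of `g` must be `1`. -/
structure Triple (G : Type) [Group G] (ψ : Bool) where
  minus : BTree
  lab : List G
  plus : BTree
  len_minus : minus.leaves = lab.length
  len_plus : plus.leaves = lab.length
  first : ψ = true → lab.head? = some 1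

/-- `t` is an expansion of `s` at some leaf `k`: carets at the `k`-th leaves, and `φ (g k)`
inserted right after `g k`. -/
def Expand {G : Type} [Group G] (φ : G ≃* G) (ψ : Bool) (s t : Triple G ψ) : Prop :=
  ∃ (k : ℕ) (hk : k < s.lab.length), t.minus = s.minus.caret k ∧ t.plus = s.plus.caret k ∧
    t.lab = s.lab.insertIdx (k + 1) (φ s.lab[k])

/-- Classes of triples under the equivalence relation generated by expansions. -/
def CloningGroup {G : Type} [Group G] (φ : G ≃* G) (ψ : Bool) : Type :=
  Quot (Expand φ ψ)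

/-- The product: `[T₋, g, T] [T, h, U₊] = [T₋, g h, U₊]` for representatives with a common middle
tree. -/
noncomputable def CloningGroup.mul {G : Type} [Group G] {φ : G ≃* G} {ψ : Bool}
    (x y : CloningGroup φ ψ) : CloningGroup φ ψ :=
  @Classical.epsilon _ ⟨x⟩ fun z => ∃ s t u : Triple G ψ,
    Quot.mk _ s = x ∧ Quot.mk _ t = y ∧ Quot.mk _ u = z ∧ s.plus = t.minus ∧
      u.minus = s.minus ∧ u.plus = t.plus ∧ u.lab = List.zipWith (· * ·) s.lab t.lab

/-- The class of the trivial triple. -/
def CloningGroup.one {G : Type} [Group G] (φ : G ≃* G) (ψ : Bool) : CloningGroup φ ψ :=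
  Quot.mk _ ⟨.leaf, [1], .leaf, rfl, rfl, fun _ => rfl⟩

/-- The inverse for the product. -/
noncomputable def CloningGroup.inv {G : Type} [Group G] {φ : G ≃* G} {ψ : Bool}
    (x : CloningGroup φ ψ) : CloningGroup φ ψ :=
  @Classical.epsilon _ ⟨x⟩ fun y => y.mul x = CloningGroup.one φ ψ

/-- The commutant of a set together with its adjoints. -/
def commutant {A : Type} [Mul A] [Star A] (S : Set A) : Set A :=
  {z | ∀ g ∈ S, g * z = z * g ∧ star g * z = z * star g}

/-- The group von Neumann algebra, on a Hilbert space with orthonormal basis `b` indexed by the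
group (that is, on `ℓ²(Γ)`): the double commutant of the left regular representation. -/
def groupAlg {Γ H : Type} [Group Γ] [NormedAddCommGroup H] [InnerProductSpace ℂ H]
    [CompleteSpace H] (b : HilbertBasis Γ ℂ H) : Set (H →L[ℂ] H) :=
  commutant (commutant {T | ∃ g : Γ, ∀ h : Γ, T (b h) = b (g * h)})

/-- The hyperfinite II₁ factor as the infinite tensor product of `M₂(ℂ)` in the GNS
representation of the trace: `c (A, B)` is the Pauli word `X ^ A Z ^ B`, and the algebra is
generated by the left multiplications by the Pauli matrices `X n`, `Z n` of the sites `n`. -/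
def pauliAlg {K : Type} [NormedAddCommGroup K] [InnerProductSpace ℂ K]
    [CompleteSpace K] (c : HilbertBasis (Finset ℕ × Finset ℕ) ℂ K) : Set (K →L[ℂ] K) :=
  commutant (commutant {T | ∃ n : ℕ, (∀ A B, T (c (A, B)) = c (symmDiff A {n}, B)) ∨
    ∀ A B, T (c (A, B)) = (if n ∈ A then -1 else 1 : ℂ) • c (A, symmDiff B {n})})

/-- The spatial tensor product: `d (i, j)` is `b i ⊗ c j`, and the algebra is generated by the
operators `x ⊗ y`. -/
def tensorAlg {I J H K L : Type}
    [NormedAddCommGroup H] [InnerProductSpace ℂ H]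
    [NormedAddCommGroup K] [InnerProductSpace ℂ K]
    [NormedAddCommGroup L] [InnerProductSpace ℂ L] [CompleteSpace L]
    (b : HilbertBasis I ℂ H) (c : HilbertBasis J ℂ K) (d : HilbertBasis (I × J) ℂ L)
    (M : Set (H →L[ℂ] H)) (N : Set (K →L[ℂ] K)) : Set (L →L[ℂ] L) :=
  commutant (commutant {z | ∃ x ∈ M, ∃ y ∈ N, ∀ i j i' j',
    ⟪d (i', j'), z (d (i, j))⟫_ℂ = ⟪b i', x (b i)⟫_ℂ * ⟪c j', y (c j)⟫_ℂ})

/-- `M` and `N` are isomorphic as complex `*`-algebras. -/
def StarIso {A B : Type} [Add A] [Mul A] [SMul ℂ A] [Star A] [Add B] [Mul B] [SMul ℂ B] [Star B]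
    (M : Set A) (N : Set B) : Prop :=
  ∃ f : A → B, Set.BijOn f M N ∧ ∀ x ∈ M, ∀ y ∈ M, ∀ a : ℂ, f (x + y) = f x + f y ∧
    f (x * y) = f x * f y ∧ f (a • x) = a • f x ∧ f (star x) = star (f x)

/-- Property Gamma for `L(Γ)`, with trace `τ x = ⟪b 1, x (b 1)⟫` and `‖x‖₂ = ‖x (b 1)‖`. -/
def HasGamma {Γ H : Type} [Group Γ] [NormedAddCommGroup H] [InnerProductSpace ℂ H]
    [CompleteSpace H] (b : HilbertBasis Γ ℂ H) : Prop :=
  ∃ u : ℕ → H →L[ℂ] H,
    (∀ j, u j ∈ groupAlg b ∧ star (u j) * u j = 1 ∧ u j * star (u j) = 1 ∧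
      ⟪b 1, u j (b 1)⟫_ℂ = 0) ∧
    ∀ x ∈ groupAlg b, Tendsto (fun j => ‖u j (x (b 1)) - x (u j (b 1))‖) atTop (𝓝 0)

end Pool.Agent.P.MP_335bcb_an
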