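import Mathlib
import Pool.Agent.P.MP_335bcb_an.Defs

/-! The same algebras on the concrete spaces `ℓ²(I)`. -/

set_option autoImplicit false

open scoped InnerProductSpace
open Filter Topology

namespace Pool.Agent.P.MP_335bcb_an

/-- The von Neumann algebra generated by a set of operators: its double commutant. -/
noncomputable def vN {H : Type} [NormedAddCommGroup H] [InnerProductSpace ℂ H] [CompleteSpace H]
    (S : Set (H →L[ℂ] H)) : StarSubalgebra ℂ (H →L[ℂ] H) :=
  StarSubalgebra.centralizer ℂ (StarSubalgebra.centralizer ℂ S : Set (H →L[ℂ] H))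

/-- The Hilbert space `ℓ²(I)`. -/
abbrev L2 (I : Type) : Type := lp (fun _ : I => ℂ) 2

open Classical in
/-- The basis vector `δ_i`. -/
noncomputable def delta {I : Type} (i : I) : L2 I := lp.single 2 i 1

/-- The group von Neumann algebra, generated by the left regular representation. -/
noncomputable def groupVN (Γ : Type) [Group Γ] : StarSubalgebra ℂ (L2 Γ →L[ℂ] L2 Γ) :=
  vN {T | ∃ g : Γ, ∀ h : Γ, T (delta h) = delta (g * h)}

/-- The hyperfinite II₁ factor as the infinite tensor product of `M₂(ℂ)` in the GNS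
representation of the trace: `δ (A, B)` is the Pauli word `X ^ A Z ^ B`, and the algebra is
generated by the left multiplications by the Pauli matrices `X n`, `Z n` of the sites `n`. -/
noncomputable def hyperfinite :
    StarSubalgebra ℂ (L2 (Finset ℕ × Finset ℕ) →L[ℂ] L2 (Finset ℕ × Finset ℕ)) :=
  vN {T | ∃ n : ℕ, (∀ A B, T (delta (A, B)) = delta (symmDiff A {n}, B)) ∨
    ∀ A B, T (delta (A, B)) = (if n ∈ A then -1 else 1 : ℂ) • delta (A, symmDiff B {n})}

/-- The spatial tensor product, generated by the operators `x ⊗ y` on `ℓ²(I × J)`. -/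
noncomputable def tensor {I J : Type} (M : StarSubalgebra ℂ (L2 I →L[ℂ] L2 I))
    (N : StarSubalgebra ℂ (L2 J →L[ℂ] L2 J)) : StarSubalgebra ℂ (L2 (I × J) →L[ℂ] L2 (I × J)) :=
  vN {z | ∃ x ∈ M, ∃ y ∈ N, ∀ i j i' j',
    z (delta (i, j)) (i', j') = x (delta i) i' * y (delta j) j'}

/-- `L(Γ)` is isomorphic to `L(Γ) ⊗ R`. -/
def AbsorbsR (Γ : Type) [Group Γ] : Prop :=
  Nonempty (groupVN Γ ≃⋆ₐ[ℂ] tensor (groupVN Γ) hyperfinite)

/-- Property Gamma for `L(Γ)`, with trace `τ x = ⟪δ₁, x δ₁⟫` and `‖x‖₂ = ‖x δ₁‖`. -/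
def HasPropertyGamma (Γ : Type) [Group Γ] : Prop :=
  ∃ u : ℕ → L2 Γ →L[ℂ] L2 Γ,
    (∀ j, u j ∈ groupVN Γ ∧ u j ∈ unitary (L2 Γ →L[ℂ] L2 Γ) ∧
      ⟪delta 1, u j (delta 1)⟫_ℂ = 0) ∧
    ∀ x ∈ groupVN Γ, Tendsto (fun j => ‖(u j * x - x * u j) (delta 1)‖) atTop (𝓝 0)

end Pool.Agent.P.MP_335bcb_an
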