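import Mathlib
import Pool.Agent.P.MP_335bcb_an.L2Defs

/-! General facts on Hilbert spaces and double commutants. -/

set_option autoImplicit false

open scoped InnerProductSpace
open Filter Topology

namespace Pool.Agent.P.MP_335bcb_an

variable {H K : Type} [NormedAddCommGroup H] [InnerProductSpace ℂ H] [CompleteSpace H]
  [NormedAddCommGroup K] [InnerProductSpace ℂ K] [CompleteSpace K]

/-- A family with dense span. -/
def Total {ι : Type} (v : ι → H) : Prop := Dense (Submodule.span ℂ (Set.range v) : Set H)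

omit [CompleteSpace H] [CompleteSpace K] in
theorem Total.ext {ι : Type} {v : ι → H} (hv : Total v) {S T : H →L[ℂ] K}
    (h : ∀ i, S (v i) = T (v i)) : S = T :=
  ContinuousLinearMap.ext_on hv (by rintro _ ⟨i, rfl⟩; exact h i)

omit [CompleteSpace H] in
theorem Total.ext_inner {ι : Type} {v : ι → H} (hv : Total v) {a b : H}
    (h : ∀ i, ⟪v i, a⟫_ℂ = ⟪v i, b⟫_ℂ) : a = b := by
  have h1 : innerSL ℂ a = innerSL ℂ b := hv.ext fun i => by
    simp only [innerSL_apply_apply]
    rw [← inner_conj_symm, h, inner_conj_symm]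
  exact ext_inner_right ℂ fun x => by simpa using DFunLike.congr_fun h1 x

omit [CompleteSpace H] in
theorem Total.induction {ι : Type} {v : ι → H} (hv : Total v) (P : Submodule ℂ H)
    (hP : IsClosed (P : Set H)) (h : ∀ i, v i ∈ P) (x : H) : x ∈ P := by
  have h1 : Submodule.span ℂ (Set.range v) ≤ P :=
    Submodule.span_le.2 (by rintro _ ⟨i, rfl⟩; exact h i)
  exact hP.closure_subset_iff.2 h1 (hv x)

omit [CompleteSpace H] in
theorem total_of_forall {ι : Type} {v : ι → H}
    (h : ∀ x, x ∈ (Submodule.span ℂ (Set.range v)).topologicalClosure) : Total v := h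

theorem exists_equiv_of_gram {ι : Type} (v : ι → H) (w : ι → K) (hv : Total v) (hw : Total w)
    (h : ∀ i j, ⟪v i, v j⟫_ℂ = ⟪w i, w j⟫_ℂ) : ∃ W : H ≃ₗᵢ[ℂ] K, ∀ i, W (v i) = w i := by
  have h1 : DenseRange (Finsupp.linearCombination ℂ v) := by
    rw [DenseRange, ← LinearMap.coe_range, Finsupp.range_linearCombination]
    exact hv
  have h2 : DenseRange (Finsupp.linearCombination ℂ w) := by
    rw [DenseRange, ← LinearMap.coe_range, Finsupp.range_linearCombination]
    exact hw
  have h3 : ∀ x : ι →₀ ℂ, ‖Finsupp.linearCombination ℂ w (LinearEquiv.refl ℂ _ x)‖ =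
      ‖Finsupp.linearCombination ℂ v x‖ := by
    intro x
    rw [norm_eq_sqrt_re_inner (𝕜 := ℂ), norm_eq_sqrt_re_inner (𝕜 := ℂ)]
    simp only [LinearEquiv.refl_apply, Finsupp.linearCombination_apply, Finsupp.sum, sum_inner,
      inner_sum, inner_smul_left, inner_smul_right, h]
  refine ⟨(LinearEquiv.refl ℂ (ι →₀ ℂ)).extendOfIsometry _ _ h1 h2 h3, fun i => ?_⟩
  have := LinearEquiv.extendOfIsometry_eq (LinearEquiv.refl ℂ (ι →₀ ℂ)) _ _ h1 h2 h3
    (Finsupp.single i 1)
  simpa using this

theorem exists_isometry_of_gram {ι : Type} (v : ι → H) (w : ι → K) (hv : Total v)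
    (h : ∀ i j, ⟪v i, v j⟫_ℂ = ⟪w i, w j⟫_ℂ) : ∃ W : H →ₗᵢ[ℂ] K, ∀ i, W (v i) = w i := by
  let P := (Submodule.span ℂ (Set.range w)).topologicalClosure
  let w' : ι → P := fun i => ⟨w i, Submodule.le_topologicalClosure _
    (Submodule.subset_span ⟨i, rfl⟩)⟩
  have hw' : Total w' := by
    rw [Total, Subtype.dense_iff]
    have : ((↑) : P → K) '' (Submodule.span ℂ (Set.range w') : Set P) =
        Submodule.span ℂ (Set.range w) := by
      have h1 := Submodule.map_span P.subtype (Set.range w')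
      rw [← Set.range_comp] at h1
      have h2 := congrArg (fun s : Submodule ℂ K => (s : Set K)) h1
      simpa using! h2
    erw [this]
    exact subset_rfl
  obtain ⟨W, hW⟩ := exists_equiv_of_gram v w' hv hw' h
  exact ⟨P.subtypeₗᵢ.comp W.toLinearIsometry, fun i => by simp [hW, w']⟩

/-- Commuting with a set and its adjoints. -/
def Comm (S : Set (H →L[ℂ] H)) (T : H →L[ℂ] H) : Prop :=
  ∀ s ∈ S, s * T = T * s ∧ star s * T = T * star s

theorem Comm.star {S : Set (H →L[ℂ] H)} {T : H →L[ℂ] H} (h : Comm S T) : Comm S (star T) :=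
  fun s hs => ⟨by simpa using congrArg Star.star (h s hs).2.symm,
    by simpa using congrArg Star.star (h s hs).1.symm⟩

theorem mem_vN {S : Set (H →L[ℂ] H)} {x : H →L[ℂ] H} :
    x ∈ vN S ↔ ∀ T, Comm S T → T * x = x * T := by
  simp only [vN, StarSubalgebra.mem_centralizer_iff, SetLike.mem_coe]
  exact ⟨fun h T hT => (h T hT).1, fun h T hT => ⟨h T hT, h _ (Comm.star hT)⟩⟩

theorem subset_vN {S : Set (H →L[ℂ] H)} {x : H →L[ℂ] H} (hx : x ∈ S) : x ∈ vN S :=
  mem_vN.2 fun _ hT => (hT x hx).1.symm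

theorem Comm.vN {S : Set (H →L[ℂ] H)} {T : H →L[ℂ] H} (h : Comm S T) : Comm (vN S) T :=
  fun _ hs => ⟨(mem_vN.1 hs T h).symm, (mem_vN.1 (star_mem hs) T h).symm⟩

theorem vN_le {S S' : Set (H →L[ℂ] H)} (h : ∀ x ∈ S, x ∈ vN S') : vN S ≤ vN S' :=
  fun _ hx => mem_vN.2 fun T hT => mem_vN.1 hx T fun s hs => hT.vN s (h s hs)

theorem vN_mono {S S' : Set (H →L[ℂ] H)} (h : S ⊆ S') : vN S ≤ vN S' :=
  vN_le fun _ hx => subset_vN (h hx)

theorem vN_vN (S : Set (H →L[ℂ] H)) : vN (vN S : Set (H →L[ℂ] H)) = vN S :=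
  le_antisymm (vN_le fun _ hx => hx) (vN_mono fun _ hx => subset_vN hx)

theorem commute_of_vN {S S' : Set (H →L[ℂ] H)} (h : ∀ s ∈ S', Comm S s) {x y : H →L[ℂ] H}
    (hx : x ∈ vN S) (hy : y ∈ vN S') : x * y = y * x := by
  refine mem_vN.1 hy x fun s hs => ⟨mem_vN.1 hx s (h s hs), mem_vN.1 hx _ (h s hs).star⟩

omit [CompleteSpace H] in
theorem commute_of_tendsto {x : ℕ → H →L[ℂ] H} {y T : H →L[ℂ] H}
    (h : ∀ v, Tendsto (fun n => x n v) atTop (𝓝 (y v))) (hT : ∀ᶠ n in atTop, T * x n = x n * T) :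
    T * y = y * T := by
  ext v
  refine tendsto_nhds_unique ((T.continuous.tendsto _).comp (h v)) ((h (T v)).congr' ?_)
  filter_upwards [hT] with n hn
  exact (DFunLike.congr_fun hn v).symm

theorem mem_vN_of_tendsto {S : Set (H →L[ℂ] H)} {x : ℕ → H →L[ℂ] H} {y : H →L[ℂ] H}
    (h : ∀ v, Tendsto (fun n => x n v) atTop (𝓝 (y v))) (hx : ∀ n, x n ∈ vN S) : y ∈ vN S :=
  mem_vN.2 fun T hT => commute_of_tendsto h (Eventually.of_forall fun n => mem_vN.1 (hx n) T hT)

theorem commute_starProjection (P : Submodule ℂ H) [P.HasOrthogonalProjection] {T : H →L[ℂ] H}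
    (h1 : ∀ v ∈ P, T v ∈ P) (h2 : ∀ v ∈ P, star T v ∈ P) :
    T * P.starProjection = P.starProjection * T := by
  have key : ∀ U : H →L[ℂ] H, (∀ v ∈ P, U v ∈ P) →
      P.starProjection * U * P.starProjection = U * P.starProjection := by
    intro U hU
    ext v
    exact Submodule.starProjection_eq_self_iff.2 (hU _ (P.starProjection_apply_mem v))
  have h3 := congrArg star (key _ h2)
  have hs : star P.starProjection = P.starProjection := (isSelfAdjoint_starProjection P).star_eq
  simp only [star_mul, star_star, hs, ← mul_assoc] at h3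
  rw [← key T h1, h3]

theorem invariant_of_vN {S : Set (H →L[ℂ] H)} (P : Submodule ℂ H) [P.HasOrthogonalProjection]
    (h : ∀ s ∈ S, (∀ v ∈ P, s v ∈ P) ∧ ∀ v ∈ P, star s v ∈ P) {x : H →L[ℂ] H} (hx : x ∈ vN S)
    {v : H} (hv : v ∈ P) : x v ∈ P := by
  have h1 := mem_vN.1 hx P.starProjection fun s hs =>
    ⟨commute_starProjection P (h s hs).1 (h s hs).2,
      commute_starProjection P (h s hs).2 (by simpa using (h s hs).1)⟩
  have h2 := DFunLike.congr_fun h1 v
  simp only [mul_apply_eq_comp, Submodule.starProjection_eq_self_iff.2 hv] at h2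
  exact Submodule.starProjection_eq_self_iff.1 h2

omit [CompleteSpace H] in
theorem closure_span_invariant {ι : Type} (v : ι → H) (T : H →L[ℂ] H)
    (h : ∀ i, T (v i) ∈ Submodule.span ℂ (Set.range v)) :
    ∀ x ∈ (Submodule.span ℂ (Set.range v)).topologicalClosure,
      T x ∈ (Submodule.span ℂ (Set.range v)).topologicalClosure := by
  have h1 : Set.MapsTo T (Submodule.span ℂ (Set.range v)) (Submodule.span ℂ (Set.range v)) := by
    intro x hx
    have : Submodule.span ℂ (Set.range v) ≤ (Submodule.span ℂ (Set.range v)).comap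
        (T : H →ₗ[ℂ] H) := Submodule.span_le.2 (by rintro _ ⟨i, rfl⟩; exact h i)
    exact this hx
  exact h1.closure T.continuous

theorem mem_vN_image (Φ : (H →L[ℂ] H) ≃⋆ₐ[ℂ] (K →L[ℂ] K)) (S : Set (H →L[ℂ] H))
    (x : H →L[ℂ] H) : x ∈ vN S ↔ Φ x ∈ vN (Φ '' S) := by
  simp only [mem_vN]
  constructor
  · intro h T hT
    obtain ⟨T, rfl⟩ := EquivLike.surjective Φ T
    rw [← map_mul, ← map_mul, h T fun s hs => ?_]
    have := hT _ ⟨s, hs, rfl⟩
    rw [← map_star Φ, ← map_mul Φ, ← map_mul Φ, ← map_mul Φ, ← map_mul Φ] at this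
    exact ⟨EquivLike.injective Φ this.1, EquivLike.injective Φ this.2⟩
  · intro h T hT
    apply EquivLike.injective Φ
    rw [map_mul, map_mul]
    refine h _ ?_
    rintro _ ⟨s, hs, rfl⟩
    rw [← map_star Φ, ← map_mul Φ, ← map_mul Φ, ← map_mul Φ, ← map_mul Φ, (hT s hs).1,
      (hT s hs).2]
    exact ⟨rfl, rfl⟩

/-- Star isomorphisms of the full operator algebras carry generated von Neumann algebras to each
other. -/
theorem nonempty_equiv_vN (Φ : (H →L[ℂ] H) ≃⋆ₐ[ℂ] (K →L[ℂ] K)) (S : Set (H →L[ℂ] H)) :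
    Nonempty (vN S ≃⋆ₐ[ℂ] vN (Φ '' S)) := by
  have key := mem_vN_image Φ S
  exact ⟨{ toFun := fun x => ⟨Φ x, (key x).1 x.2⟩
           invFun := fun y => ⟨Φ.symm y, (key _).2 (by rw [Φ.apply_symm_apply]; exact y.2)⟩
           left_inv := fun x => Subtype.ext (Φ.symm_apply_apply _)
           right_inv := fun x => Subtype.ext (Φ.apply_symm_apply _)
           map_mul' := fun x y => Subtype.ext (map_mul Φ _ _)
           map_add' := fun x y => Subtype.ext (map_add Φ _ _)
           map_star' := fun x => Subtype.ext (map_star Φ _)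
           map_smul' := fun c x => Subtype.ext (map_smul Φ _ _) }⟩

theorem total_delta (I : Type) : Total (delta : I → L2 I) := by
  classical
  refine total_of_forall fun f => ?_
  refine (Submodule.isClosed_topologicalClosure _).mem_of_tendsto
    (lp.hasSum_single (by simp) f) (Eventually.of_forall fun s => ?_)
  refine Submodule.le_topologicalClosure _ (Submodule.sum_mem _ fun i _ => ?_)
  have : lp.single 2 i (f i) = f i • delta i := by
    rw [delta, ← lp.single_smul]
    simp
  rw [this]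
  exact Submodule.smul_mem _ _ (Submodule.subset_span ⟨i, rfl⟩)

theorem inner_delta {I : Type} (i : I) (f : L2 I) : ⟪delta i, f⟫_ℂ = f i := by
  classical
  rw [delta, lp.inner_single_left]
  simp

open Classical in
theorem delta_apply {I : Type} (i j : I) : delta i j = if i = j then 1 else 0 := by
  rw [delta, lp.single_apply, Pi.single_apply]
  simp [eq_comm]

open Classical in
theorem inner_delta_delta {I : Type} (i j : I) :
    ⟪delta i, delta j⟫_ℂ = if i = j then 1 else 0 := by
  rw [inner_delta, delta_apply]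
  simp [eq_comm]

theorem norm_delta {I : Type} (i : I) : ‖delta i‖ = 1 := by
  classical
  rw [delta, lp.norm_single (by simp)]
  simp

/-- Generalized permutation unitaries. -/
theorem exists_perm_unitary {I : Type} (σ : I ≃ I) (c : I → ℂ) (hc : ∀ i, ‖c i‖ = 1) :
    ∃ U : L2 I →L[ℂ] L2 I, U ∈ unitary (L2 I →L[ℂ] L2 I) ∧
      ∀ i, U (delta i) = c i • delta (σ i) := by
  have hw : Total fun i => c i • delta (σ i) := by
    refine total_of_forall fun f => (total_delta I).induction _
      (Submodule.isClosed_topologicalClosure _) (fun i => ?_) f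
    obtain ⟨i, rfl⟩ := σ.surjective i
    have h0 : c i ≠ 0 := fun h => by simpa [h] using hc i
    have : delta (σ i) = (c i)⁻¹ • c i • delta (σ i) := by rw [smul_smul]; simp [h0]
    rw [this]
    exact Submodule.le_topologicalClosure _
      (Submodule.smul_mem _ _ (Submodule.subset_span ⟨i, rfl⟩))
  obtain ⟨W, hW⟩ := exists_equiv_of_gram delta _ (total_delta I) hw fun i j => by
    simp only [inner_smul_left, inner_smul_right, inner_delta_delta]
    by_cases h : i = j
    · subst h
      rw [if_pos rfl, if_pos rfl, mul_one, Complex.mul_conj, Complex.normSq_eq_norm_sq, hc]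
      simp
    · simp [h]
  exact ⟨_, (Unitary.linearIsometryEquiv.symm W).2, hW⟩

end Pool.Agent.P.MP_335bcb_an
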