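import Mathlib
import Pool.Agent.P.MP_335bcb_an.Basic

/-! Von Neumann algebras with a cyclic trace vector; the group case. -/

set_option autoImplicit false

open scoped InnerProductSpace
open Filter Topology

namespace Pool.Agent.P.MP_335bcb_an

variable {H : Type} [NormedAddCommGroup H] [InnerProductSpace ℂ H] [CompleteSpace H]

omit [CompleteSpace H] in
theorem tendsto_zero_of_total {α ι : Type} {l : Filter α} {a : α → H →L[ℂ] H} {C : ℝ}
    (hC : ∀ i, ‖a i‖ ≤ C) {v : ι → H} (hv : Total v)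
    (h : ∀ j, Tendsto (fun i => a i (v j)) l (𝓝 0)) (w : H) :
    Tendsto (fun i => a i w) l (𝓝 0) := by
  let P : Submodule ℂ H :=
    { carrier := {w | Tendsto (fun i => a i w) l (𝓝 0)}
      add_mem' := fun {x y} hx hy => by simpa using Tendsto.add hx hy
      zero_mem' := by simpa using tendsto_const_nhds
      smul_mem' := fun c x hx => by simpa using Tendsto.const_smul hx c }
  refine hv.induction P ?_ h w
  have h1 : Equicontinuous fun i => (a i : H → H) :=
    (LipschitzWith.uniformEquicontinuous _ C.toNNReal fun i =>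
      (a i).lipschitz.weaken (by
        rw [← NNReal.coe_le_coe]
        exact (hC i).trans (Real.le_coe_toNNReal C))).equicontinuous
  exact h1.isClosed_setOfPred_tendsto (f := fun _ => 0) continuous_const

theorem inner_star_left (x : H →L[ℂ] H) (a b : H) : ⟪star x a, b⟫_ℂ = ⟪a, x b⟫_ℂ :=
  ContinuousLinearMap.adjoint_inner_left x b a

theorem inner_star_right (x : H →L[ℂ] H) (a b : H) : ⟪a, star x b⟫_ℂ = ⟪x a, b⟫_ℂ :=
  ContinuousLinearMap.adjoint_inner_right x a b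

theorem isSelfAdjoint_of_tendsto {x : ℕ → H →L[ℂ] H} {y : H →L[ℂ] H}
    (h : ∀ v, Tendsto (fun n => x n v) atTop (𝓝 (y v))) (hx : ∀ n, star (x n) = x n) :
    star y = y := by
  ext v
  refine ext_inner_right ℂ fun w => ?_
  rw [inner_star_left]
  refine tendsto_nhds_unique (tendsto_const_nhds.inner (h w)) ?_
  refine ((h v).inner (tendsto_const_nhds (x := w))).congr fun n => ?_
  rw [← inner_star_left, hx]

omit [CompleteSpace H] in
theorem tendsto_mul_apply {x y : ℕ → H →L[ℂ] H} {x' y' : H →L[ℂ] H} {C : ℝ}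
    (hC : ∀ n, ‖x n‖ ≤ C) (hx : ∀ v, Tendsto (fun n => x n v) atTop (𝓝 (x' v)))
    (hy : ∀ v, Tendsto (fun n => y n v) atTop (𝓝 (y' v))) (v : H) :
    Tendsto (fun n => (x n * y n) v) atTop (𝓝 ((x' * y') v)) := by
  have h1 : Tendsto (fun n => x n (y n v - y' v)) atTop (𝓝 0) := by
    refine squeeze_zero_norm (fun n => (x n).le_of_opNorm_le (hC n) _) ?_
    simpa using (tendsto_iff_norm_sub_tendsto_zero.1 (hy v)).const_mul C
  simpa using h1.add (hx (y' v))

omit [CompleteSpace H] in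
theorem norm_le_of_tendsto {x : ℕ → H →L[ℂ] H} {y : H →L[ℂ] H} {C : ℝ} (hC : ∀ n, ‖x n‖ ≤ C)
    (h : ∀ v, Tendsto (fun n => x n v) atTop (𝓝 (y v))) : ‖y‖ ≤ C :=
  y.opNorm_le_bound ((norm_nonneg _).trans (hC 0)) fun v =>
    le_of_tendsto' (h v).norm fun n => (x n).le_of_opNorm_le (hC n) v

/-- A von Neumann algebra with a cyclic and separating trace vector. -/
structure Tr (M : StarSubalgebra ℂ (H →L[ℂ] H)) (ξ : H) : Prop where
  bicomm : vN (M : Set (H →L[ℂ] H)) = M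
  norm_one : ‖ξ‖ = 1
  trace : ∀ x ∈ M, ∀ y ∈ M, ⟪ξ, (x * y) ξ⟫_ℂ = ⟪ξ, (y * x) ξ⟫_ℂ
  cyc' : Total fun T : {T : H →L[ℂ] H // Comm M T} => T.1 ξ

variable {M : StarSubalgebra ℂ (H →L[ℂ] H)} {ξ : H}

theorem Tr.norm_star (h : Tr M ξ) {x : H →L[ℂ] H} (hx : x ∈ M) : ‖star x ξ‖ = ‖x ξ‖ := by
  rw [norm_eq_sqrt_re_inner (𝕜 := ℂ), norm_eq_sqrt_re_inner (𝕜 := ℂ), inner_star_left,
    ← inner_star_right x]
  exact congrArg _ (congrArg _ (h.trace x hx _ (star_mem hx)))

theorem Tr.norm_mul_le (h : Tr M ξ) {x y : H →L[ℂ] H} (hx : x ∈ M) (hy : y ∈ M) :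
    ‖(x * y) ξ‖ ≤ ‖y‖ * ‖x ξ‖ := by
  rw [← h.norm_star (mul_mem hx hy), star_mul, ← h.norm_star hx, ← _root_.norm_star y]
  exact (star y).le_opNorm _

theorem Tr.tendsto_zero (h : Tr M ξ) {α : Type} {l : Filter α} {a : α → H →L[ℂ] H} {C : ℝ}
    (hC : ∀ i, ‖a i‖ ≤ C) (ha : ∀ i, a i ∈ M) (h0 : Tendsto (fun i => a i ξ) l (𝓝 0)) (w : H) :
    Tendsto (fun i => a i w) l (𝓝 0) := by
  refine tendsto_zero_of_total hC h.cyc' (fun T => ?_) w
  have h1 := (T.1.continuous.tendsto 0).comp h0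
  rw [map_zero] at h1
  exact h1.congr fun i => (DFunLike.congr_fun (T.2 _ (ha i)).1 ξ).symm

theorem Tr.eq_zero (h : Tr M ξ) {x : H →L[ℂ] H} (hx : x ∈ M) (h0 : x ξ = 0) : x = 0 := by
  ext1 w
  have := h.tendsto_zero (l := (atTop : Filter ℕ)) (a := fun _ => x) (fun _ => le_rfl)
    (fun _ => hx) (by simp [h0]) w
  exact tendsto_nhds_unique tendsto_const_nhds this

theorem Tr.tendsto (h : Tr M ξ) {x : ℕ → H →L[ℂ] H} {y : H →L[ℂ] H} {C : ℝ}
    (hC : ∀ i, ‖x i‖ ≤ C) (hx : ∀ i, x i ∈ M) (hy : y ∈ M)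
    (h0 : Tendsto (fun i => x i ξ) atTop (𝓝 (y ξ))) (w : H) :
    Tendsto (fun i => x i w) atTop (𝓝 (y w)) := by
  have := h.tendsto_zero (l := atTop) (a := fun i => x i - y) (C := C + ‖y‖)
    (fun i => (norm_sub_le _ _).trans (by linarith [hC i])) (fun i => sub_mem (hx i) hy)
    (by simpa using tendsto_sub_nhds_zero_iff.2 h0) w
  exact tendsto_sub_nhds_zero_iff.1 (by simpa using this)

theorem Tr.exists_lim (h : Tr M ξ) {x : ℕ → H →L[ℂ] H} {C : ℝ}
    (hC : ∀ i, ‖x i‖ ≤ C) (hx : ∀ i, x i ∈ M) (h0 : CauchySeq fun i => x i ξ) :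
    ∃ y ∈ M, ∀ w, Tendsto (fun i => x i w) atTop (𝓝 (y w)) := by
  have h1 : ∀ w, CauchySeq fun i => x i w := by
    intro w
    rw [cauchySeq_iff_tendsto_dist_atTop_0] at h0 ⊢
    have := h.tendsto_zero (l := atTop) (a := fun p : ℕ × ℕ => x p.1 - x p.2) (C := C + C)
      (fun p => (norm_sub_le _ _).trans (add_le_add (hC _) (hC _)))
      (fun p => sub_mem (hx _) (hx _))
      (by simpa [tendsto_zero_iff_norm_tendsto_zero, dist_eq_norm] using h0) w
    simpa [tendsto_zero_iff_norm_tendsto_zero, dist_eq_norm] using this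
  choose f hf using fun w => cauchySeq_tendsto_of_complete (h1 w)
  let y := ContinuousLinearMap.ofTendstoOfBoundedRange f x (tendsto_pi_nhds.2 hf)
    (isBounded_iff_forall_norm_le.2 ⟨C, by rintro _ ⟨i, rfl⟩; exact hC i⟩)
  refine ⟨y, ?_, hf⟩
  rw [← h.bicomm]
  exact mem_vN_of_tendsto (y := y) hf fun n => subset_vN (hx n)

section Group
variable {Γ : Type} [Group Γ]

/-- Left regular representation. -/
noncomputable def lam (g : Γ) : L2 Γ →L[ℂ] L2 Γ :=
  (exists_perm_unitary (Equiv.mulLeft g) (fun _ => 1) (by simp)).choose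

/-- Right regular representation. -/
noncomputable def rho (g : Γ) : L2 Γ →L[ℂ] L2 Γ :=
  (exists_perm_unitary (Equiv.mulRight g⁻¹) (fun _ => 1) (by simp)).choose

theorem lam_unitary (g : Γ) : lam g ∈ unitary (L2 Γ →L[ℂ] L2 Γ) :=
  (exists_perm_unitary (Equiv.mulLeft g) (fun _ => 1) (by simp)).choose_spec.1

@[simp] theorem lam_delta (g h : Γ) : lam g (delta h) = delta (g * h) :=
  ((exists_perm_unitary (Equiv.mulLeft g) (fun _ => 1) (by simp)).choose_spec.2 h).trans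
    (one_smul _ _)

theorem rho_unitary (g : Γ) : rho g ∈ unitary (L2 Γ →L[ℂ] L2 Γ) :=
  (exists_perm_unitary (Equiv.mulRight g⁻¹) (fun _ => 1) (by simp)).choose_spec.1

@[simp] theorem rho_delta (g h : Γ) : rho g (delta h) = delta (h * g⁻¹) :=
  ((exists_perm_unitary (Equiv.mulRight g⁻¹) (fun _ => 1) (by simp)).choose_spec.2 h).trans
    (one_smul _ _)

theorem lam_mul (g h : Γ) : lam (g * h) = lam g * lam h :=
  (total_delta Γ).ext fun k => by simp [mul_assoc]

@[simp] theorem lam_one : lam (1 : Γ) = 1 := (total_delta Γ).ext fun k => by simp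

theorem star_lam (g : Γ) : star (lam g) = lam g⁻¹ := by
  have h1 : lam g * lam g⁻¹ = 1 := by rw [← lam_mul]; simp
  calc star (lam g) = star (lam g) * (lam g * lam g⁻¹) := by rw [h1, mul_one]
    _ = lam g⁻¹ := by rw [← mul_assoc, (lam_unitary g).1, one_mul]

theorem star_rho (g : Γ) : star (rho g) = rho g⁻¹ := by
  have h1 : rho g * rho g⁻¹ = 1 := (total_delta Γ).ext fun k => by simp
  calc star (rho g) = star (rho g) * (rho g * rho g⁻¹) := by rw [h1, mul_one]
    _ = rho g⁻¹ := by rw [← mul_assoc, (rho_unitary g).1, one_mul]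

theorem groupVN_eq : groupVN Γ = vN (Set.range lam) := by
  rw [groupVN]
  congr 1
  ext T
  exact ⟨fun ⟨g, hg⟩ => ⟨g, (total_delta Γ).ext fun h => by simp [hg]⟩,
    fun ⟨g, hg⟩ => ⟨g, fun h => by simp [← hg]⟩⟩

theorem lam_mem (g : Γ) : lam g ∈ groupVN Γ := groupVN_eq (Γ := Γ) ▸ subset_vN ⟨g, rfl⟩

theorem comm_rho (g : Γ) : Comm (groupVN Γ) (rho g) := by
  rw [groupVN_eq]
  refine Comm.vN ?_
  rintro _ ⟨h, rfl⟩
  rw [star_lam]
  exact ⟨(total_delta Γ).ext fun k => by simp [mul_assoc],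
    (total_delta Γ).ext fun k => by simp [mul_assoc]⟩

theorem star_apply_delta {x : L2 Γ →L[ℂ] L2 Γ} (hx : x ∈ groupVN Γ) (g : Γ) :
    star x (delta 1) g = (starRingEnd ℂ) (x (delta 1) g⁻¹) := by
  rw [← inner_delta, ← inner_delta, inner_star_right, inner_conj_symm]
  have h1 : x (delta g) = rho g⁻¹ (x (delta 1)) := by
    have := DFunLike.congr_fun (comm_rho g⁻¹ x hx).1 (delta 1)
    simpa using this
  rw [h1, ← star_rho, inner_star_left]
  simp

theorem tr_group (Γ : Type) [Group Γ] : Tr (groupVN Γ) (delta 1) where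
  bicomm := vN_vN _
  norm_one := norm_delta _
  trace x hx y hy := by
    have key : ∀ x ∈ groupVN Γ, ∀ y : L2 Γ →L[ℂ] L2 Γ, ⟪delta 1, (x * y) (delta 1)⟫_ℂ =
        ∑' g, x (delta 1) g⁻¹ * y (delta 1) g := by
      intro x hx y
      rw [mul_apply_eq_comp, ← inner_star_left, lp.inner_eq_tsum]
      simp [star_apply_delta hx, mul_comm]
    rw [key x hx, key y hy, ← (Equiv.inv Γ).tsum_eq]
    simp [mul_comm]
  cyc' := by
    refine total_of_forall fun f => (total_delta Γ).induction _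
      (Submodule.isClosed_topologicalClosure _) (fun g => ?_) f
    exact Submodule.le_topologicalClosure _
      (Submodule.subset_span ⟨⟨rho g⁻¹, comm_rho g⁻¹⟩, by simp⟩)

end Group

end Pool.Agent.P.MP_335bcb_an
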