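import Mathlib
import Pool.Agent.P.MP_335bcb_an.Trace

/-! Pauli systems: words, orthogonality, and the splitting of an algebra along an approximately
central Pauli system. -/

set_option autoImplicit false

open scoped InnerProductSpace
open Filter Topology

namespace Pool.Agent.P.MP_335bcb_an

variable {H : Type} [NormedAddCommGroup H] [InnerProductSpace ℂ H] [CompleteSpace H]

/-- Commuting copies of the Pauli matrices. -/
structure Pauli (X Z : ℕ → H →L[ℂ] H) : Prop where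
  starX : ∀ n, star (X n) = X n
  starZ : ∀ n, star (Z n) = Z n
  sqX : ∀ n, X n * X n = 1
  sqZ : ∀ n, Z n * Z n = 1
  XX : ∀ m n, Commute (X m) (X n)
  ZZ : ∀ m n, Commute (Z m) (Z n)
  anti : ∀ n, Z n * X n = -(X n * Z n)
  XZ : ∀ m n, m ≠ n → Commute (X m) (Z n)

section Prod
omit [CompleteSpace H]
variable {U : ℕ → H →L[ℂ] H}

/-- Product over a finite set of commuting operators. -/
noncomputable def pr (hU : ∀ m n, Commute (U m) (U n)) (A : Finset ℕ) : H →L[ℂ] H :=
  A.noncommProd U fun _ _ _ _ _ => hU _ _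

@[simp] theorem pr_empty (hU : ∀ m n, Commute (U m) (U n)) : pr hU ∅ = 1 := by simp [pr]

theorem pr_insert (hU : ∀ m n, Commute (U m) (U n)) {A : Finset ℕ} {n : ℕ} (hn : n ∉ A) :
    pr hU (insert n A) = U n * pr hU A := Finset.noncommProd_insert_of_notMem _ _ _ _ hn

theorem mul_pr (hU : ∀ m n, Commute (U m) (U n)) (hsq : ∀ n, U n * U n = 1) (A : Finset ℕ)
    (n : ℕ) : U n * pr hU A = pr hU (symmDiff A {n}) := by
  by_cases hn : n ∈ A
  · have h1 : symmDiff A {n} = A.erase n := by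
      ext x
      simp only [Finset.mem_symmDiff, Finset.mem_singleton, Finset.mem_erase]
      grind
    conv_lhs => rw [← Finset.insert_erase hn]
    rw [h1, pr_insert hU (Finset.notMem_erase n A), ← mul_assoc, hsq, one_mul]
  · have h1 : symmDiff A {n} = insert n A := by
      ext x
      simp only [Finset.mem_symmDiff, Finset.mem_singleton, Finset.mem_insert]
      grind
    rw [h1, pr_insert hU hn]

theorem pr_mem (hU : ∀ m n, Commute (U m) (U n)) (P : Submonoid (H →L[ℂ] H)) (h : ∀ n, U n ∈ P)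
    (A : Finset ℕ) : pr hU A ∈ P := Submonoid.noncommProd_mem _ _ _ _ fun n _ => h n

theorem commute_pr (hU : ∀ m n, Commute (U m) (U n)) {y : H →L[ℂ] H} (h : ∀ n, Commute y (U n))
    (A : Finset ℕ) : Commute y (pr hU A) := Finset.noncommProd_commute _ _ _ _ fun n _ => h n

theorem anti_pr (hU : ∀ m n, Commute (U m) (U n)) {V : H →L[ℂ] H} {n : ℕ}
    (h : ∀ m, m ≠ n → Commute V (U m)) (ha : V * U n = -(U n * V)) (A : Finset ℕ) :
    V * pr hU A = (if n ∈ A then -1 else 1 : ℂ) • (pr hU A * V) := by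
  induction A using Finset.induction_on with
  | empty => simp
  | insert m A hm ih =>
    rw [pr_insert hU hm, ← mul_assoc]
    by_cases hmn : m = n
    · subst hmn
      rw [ha, neg_mul, mul_assoc, ih]
      simp [hm, mul_assoc]
    · rw [(h m hmn).eq, mul_assoc, ih]
      simp [Ne.symm hmn, mul_assoc]

end Prod

variable {X Z : ℕ → H →L[ℂ] H}

/-- The Pauli word `X ^ A Z ^ B`. -/
noncomputable def Pauli.word (h : Pauli X Z) (w : Finset ℕ × Finset ℕ) : H →L[ℂ] H :=
  pr h.XX w.1 * pr h.ZZ w.2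

theorem Pauli.anti' (h : Pauli X Z) (n : ℕ) : X n * Z n = -(Z n * X n) := by
  rw [h.anti, neg_neg]

@[simp] theorem Pauli.word_empty (h : Pauli X Z) : h.word (∅, ∅) = 1 := by simp [Pauli.word]

theorem Pauli.X_mul (h : Pauli X Z) (n : ℕ) (A B : Finset ℕ) :
    X n * h.word (A, B) = h.word (symmDiff A {n}, B) := by
  simp only [Pauli.word, ← mul_assoc, mul_pr h.XX h.sqX]

theorem Pauli.Z_mul (h : Pauli X Z) (n : ℕ) (A B : Finset ℕ) :
    Z n * h.word (A, B) = (if n ∈ A then -1 else 1 : ℂ) • h.word (A, symmDiff B {n}) := by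
  simp only [Pauli.word]
  rw [← mul_assoc, anti_pr h.XX (fun m hm => (h.XZ m n hm).symm) (h.anti n), smul_mul_assoc,
    mul_assoc, mul_pr h.ZZ h.sqZ]

theorem Pauli.Z_comm (h : Pauli X Z) (n : ℕ) (w : Finset ℕ × Finset ℕ) :
    Z n * h.word w = (if n ∈ w.1 then -1 else 1 : ℂ) • (h.word w * Z n) := by
  simp only [Pauli.word]
  rw [← mul_assoc, anti_pr h.XX (fun m hm => (h.XZ m n hm).symm) (h.anti n), smul_mul_assoc,
    mul_assoc, (commute_pr h.ZZ (h.ZZ n) _).eq, mul_assoc]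

theorem Pauli.X_comm (h : Pauli X Z) (n : ℕ) (w : Finset ℕ × Finset ℕ) :
    X n * h.word w = (if n ∈ w.2 then -1 else 1 : ℂ) • (h.word w * X n) := by
  simp only [Pauli.word]
  rw [← mul_assoc, (commute_pr h.XX (h.XX n) _).eq, mul_assoc,
    anti_pr h.ZZ (fun m hm => h.XZ n m hm.symm) (h.anti' n), mul_smul_comm, mul_assoc]

theorem Pauli.word_mem (h : Pauli X Z) (P : Submonoid (H →L[ℂ] H)) (hX : ∀ n, X n ∈ P)
    (hZ : ∀ n, Z n ∈ P) (w : Finset ℕ × Finset ℕ) : h.word w ∈ P :=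
  P.mul_mem (pr_mem _ P hX _) (pr_mem _ P hZ _)

theorem Pauli.word_unitary (h : Pauli X Z) (w : Finset ℕ × Finset ℕ) :
    h.word w ∈ unitary (H →L[ℂ] H) :=
  h.word_mem (unitary (H →L[ℂ] H)) (fun n => ⟨by rw [h.starX, h.sqX], by rw [h.starX, h.sqX]⟩)
    (fun n => ⟨by rw [h.starZ, h.sqZ], by rw [h.starZ, h.sqZ]⟩) w

theorem Pauli.commute_word (h : Pauli X Z) {y : H →L[ℂ] H} (hX : ∀ n, Commute y (X n))
    (hZ : ∀ n, Commute y (Z n)) (w : Finset ℕ × Finset ℕ) : Commute y (h.word w) :=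
  (commute_pr _ hX _).mul_right (commute_pr _ hZ _)

variable {M : StarSubalgebra ℂ (H →L[ℂ] H)} {ξ : H}

theorem Tr.trace_eq_zero (ht : Tr M ξ) {a Q : H →L[ℂ] H} (ha : a ∈ M) (hQ : Q ∈ M)
    (hsq : Q * Q = 1) (h : Q * a = -(a * Q)) : ⟪ξ, a ξ⟫_ℂ = 0 := by
  have h1 := ht.trace Q hQ (Q * a) (mul_mem hQ ha)
  rw [← mul_assoc, hsq, one_mul, h, neg_mul, mul_assoc, hsq, mul_one] at h1
  simp only [neg_apply, inner_neg_right] at h1
  linear_combination h1 / 2

open Classical in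
theorem Pauli.inner_word (h : Pauli X Z) (ht : Tr M ξ) (hX : ∀ n, X n ∈ M) (hZ : ∀ n, Z n ∈ M)
    {x y : H →L[ℂ] H} (hx : x ∈ M) (hy : y ∈ M) (hxX : ∀ n, Commute x (X n))
    (hxZ : ∀ n, Commute x (Z n)) (hyX : ∀ n, Commute y (X n)) (hyZ : ∀ n, Commute y (Z n))
    (w w' : Finset ℕ × Finset ℕ) :
    ⟪(x * h.word w) ξ, (y * h.word w') ξ⟫_ℂ = if w = w' then ⟪x ξ, y ξ⟫_ℂ else 0 := by
  split_ifs with hw
  · subst hw
    rw [(h.commute_word hxX hxZ w).eq, (h.commute_word hyX hyZ w).eq, mul_apply_eq_comp,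
      mul_apply_eq_comp, ← inner_star_right, ← mul_apply_eq_comp, (h.word_unitary w).1]
    rfl
  · have hwM : ∀ w, h.word w ∈ M := h.word_mem M.toSubalgebra.toSubmonoid hX hZ
    have key : ∀ (Q : H →L[ℂ] H) (c : ℂ), Q ∈ M → star Q = Q → Q * Q = 1 → Commute x Q →
        Commute y Q → star c = c → c * c = 1 → Q * h.word w = c • (h.word w * Q) →
        Q * h.word w' = (-c) • (h.word w' * Q) →
        ⟪(x * h.word w) ξ, (y * h.word w') ξ⟫_ℂ = 0 := by
      intro Q c hQ hQs hQq hxQ hyQ hc hcc h1 h2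
      rw [← inner_star_right, ← mul_apply_eq_comp]
      refine ht.trace_eq_zero (mul_mem (star_mem (mul_mem hx (hwM w))) (mul_mem hy (hwM w')))
        hQ hQq ?_
      have h3 : Q * (x * h.word w) = c • (x * h.word w * Q) := by
        rw [← mul_assoc, ← hxQ.eq, mul_assoc, h1, mul_smul_comm, mul_assoc]
      have h4 : Q * (y * h.word w') = (-c) • (y * h.word w' * Q) := by
        rw [← mul_assoc, ← hyQ.eq, mul_assoc, h2, mul_smul_comm, mul_assoc]
      have h5 := congrArg star h3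
      rw [star_mul, star_smul, star_mul (x * h.word w), hQs, hc] at h5
      have h6 : Q * star (x * h.word w) = c • (star (x * h.word w) * Q) := by
        rw [h5, smul_smul, hcc, one_smul]
      rw [← mul_assoc, h6, smul_mul_assoc, mul_assoc, h4, mul_smul_comm, smul_smul, mul_neg, hcc]
      simp [mul_assoc]
    by_cases h1 : w.1 = w'.1
    · have h2 : w.2 ≠ w'.2 := fun h2 => hw (Prod.ext h1 h2)
      obtain ⟨n, hn⟩ : ∃ n, ¬ (n ∈ w.2 ↔ n ∈ w'.2) := by
        by_contra hc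
        push Not at hc
        exact h2 (Finset.ext hc)
      refine key (X n) _ (hX n) (h.starX n) (h.sqX n) (hxX n) (hyX n) ?_ ?_ (h.X_comm n w) ?_
      · split_ifs <;> simp
      · split_ifs <;> simp
      · rw [h.X_comm]
        by_cases h3 : n ∈ w.2 <;> simp_all
    · obtain ⟨n, hn⟩ : ∃ n, ¬ (n ∈ w.1 ↔ n ∈ w'.1) := by
        by_contra hc
        push Not at hc
        exact h1 (Finset.ext hc)
      refine key (Z n) _ (hZ n) (h.starZ n) (h.sqZ n) (hxZ n) (hyZ n) ?_ ?_ (h.Z_comm n w) ?_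
      · split_ifs <;> simp
      · split_ifs <;> simp
      · rw [h.Z_comm]
        by_cases h3 : n ∈ w.1 <;> simp_all

end Pool.Agent.P.MP_335bcb_an
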