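import Mathlib
import Pool.Agent.P.MP_335bcb_an.Pauli

/-! An approximately central Pauli system together with its relative commutant generates. -/

set_option autoImplicit false

open scoped InnerProductSpace
open Filter Topology

namespace Pool.Agent.P.MP_335bcb_an

variable {H : Type} [NormedAddCommGroup H] [InnerProductSpace ℂ H] [CompleteSpace H]

/-- Averaging over a symmetry. -/
noncomputable def av (U y : H →L[ℂ] H) : H →L[ℂ] H := (1 / 2 : ℂ) • (y + U * y * U)

section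
omit [CompleteSpace H]

theorem av_sub (U y y' : H →L[ℂ] H) : av U (y - y') = av U y - av U y' := by
  simp only [av, ← smul_sub, mul_sub, sub_mul]
  congr 1
  abel

theorem commute_av_self {U : H →L[ℂ] H} (hU : U * U = 1) (y : H →L[ℂ] H) :
    Commute U (av U y) := by
  refine Commute.smul_right ?_ _
  simp only [Commute, SemiconjBy, mul_add, add_mul, mul_assoc, hU, mul_one]
  rw [← mul_assoc U U, hU, one_mul, add_comm]

theorem commute_av {U V y : H →L[ℂ] H} (hUV : Commute V U ∨ V * U = -(U * V))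
    (hy : Commute V y) : Commute V (av U y) := by
  refine Commute.smul_right (hy.add_right ?_) _
  rcases hUV with h | h
  · exact (h.mul_right hy).mul_right h
  · have h' : U * V = -(V * U) := by rw [h, neg_neg]
    simp only [Commute, SemiconjBy]
    calc V * (U * y * U) = (V * U) * y * U := by simp only [mul_assoc]
      _ = -(U * (V * y) * U) := by rw [h]; simp only [neg_mul, mul_assoc]
      _ = -(U * y * (V * U)) := by rw [hy.eq]; simp only [mul_assoc]
      _ = U * y * U * V := by rw [mul_assoc (U * y), h', mul_neg]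

theorem av_decomp {U V : H →L[ℂ] H} (hV : V * V = 1) (h : V * U = -(U * V)) (y : H →L[ℂ] H) :
    av U y + V * av U (V * y) = y := by
  simp only [av, mul_smul_comm, mul_add, ← mul_assoc, hV, one_mul, h, neg_mul, mul_assoc U V V,
    mul_one]
  rw [← smul_add]
  have : y + U * y * U + (y + -(U * y * U)) = (2 : ℂ) • y := by rw [two_smul]; abel
  rw [this, smul_smul]
  norm_num

end

theorem norm_symm_le {U : H →L[ℂ] H} (hs : star U = U) (hU : U * U = 1) : ‖U‖ ≤ 1 := by
  have h1 : ‖U‖ * ‖U‖ ≤ 1 := by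
    rw [← CStarRing.norm_star_mul_self, hs, hU]
    exact ContinuousLinearMap.norm_id_le
  nlinarith [norm_nonneg U]

theorem norm_av_le {U : H →L[ℂ] H} (hs : star U = U) (hU : U * U = 1) (y : H →L[ℂ] H) :
    ‖av U y‖ ≤ ‖y‖ := by
  have h1 := norm_symm_le hs hU
  have h2 : ‖U * y * U‖ ≤ ‖y‖ :=
    calc ‖U * y * U‖ ≤ ‖U‖ * ‖y‖ * ‖U‖ := norm_mul₃_le
      _ ≤ 1 * ‖y‖ * 1 := by gcongr
      _ = ‖y‖ := by ring
  rw [av, norm_smul]
  have h3 := norm_add_le y (U * y * U)
  simp only [one_div, norm_inv, Complex.norm_ofNat]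
  linarith

variable {M : StarSubalgebra ℂ (H →L[ℂ] H)} {ξ : H}

theorem av_mem {U y : H →L[ℂ] H} (hU : U ∈ M) (hy : y ∈ M) : av U y ∈ M :=
  SMulMemClass.smul_mem _ (add_mem hy (mul_mem (mul_mem hU hy) hU))

theorem Tr.norm_av_le (ht : Tr M ξ) {U y : H →L[ℂ] H} (hs : star U = U) (hU : U * U = 1)
    (hUM : U ∈ M) (hy : y ∈ M) : ‖av U y ξ‖ ≤ ‖y ξ‖ := by
  have h1 := norm_symm_le hs hU
  have h2 : ‖(U * y * U) ξ‖ ≤ ‖y ξ‖ :=
    calc ‖(U * y * U) ξ‖ ≤ ‖U‖ * ‖(U * y) ξ‖ := ht.norm_mul_le (mul_mem hUM hy) hUM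
      _ ≤ ‖U‖ * (‖U‖ * ‖y ξ‖) := by gcongr; exact U.le_opNorm _
      _ ≤ 1 * (1 * ‖y ξ‖) := by gcongr
      _ = ‖y ξ‖ := by ring
  rw [av, smul_apply, norm_smul, add_apply]
  have h3 := norm_add_le (y ξ) ((U * y * U) ξ)
  simp only [one_div, norm_inv, Complex.norm_ofNat]
  linarith

theorem norm_av_sub_le {U : H →L[ℂ] H} (hs : star U = U) (hU : U * U = 1) (y : H →L[ℂ] H)
    (v : H) : ‖(av U y - y) v‖ ≤ ‖(U * y - y * U) v‖ := by
  have h1 := norm_symm_le hs hU
  have h2 : av U y - y = (-1 / 2 : ℂ) • (U * (U * y - y * U)) := by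
    simp only [av, mul_sub, ← mul_assoc, hU, one_mul]
    module
  rw [h2, smul_apply, norm_smul, mul_apply_eq_comp]
  have h3 := U.le_of_opNorm_le h1 ((U * y - y * U) v)
  have h4 : ‖(-1 / 2 : ℂ)‖ = 1 / 2 := by simp
  rw [h4]
  linarith [norm_nonneg ((U * y - y * U) v)]

variable {X Z : ℕ → H →L[ℂ] H}

/-- Averaging over the sites `n, …, n + m - 1`. -/
noncomputable def avs (X Z : ℕ → H →L[ℂ] H) (n : ℕ) : ℕ → (H →L[ℂ] H) → H →L[ℂ] H
  | 0, y => y
  | m + 1, y => avs X Z n m (av (X (n + m)) (av (Z (n + m)) y))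

theorem Pauli.X_Z (h : Pauli X Z) (k l : ℕ) :
    Commute (X k) (Z l) ∨ X k * Z l = -(Z l * X k) := by
  by_cases hkl : k = l
  · subst hkl
    exact Or.inr (h.anti' k)
  · exact Or.inl (h.XZ k l hkl)

theorem Pauli.Z_X (h : Pauli X Z) (k l : ℕ) :
    Commute (Z k) (X l) ∨ Z k * X l = -(X l * Z k) := by
  by_cases hkl : k = l
  · subst hkl
    exact Or.inr (h.anti k)
  · exact Or.inl (h.XZ l k (Ne.symm hkl)).symm

theorem Pauli.mem_vN (h : Pauli X Z) (hX : ∀ n, X n ∈ M) (hZ : ∀ n, Z n ∈ M)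
    {S : Set (H →L[ℂ] H)} (hXS : ∀ n, X n ∈ vN S) (hZS : ∀ n, Z n ∈ vN S)
    (hS : ∀ y ∈ M, (∀ k, Commute (X k) y ∧ Commute (Z k) y) → y ∈ vN S) (n : ℕ) :
    ∀ y ∈ M, (∀ k, n ≤ k → Commute (X k) y ∧ Commute (Z k) y) → y ∈ vN S := by
  induction n with
  | zero => exact fun y hy hc => hS y hy fun k => hc k k.zero_le
  | succ n ih =>
    have h1 : ∀ y ∈ M, (∀ k, n + 1 ≤ k → Commute (X k) y ∧ Commute (Z k) y) →
        Commute (X n) y → av (Z n) y ∈ vN S := by
      intro y hy hc hn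
      refine ih _ (av_mem (hZ n) hy) fun k hk => ?_
      rcases hk.eq_or_lt with rfl | hk
      · exact ⟨commute_av (h.X_Z _ _) hn, commute_av_self (h.sqZ _) _⟩
      · exact ⟨commute_av (h.X_Z _ _) (hc k hk).1, commute_av (Or.inl (h.ZZ _ _)) (hc k hk).2⟩
    have h2 : ∀ y ∈ M, (∀ k, n + 1 ≤ k → Commute (X k) y ∧ Commute (Z k) y) →
        Commute (X n) y → y ∈ vN S := by
      intro y hy hc hn
      rw [← av_decomp (h.sqX n) (h.anti' n) y]
      refine add_mem (h1 y hy hc hn) (mul_mem (hXS n) (h1 _ (mul_mem (hX n) hy) (fun k hk => ?_)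
        ((h.XX n n).mul_right hn)))
      exact ⟨(h.XX k n).mul_right (hc k hk).1,
        (h.XZ n k (by omega)).symm.mul_right (hc k hk).2⟩
    have h3 : ∀ y ∈ M, (∀ k, n + 1 ≤ k → Commute (X k) y ∧ Commute (Z k) y) →
        av (X n) y ∈ vN S := by
      intro y hy hc
      refine h2 _ (av_mem (hX n) hy) (fun k hk => ?_) (commute_av_self (h.sqX n) _)
      exact ⟨commute_av (Or.inl (h.XX _ _)) (hc k hk).1, commute_av (h.Z_X _ _) (hc k hk).2⟩
    intro y hy hc
    rw [← av_decomp (h.sqZ n) (h.anti n) y]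
    refine add_mem (h3 y hy hc) (mul_mem (hZS n) (h3 _ (mul_mem (hZ n) hy) fun k hk => ?_))
    exact ⟨(h.XZ k n (by omega)).mul_right (hc k hk).1, (h.ZZ k n).mul_right (hc k hk).2⟩

theorem Pauli.mem_vN_of_summable (h : Pauli X Z) (ht : Tr M ξ) (hX : ∀ n, X n ∈ M)
    (hZ : ∀ n, Z n ∈ M) {S : Set (H →L[ℂ] H)} (hXS : ∀ n, X n ∈ vN S) (hZS : ∀ n, Z n ∈ vN S)
    (hS : ∀ y ∈ M, (∀ k, Commute (X k) y ∧ Commute (Z k) y) → y ∈ vN S)
    {g : H →L[ℂ] H} (hg : g ∈ M) (hsX : Summable fun k => ‖(X k * g - g * X k) ξ‖)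
    (hsZ : Summable fun k => ‖(Z k * g - g * Z k) ξ‖) : g ∈ vN S := by
  have hmem : ∀ n m, ∀ y ∈ M, avs X Z n m y ∈ M := by
    intro n m
    induction m with
    | zero => exact fun y hy => hy
    | succ m ih => exact fun y hy => ih _ (av_mem (hX _) (av_mem (hZ _) hy))
  have hnorm : ∀ n m y, ‖avs X Z n m y‖ ≤ ‖y‖ := by
    intro n m
    induction m with
    | zero => exact fun y => le_rfl
    | succ m ih =>
      exact fun y => (ih _).trans ((norm_av_le (h.starX _) (h.sqX _) _).trans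
        (norm_av_le (h.starZ _) (h.sqZ _) _))
  have hnorm2 : ∀ n m, ∀ y ∈ M, ‖avs X Z n m y ξ‖ ≤ ‖y ξ‖ := by
    intro n m
    induction m with
    | zero => exact fun y _ => le_rfl
    | succ m ih =>
      exact fun y hy => (ih _ (av_mem (hX _) (av_mem (hZ _) hy))).trans
        ((ht.norm_av_le (h.starX _) (h.sqX _) (hX _) (av_mem (hZ _) hy)).trans
          (ht.norm_av_le (h.starZ _) (h.sqZ _) (hZ _) hy))
  have hsub : ∀ n m y y', avs X Z n m (y - y') = avs X Z n m y - avs X Z n m y' := by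
    intro n m
    induction m with
    | zero => exact fun _ _ => rfl
    | succ m ih => exact fun y y' => by simp only [avs, av_sub, ih]
  have hpres : ∀ n m k y, (Commute (X k) y ∧ Commute (Z k) y) →
      Commute (X k) (avs X Z n m y) ∧ Commute (Z k) (avs X Z n m y) := by
    intro n m k
    induction m with
    | zero => exact fun _ hy => hy
    | succ m ih =>
      exact fun y hy => ih _ ⟨commute_av (Or.inl (h.XX _ _)) (commute_av (h.X_Z _ _) hy.1),
        commute_av (h.Z_X _ _) (commute_av (Or.inl (h.ZZ _ _)) hy.2)⟩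
  have hcomm : ∀ n m k y, n ≤ k → k < n + m →
      Commute (X k) (avs X Z n m y) ∧ Commute (Z k) (avs X Z n m y) := by
    intro n m k
    induction m with
    | zero => exact fun _ h1 h2 => absurd h2 (by omega)
    | succ m ih =>
      intro y h1 h2
      by_cases h3 : k < n + m
      · exact ih _ h1 h3
      · obtain rfl : k = n + m := by omega
        exact hpres n m _ _ ⟨commute_av_self (h.sqX _) _,
          commute_av (h.Z_X _ _) (commute_av_self (h.sqZ _) _)⟩
  let ε : ℕ → ℝ := fun k => ‖(X k * g - g * X k) ξ‖ + ‖(Z k * g - g * Z k) ξ‖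
  have hε : Summable ε := hsX.add hsZ
  have hstep : ∀ n m, dist (avs X Z n m g ξ) (avs X Z n (m + 1) g ξ) ≤ ε (m + n) := by
    intro n m
    rw [dist_comm, dist_eq_norm, ← sub_apply, avs, ← hsub, add_comm m n]
    refine (hnorm2 _ _ _ (sub_mem (av_mem (hX _) (av_mem (hZ _) hg)) hg)).trans ?_
    have h1 : av (X (n + m)) (av (Z (n + m)) g) - g =
        (av (X (n + m)) g - g) + av (X (n + m)) (av (Z (n + m)) g - g) := by
      rw [av_sub]
      abel
    rw [h1, add_apply]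
    refine (norm_add_le _ _).trans (add_le_add (norm_av_sub_le (h.starX _) (h.sqX _) _ _) ?_)
    exact (ht.norm_av_le (h.starX _) (h.sqX _) (hX _) (sub_mem (av_mem (hZ _) hg) hg)).trans
      (norm_av_sub_le (h.starZ _) (h.sqZ _) _ _)
  have hsum : ∀ n, Summable fun m => ε (m + n) := fun n => (summable_nat_add_iff n).2 hε
  have hlim : ∀ n, ∃ y ∈ M, ∀ w, Tendsto (fun m => avs X Z n m g w) atTop (𝓝 (y w)) := fun n =>
    ht.exists_lim (fun m => hnorm n m g) (fun m => hmem n m g hg)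
      (cauchySeq_of_dist_le_of_summable _ (hstep n) (hsum n))
  choose y hyM hy using hlim
  have hyS : ∀ n, y n ∈ vN S := fun n => h.mem_vN hX hZ hXS hZS hS n _ (hyM n) fun k hk =>
    ⟨commute_of_tendsto (hy n) (eventually_atTop.2 ⟨k + 1, fun m hm =>
        (hcomm n m k g hk (by omega)).1⟩),
      commute_of_tendsto (hy n) (eventually_atTop.2 ⟨k + 1, fun m hm =>
        (hcomm n m k g hk (by omega)).2⟩)⟩
  refine mem_vN_of_tendsto (ht.tendsto (C := ‖g‖)
    (fun n => norm_le_of_tendsto (fun m => hnorm n m g) (hy n)) hyM hg ?_) hyS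
  rw [tendsto_iff_dist_tendsto_zero]
  refine squeeze_zero (fun _ => dist_nonneg) (fun n => ?_) (tendsto_sum_nat_add ε)
  rw [dist_comm]
  exact dist_le_tsum_of_dist_le_of_tendsto₀ _ (hstep n) (hsum n) (hy n ξ)

end Pool.Agent.P.MP_335bcb_an
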