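import Mathlib
import Pool.Agent.P.MP_335bcb_an.Split

/-! Amplifications and the spatial tensor product. -/

set_option autoImplicit false

open scoped InnerProductSpace
open Filter Topology

namespace Pool.Agent.P.MP_335bcb_an

variable {H K : Type} [NormedAddCommGroup H] [InnerProductSpace ℂ H] [CompleteSpace H]
  [NormedAddCommGroup K] [InnerProductSpace ℂ K] [CompleteSpace K] {J : Type}

open Classical in
/-- Isometries with orthogonal ranges spanning the target. -/
structure Frame (V : J → H →L[ℂ] K) : Prop where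
  inner_eq : ∀ j k a b, ⟪V j a, V k b⟫_ℂ = if j = k then ⟪a, b⟫_ℂ else 0
  total : Total fun p : J × H => V p.1 p.2

/-- `z` is the amplification of `x`. -/
def Amp (V : J → H →L[ℂ] K) (x : H →L[ℂ] H) (z : K →L[ℂ] K) : Prop :=
  ∀ j a, z (V j a) = V j (x a)

variable {V : J → H →L[ℂ] K}

theorem Frame.exists_amp (h : Frame V) (x : H →L[ℂ] H) : ∃ z, Amp V x z := by
  have hx : x ∈ Submodule.span ℂ (unitary (H →L[ℂ] H) : Set (H →L[ℂ] H)) := by
    rw [CStarAlgebra.span_unitary]
    trivial
  induction hx using Submodule.span_induction with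
  | mem u hu =>
    have hw : Total fun p : J × H => V p.1 (u p.2) := by
      have : (Set.range fun p : J × H => V p.1 (u p.2)) = Set.range fun p : J × H => V p.1 p.2 := by
        refine subset_antisymm ?_ ?_
        · rintro _ ⟨p, rfl⟩
          exact ⟨(p.1, u p.2), rfl⟩
        · rintro _ ⟨p, rfl⟩
          refine ⟨(p.1, star u p.2), ?_⟩
          simp only
          rw [← mul_apply_eq_comp, hu.2]
          rfl
      rw [Total, this]
      exact h.total
    obtain ⟨W, hW⟩ := exists_equiv_of_gram _ _ h.total hw fun p q => by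
      rw [h.inner_eq, h.inner_eq, ← inner_star_right, ← mul_apply_eq_comp, hu.1]
      rfl
    exact ⟨W, fun j a => hW (j, a)⟩
  | zero => exact ⟨0, fun j a => by simp⟩
  | add x y _ _ hx hy =>
    obtain ⟨z, hz⟩ := hx
    obtain ⟨z', hz'⟩ := hy
    exact ⟨z + z', fun j a => by simp [hz j a, hz' j a]⟩
  | smul c x _ hx =>
    obtain ⟨z, hz⟩ := hx
    exact ⟨c • z, fun j a => by simp [hz j a]⟩

theorem Frame.amp_star (h : Frame V) {x : H →L[ℂ] H} {z : K →L[ℂ] K} (hz : Amp V x z) :
    Amp V (star x) (star z) := by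
  intro j a
  refine h.total.ext_inner fun p => ?_
  rw [inner_star_right, hz, h.inner_eq, h.inner_eq, inner_star_right]

theorem Frame.commute_iff (h : Frame V) {x : H →L[ℂ] H} {z T : K →L[ℂ] K} (hz : Amp V x z) :
    z * T = T * z ↔ ∀ j k, x * (ContinuousLinearMap.adjoint (V j) ∘L T ∘L V k) =
      (ContinuousLinearMap.adjoint (V j) ∘L T ∘L V k) * x := by
  have h1 : ∀ j k a b, ⟪V j a, (z * T) (V k b)⟫_ℂ =
      ⟪a, (x * (ContinuousLinearMap.adjoint (V j) ∘L T ∘L V k)) b⟫_ℂ := by
    intro j k a b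
    rw [mul_apply_eq_comp, mul_apply_eq_comp, ← inner_star_left z, ← inner_star_left x,
      h.amp_star hz]
    simp [ContinuousLinearMap.adjoint_inner_right]
  have h2 : ∀ j k a b, ⟪V j a, (T * z) (V k b)⟫_ℂ =
      ⟪a, ((ContinuousLinearMap.adjoint (V j) ∘L T ∘L V k) * x) b⟫_ℂ := by
    intro j k a b
    rw [mul_apply_eq_comp, mul_apply_eq_comp, hz]
    simp [ContinuousLinearMap.adjoint_inner_right]
  constructor
  · intro hT j k
    ext1 b
    exact ext_inner_left ℂ fun a => by rw [← h1, ← h2, hT]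
  · intro hT
    exact h.total.ext fun q => h.total.ext_inner fun p => by rw [h1, h2, hT]

theorem Frame.commute_of_vN (h : Frame V) {S : Set (H →L[ℂ] H)} {T : K →L[ℂ] K}
    (hS : ∀ s ∈ S, ∃ z, Amp V s z ∧ z * T = T * z ∧ star z * T = T * star z)
    {x : H →L[ℂ] H} (hx : x ∈ vN S) {z : K →L[ℂ] K} (hz : Amp V x z) : z * T = T * z := by
  refine (h.commute_iff hz).2 fun j k => (mem_vN.1 hx _ fun s hs => ?_).symm
  obtain ⟨z', h1, h2, h3⟩ := hS s hs
  exact ⟨(h.commute_iff h1).1 h2 j k, (h.commute_iff (h.amp_star h1)).1 h3 j k⟩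

theorem exists_frame {I J L : Type} (e : I × J ≃ L) :
    ∃ V : J → L2 I →L[ℂ] L2 L, Frame V ∧ ∀ i j, V j (delta i) = delta (e (i, j)) := by
  have h1 : ∀ j, ∃ W : L2 I →ₗᵢ[ℂ] L2 L, ∀ i, W (delta i) = delta (e (i, j)) := fun j =>
    exists_isometry_of_gram _ _ (total_delta I) fun i i' => by
      rw [inner_delta_delta, inner_delta_delta]
      by_cases h : i = i' <;> simp [h]
  choose W hW using h1
  refine ⟨fun j => (W j).toContinuousLinearMap, ⟨fun j k a b => ?_, ?_⟩, fun i j => hW j i⟩
  · split_ifs with hjk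
    · subst hjk
      exact (W j).inner_map_map a b
    · have h2 : ContinuousLinearMap.adjoint (W j).toContinuousLinearMap ∘L
          (W k).toContinuousLinearMap = 0 :=
        (total_delta I).ext fun i => (total_delta I).ext_inner fun i' => by
          simp [ContinuousLinearMap.adjoint_inner_right, hW, inner_delta_delta, hjk]
      rw [← ContinuousLinearMap.adjoint_inner_right, ← ContinuousLinearMap.comp_apply, h2]
      simp
  · refine total_of_forall fun f => (total_delta L).induction _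
      (Submodule.isClosed_topologicalClosure _) (fun l => ?_) f
    obtain ⟨⟨i, j⟩, rfl⟩ := e.surjective l
    exact Submodule.le_topologicalClosure _ (Submodule.subset_span ⟨(j, delta i), hW j i⟩)

theorem elementary {I J : Type} {Vl : J → L2 I →L[ℂ] L2 (I × J)}
    {Vr : I → L2 J →L[ℂ] L2 (I × J)} (hl : Frame Vl) (hr : Frame Vr)
    (hl' : ∀ i j, Vl j (delta i) = delta (i, j)) (hr' : ∀ i j, Vr i (delta j) = delta (i, j))
    {x : L2 I →L[ℂ] L2 I} {y : L2 J →L[ℂ] L2 J} {z₁ z₂ : L2 (I × J) →L[ℂ] L2 (I × J)}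
    (h1 : Amp Vl x z₁) (h2 : Amp Vr y z₂) (i : I) (j : J) (i' : I) (j' : J) :
    (z₁ * z₂) (delta (i, j)) (i', j') = x (delta i) i' * y (delta j) j' := by
  have key : ∀ (i : I) (j : J) (b : L2 J) (a : L2 I),
      ⟪Vr i b, Vl j a⟫_ℂ = ⟪b, delta j⟫_ℂ * ⟪delta i, a⟫_ℂ := by
    intro i j b a
    have : innerSL ℂ (Vr i b) ∘L Vl j = ⟪b, delta j⟫_ℂ • innerSL ℂ (delta i) :=
      (total_delta I).ext fun i' => by
        simp only [ContinuousLinearMap.comp_apply, innerSL_apply_apply, smul_apply, smul_eq_mul]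
        rw [hl', ← hr', hr.inner_eq, inner_delta_delta]
        split_ifs <;> simp
    simpa using DFunLike.congr_fun this a
  rw [← inner_delta, mul_apply_eq_comp, ← hr' i j, h2, ← inner_star_left, ← hl' i' j',
    hl.amp_star h1, ← inner_conj_symm, key, map_mul, inner_conj_symm, inner_conj_symm,
    inner_star_left, inner_delta, inner_delta, mul_comm]

theorem total_of_invariant {ι : Type} {v : ι → H} {S : Set (H →L[ℂ] H)} {ξ : H}
    (hcyc : Total fun x : vN S => x.1 ξ) (hstar : ∀ s ∈ S, star s ∈ S)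
    (hinv : ∀ s ∈ S, ∀ i, s (v i) ∈ Submodule.span ℂ (Set.range v))
    (hξ : ξ ∈ Set.range v) : Total v := by
  refine total_of_forall fun f => hcyc.induction _ (Submodule.isClosed_topologicalClosure _)
    (fun x => invariant_of_vN (S := S) _ (fun s hs => ?_) x.2 ?_) f
  · exact ⟨closure_span_invariant v s (hinv s hs),
      closure_span_invariant v _ (hinv _ (hstar s hs))⟩
  · exact Submodule.le_topologicalClosure _ (Submodule.subset_span hξ)

theorem Pauli.comp {X Z : ℕ → H →L[ℂ] H} (h : Pauli X Z) {f : ℕ → ℕ}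
    (hf : Function.Injective f) : Pauli (fun n => X (f n)) fun n => Z (f n) :=
  ⟨fun _ => h.starX _, fun _ => h.starZ _, fun _ => h.sqX _, fun _ => h.sqZ _,
    fun _ _ => h.XX _ _, fun _ _ => h.ZZ _ _, fun _ => h.anti _,
    fun _ _ hmn => h.XZ _ _ (hf.ne hmn)⟩

end Pool.Agent.P.MP_335bcb_an
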