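import Mathlib
import Pool.Agent.P.MP_335bcb_an.Tensor

/-! An algebra generated by a Pauli system and its relative commutant absorbs the hyperfinite
factor. -/

set_option autoImplicit false

open scoped InnerProductSpace
open Filter Topology

namespace Pool.Agent.P.MP_335bcb_an

theorem absorbs {I : Type} {M : StarSubalgebra ℂ (L2 I →L[ℂ] L2 I)} {ξ : L2 I} (ht : Tr M ξ)
    (hcyc : Total fun x : M => x.1 ξ) {X Z : ℕ → L2 I →L[ℂ] L2 I} (h : Pauli X Z)
    (hX : ∀ n, X n ∈ M) (hZ : ∀ n, Z n ∈ M)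
    (hS : vN ({x | x ∈ M ∧ ∀ k, Commute x (X k) ∧ Commute x (Z k)} ∪
      (Set.range X ∪ Set.range Z)) = M) :
    Nonempty (M ≃⋆ₐ[ℂ] tensor M hyperfinite) := by
  classical
  set N : Set (L2 I →L[ℂ] L2 I) := {x | x ∈ M ∧ ∀ k, Commute x (X k) ∧ Commute x (Z k)} with hN
  set S := N ∪ (Set.range X ∪ Set.range Z) with hSdef
  have hNmul : ∀ x ∈ N, ∀ y ∈ N, x * y ∈ N := fun x hx y hy =>
    ⟨mul_mem hx.1 hy.1, fun k => ⟨(hx.2 k).1.mul_left (hy.2 k).1, (hx.2 k).2.mul_left (hy.2 k).2⟩⟩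
  have hN1 : (1 : L2 I →L[ℂ] L2 I) ∈ N := ⟨one_mem _, fun k => ⟨.one_left _, .one_left _⟩⟩
  have hstar : ∀ s ∈ S, star s ∈ S := by
    rintro s (hs | ⟨n, rfl⟩ | ⟨n, rfl⟩)
    · refine Or.inl ⟨star_mem hs.1, fun k => ⟨?_, ?_⟩⟩
      · simpa [h.starX] using (hs.2 k).1.star_star
      · simpa [h.starZ] using (hs.2 k).2.star_star
    · exact Or.inr (Or.inl ⟨n, (h.starX n).symm⟩)
    · exact Or.inr (Or.inr ⟨n, (h.starZ n).symm⟩)
  have hSM : ∀ s ∈ S, s ∈ M := fun s hs => hS ▸ subset_vN hs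
  have hcyc' : Total fun x : vN S => x.1 ξ := by rw [hS]; exact hcyc
  have hev := h.comp (f := fun n => 2 * n) fun a b hab => by simpa using hab
  have hod := h.comp (f := fun n => 2 * n + 1) fun a b hab => by simpa using hab
  obtain ⟨Vl, hl, hl'⟩ := exists_frame (Equiv.refl (I × (Finset ℕ × Finset ℕ)))
  obtain ⟨Vr, hr, hr'⟩ := exists_frame (Equiv.prodComm (Finset ℕ × Finset ℕ) I)
  simp only [Equiv.refl_apply] at hl'
  have hr'' : ∀ i j, Vr i (delta j) = delta (i, j) := fun i j => hr' j i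
  -- the three families
  let u : N × (Finset ℕ × Finset ℕ) → L2 I := fun p => (p.1.1 * h.word p.2) ξ
  let v : (N × (Finset ℕ × Finset ℕ)) × (Finset ℕ × Finset ℕ) → L2 I := fun p =>
    (p.1.1.1 * hev.word p.1.2 * hod.word p.2) ξ
  let w : (N × (Finset ℕ × Finset ℕ)) × (Finset ℕ × Finset ℕ) → L2 (I × (Finset ℕ × Finset ℕ)) :=
    fun p => Vl p.2 (u p.1)
  have uN : ∀ s (hs : s ∈ N) (x : N) A, s (u (x, A)) = u (⟨s * x, hNmul _ hs _ x.2⟩, A) :=
    fun _ _ _ _ => rfl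
  have uX : ∀ n (x : N) A B, X n (u (x, A, B)) = u (x, symmDiff A {n}, B) := by
    intro n x A B
    simp only [u]
    rw [← mul_apply_eq_comp, ← mul_assoc, ← (x.2.2 n).1.eq, mul_assoc, h.X_mul]
  have uZ : ∀ n (x : N) A B, Z n (u (x, A, B)) =
      (if n ∈ A then -1 else 1 : ℂ) • u (x, A, symmDiff B {n}) := by
    intro n x A B
    simp only [u]
    rw [← mul_apply_eq_comp, ← mul_assoc, ← (x.2.2 n).2.eq, mul_assoc, h.Z_mul, mul_smul_comm,
      smul_apply]
  have vN' : ∀ s (hs : s ∈ N) (x : N) A B,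
      s (v ((x, A), B)) = v ((⟨s * x, hNmul _ hs _ x.2⟩, A), B) := fun _ _ _ _ _ => rfl
  have vX0 : ∀ n (x : N) A B C, X (2 * n) (v ((x, A, B), C)) = v ((x, symmDiff A {n}, B), C) := by
    intro n x A B C
    simp only [v]
    rw [← mul_apply_eq_comp, ← mul_assoc, ← mul_assoc, ← (x.2.2 _).1.eq, mul_assoc x.1,
      hev.X_mul]
  have vZ0 : ∀ n (x : N) A B C, Z (2 * n) (v ((x, A, B), C)) =
      (if n ∈ A then -1 else 1 : ℂ) • v ((x, A, symmDiff B {n}), C) := by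
    intro n x A B C
    simp only [v]
    rw [← mul_apply_eq_comp, ← mul_assoc, ← mul_assoc, ← (x.2.2 _).2.eq, mul_assoc x.1,
      hev.Z_mul, mul_smul_comm, smul_mul_assoc, smul_apply]
  have cX : ∀ n (x : N) C, Commute (x.1 * hev.word C) (X (2 * n + 1)) := fun n x C =>
    (x.2.2 _).1.mul_left (hev.commute_word (fun m => h.XX _ _)
      (fun m => h.XZ _ _ (by omega)) C).symm
  have cZ : ∀ n (x : N) C, Commute (x.1 * hev.word C) (Z (2 * n + 1)) := fun n x C =>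
    (x.2.2 _).2.mul_left (hev.commute_word (fun m => (h.XZ _ _ (by omega)).symm)
      (fun m => h.ZZ _ _) C).symm
  have vX1 : ∀ n (x : N) A B C,
      X (2 * n + 1) (v ((x, C), A, B)) = v ((x, C), symmDiff A {n}, B) := by
    intro n x A B C
    simp only [v]
    rw [← mul_apply_eq_comp, ← mul_assoc, ← (cX n x C).eq, mul_assoc, hod.X_mul]
  have vZ1 : ∀ n (x : N) A B C, Z (2 * n + 1) (v ((x, C), A, B)) =
      (if n ∈ A then -1 else 1 : ℂ) • v ((x, C), A, symmDiff B {n}) := by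
    intro n x A B C
    simp only [v]
    rw [← mul_apply_eq_comp, ← mul_assoc, ← (cZ n x C).eq, mul_assoc, hod.Z_mul, mul_smul_comm,
      smul_apply]
  have hu : Total u := by
    refine total_of_invariant hcyc' hstar ?_ ⟨(⟨1, hN1⟩, ∅, ∅), by simp [u]⟩
    rintro s (hs | ⟨n, rfl⟩ | ⟨n, rfl⟩) ⟨x, A, B⟩
    · rw [uN s hs]
      exact Submodule.subset_span ⟨_, rfl⟩
    · rw [uX]
      exact Submodule.subset_span ⟨_, rfl⟩
    · rw [uZ]
      exact Submodule.smul_mem _ _ (Submodule.subset_span ⟨_, rfl⟩)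
  have hv : Total v := by
    refine total_of_invariant hcyc' hstar ?_ ⟨((⟨1, hN1⟩, ∅, ∅), ∅, ∅), by simp [v]⟩
    rintro s (hs | ⟨n, rfl⟩ | ⟨n, rfl⟩) ⟨⟨x, A, B⟩, C, D⟩
    · rw [vN' s hs]
      exact Submodule.subset_span ⟨_, rfl⟩
    · obtain ⟨m, rfl | rfl⟩ := Nat.even_or_odd' n
      · rw [vX0]
        exact Submodule.subset_span ⟨_, rfl⟩
      · rw [vX1]
        exact Submodule.subset_span ⟨_, rfl⟩
    · obtain ⟨m, rfl | rfl⟩ := Nat.even_or_odd' n
      · rw [vZ0]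
        exact Submodule.smul_mem _ _ (Submodule.subset_span ⟨_, rfl⟩)
      · rw [vZ1]
        exact Submodule.smul_mem _ _ (Submodule.subset_span ⟨_, rfl⟩)
  have hw : Total w := by
    refine total_of_forall fun f => hl.total.induction _
      (Submodule.isClosed_topologicalClosure _) (fun p => ?_) f
    refine hu.induction ((Submodule.span ℂ (Set.range w)).topologicalClosure.comap
      (Vl p.1).toLinearMap) ((Submodule.isClosed_topologicalClosure _).preimage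
        (Vl p.1).continuous) (fun q => ?_) p.2
    exact Submodule.le_topologicalClosure _ (Submodule.subset_span ⟨(q, p.1), rfl⟩)
  have hevM : ∀ C, hev.word C ∈ M :=
    hev.word_mem M.toSubalgebra.toSubmonoid (fun _ => hX _) fun _ => hZ _
  obtain ⟨W, hW⟩ := exists_equiv_of_gram v w hv hw (by
    rintro ⟨⟨x, A⟩, B⟩ ⟨⟨y, C⟩, D⟩
    simp only [v, w, u]
    rw [hl.inner_eq, hod.inner_word ht (fun _ => hX _) (fun _ => hZ _)
      (mul_mem x.2.1 (hevM A)) (mul_mem y.2.1 (hevM C)) (fun n => cX n x A) (fun n => cZ n x A)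
      (fun n => cX n y C) (fun n => cZ n y C),
      hev.inner_word ht (fun _ => hX _) (fun _ => hZ _) x.2.1 y.2.1 (fun n => (x.2.2 _).1)
        (fun n => (x.2.2 _).2) (fun n => (y.2.2 _).1) (fun n => (y.2.2 _).2),
      h.inner_word ht hX hZ x.2.1 y.2.1 (fun n => (x.2.2 _).1)
        (fun n => (x.2.2 _).2) (fun n => (y.2.2 _).1) (fun n => (y.2.2 _).2)]
    by_cases hBD : B = D <;> simp [hBD])
  let Φ := W.conjStarAlgEquiv
  have hΦ : ∀ s p, Φ s (w p) = W (s (v p)) := fun s p => by simp [Φ, ← hW]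
  have ampl : ∀ s s', (∀ q B, W (s (v (q, B))) = Vl B (s' (u q))) → Amp Vl s' (Φ s) := by
    intro s s' hs B a
    have : Φ s ∘L Vl B = Vl B ∘L s' := hu.ext fun q => (hΦ s (q, B)).trans (hs q B)
    exact DFunLike.congr_fun this a
  have aN : ∀ s ∈ N, Amp Vl s (Φ s) := fun s hs => ampl s s fun q B => by
    rw [vN' s hs, hW, uN s hs]
  have aX : ∀ n, Amp Vl (X n) (Φ (X (2 * n))) := fun n => ampl _ _ fun ⟨x, A, B⟩ C => by
    rw [vX0, hW, uX]
  have aZ : ∀ n, Amp Vl (Z n) (Φ (Z (2 * n))) := fun n => ampl _ _ fun ⟨x, A, B⟩ C => by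
    rw [vZ0, map_smul, hW, uZ, map_smul]
  have ampr : ∀ s (T : L2 (Finset ℕ × Finset ℕ) →L[ℂ] L2 (Finset ℕ × Finset ℕ))
      (c : Finset ℕ × Finset ℕ → ℂ) (σ : Finset ℕ × Finset ℕ → Finset ℕ × Finset ℕ),
      (∀ B, T (delta B) = c B • delta (σ B)) → (∀ q B, s (v (q, B)) = c B • v (q, σ B)) →
      Amp Vr T (Φ s) := by
    intro s T c σ hT hs i a
    have h1 : ∀ B, Φ s ∘L Vl B = c B • Vl (σ B) := fun B => hu.ext fun q =>
      (hΦ s (q, B)).trans (by rw [hs, map_smul, hW]; rfl)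
    have h2 : Φ s ∘L Vr i = Vr i ∘L T := (total_delta _).ext fun B => by
      have := DFunLike.congr_fun (h1 B) (delta i)
      simp only [ContinuousLinearMap.comp_apply, smul_apply, hl'] at this
      simp only [ContinuousLinearMap.comp_apply, hr'', this, hT, map_smul]
    exact DFunLike.congr_fun h2 a
  have aX' : ∀ n (T : L2 (Finset ℕ × Finset ℕ) →L[ℂ] L2 (Finset ℕ × Finset ℕ)),
      (∀ A B, T (delta (A, B)) = delta (symmDiff A {n}, B)) → Amp Vr T (Φ (X (2 * n + 1))) :=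
    fun n T hT => ampr _ T (fun _ => 1) (fun B => (symmDiff B.1 {n}, B.2))
      (fun B => by simp [← hT]) fun ⟨x, C⟩ ⟨A, B⟩ => by rw [vX1, one_smul]
  have aZ' : ∀ n (T : L2 (Finset ℕ × Finset ℕ) →L[ℂ] L2 (Finset ℕ × Finset ℕ)),
      (∀ A B, T (delta (A, B)) = (if n ∈ A then -1 else 1 : ℂ) • delta (A, symmDiff B {n})) →
      Amp Vr T (Φ (Z (2 * n + 1))) :=
    fun n T hT => ampr _ T (fun B => if n ∈ B.1 then -1 else 1) (fun B => (B.1, symmDiff B.2 {n}))
      (fun B => hT B.1 B.2) fun ⟨x, C⟩ ⟨A, B⟩ => by rw [vZ1]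
  have el : ∀ x ∈ M, ∀ z, Amp Vl x z → z ∈ tensor M hyperfinite := fun x hx z hz =>
    subset_vN ⟨x, hx, 1, one_mem _, fun i j i' j' => by
      simpa using elementary hl hr hl' hr'' hz (z₂ := 1) (y := 1) (fun _ _ => rfl) i j i' j'⟩
  have er : ∀ y ∈ hyperfinite, ∀ z, Amp Vr y z → z ∈ tensor M hyperfinite := fun y hy z hz =>
    subset_vN ⟨1, one_mem _, y, hy, fun i j i' j' => by
      simpa using elementary hl hr hl' hr'' (z₁ := 1) (x := 1) (fun _ _ => rfl) hz i j i' j'⟩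
  have key : vN (Φ '' S) = tensor M hyperfinite := by
    refine le_antisymm ?_ ?_
    · refine (vN_le ?_).trans (vN_vN _).le
      rintro _ ⟨s, hs | ⟨n, rfl⟩ | ⟨n, rfl⟩, rfl⟩ <;> refine subset_vN ?_
      · exact el s hs.1 _ (aN s hs)
      · obtain ⟨m, rfl | rfl⟩ := Nat.even_or_odd' n
        · exact el _ (hX m) _ (aX m)
        · obtain ⟨T, -, hT⟩ := exists_perm_unitary (I := Finset ℕ × Finset ℕ)
            (Function.Involutive.toPerm (fun B => (symmDiff B.1 {m}, B.2)) fun B => by simp)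
            (fun _ => 1) (by simp)
          have hT' : ∀ A B, T (delta (A, B)) = delta (symmDiff A {m}, B) := fun A B => by
            simpa using hT (A, B)
          exact er T (subset_vN ⟨m, Or.inl hT'⟩) _ (aX' m T hT')
      · obtain ⟨m, rfl | rfl⟩ := Nat.even_or_odd' n
        · exact el _ (hZ m) _ (aZ m)
        · obtain ⟨T, -, hT⟩ := exists_perm_unitary (I := Finset ℕ × Finset ℕ)
            (Function.Involutive.toPerm (fun B => (B.1, symmDiff B.2 {m})) fun B => by simp)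
            (fun B => if m ∈ B.1 then -1 else 1) (fun B => by split_ifs <;> simp)
          exact er T (subset_vN ⟨m, Or.inr fun A B => hT (A, B)⟩) _
            (aZ' m T fun A B => hT (A, B))
    · refine vN_le ?_
      rintro z ⟨x, hx, y, hy, hz⟩
      obtain ⟨z₁, h1⟩ := hl.exists_amp x
      obtain ⟨z₂, h2⟩ := hr.exists_amp y
      have hz' : z = z₁ * z₂ := (total_delta _).ext fun ⟨i, j⟩ => lp.ext (funext fun ⟨i', j'⟩ => by
        rw [hz, elementary hl hr hl' hr'' h1 h2])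
      rw [hz']
      refine mul_mem (mem_vN.2 fun T hT => ?_) (mem_vN.2 fun T hT => ?_)
      · refine (hl.commute_of_vN (S := S) ?_ (hS ▸ hx) h1).symm
        rintro s (hs | ⟨n, rfl⟩ | ⟨n, rfl⟩)
        · exact ⟨_, aN s hs, hT _ ⟨s, Or.inl hs, rfl⟩⟩
        · exact ⟨_, aX n, hT _ ⟨_, Or.inr (Or.inl ⟨_, rfl⟩), rfl⟩⟩
        · exact ⟨_, aZ n, hT _ ⟨_, Or.inr (Or.inr ⟨_, rfl⟩), rfl⟩⟩
      · refine (hr.commute_of_vN ?_ hy h2).symm
        rintro s ⟨n, hs | hs⟩
        · exact ⟨_, aX' n s hs, hT _ ⟨_, Or.inr (Or.inl ⟨_, rfl⟩), rfl⟩⟩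
        · exact ⟨_, aZ' n s hs, hT _ ⟨_, Or.inr (Or.inr ⟨_, rfl⟩), rfl⟩⟩
  rw [← key, ← hS]
  exact nonempty_equiv_vN Φ S

end Pool.Agent.P.MP_335bcb_an
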