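import Mathlib
import Pool.Agent.P.MP_335bcb_an.Defs

/-! The classes of triples act faithfully on `ℕ × G`; the group axioms follow. -/

set_option autoImplicit false

namespace Pool.Agent.P.MP_335bcb_an

namespace BTree

theorem leaves_pos (T : BTree) : 0 < T.leaves := by
  induction T with
  | leaf => exact one_pos
  | node l r hl _ => exact Nat.add_pos_left hl _

theorem leaves_caret (T : BTree) (k : ℕ) : (T.caret k).leaves = T.leaves + 1 := by
  induction T generalizing k with
  | leaf => rfl
  | node l r hl hr =>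
    simp only [caret]
    split_ifs <;> simp only [leaves, hl, hr] <;> omega

/-- The number whose binary digits are the address of leaf `i` followed by the digits of `y`. -/
def enc : BTree → ℕ → ℕ → ℕ
  | .leaf, _, y => y
  | .node l r, i, y => if i < l.leaves then 2 * l.enc i y else 2 * r.enc (i - l.leaves) y + 1

theorem enc_surj (T : BTree) (n : ℕ) : ∃ i < T.leaves, ∃ y, T.enc i y = n := by
  induction T generalizing n with
  | leaf => exact ⟨0, one_pos, n, rfl⟩
  | node l r hl hr =>
    obtain ⟨m, rfl | rfl⟩ := Nat.even_or_odd' n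
    · obtain ⟨i, hi, y, rfl⟩ := hl m
      exact ⟨i, Nat.lt_add_right _ hi, y, by simp [enc, hi]⟩
    · obtain ⟨i, hi, y, rfl⟩ := hr m
      exact ⟨l.leaves + i, Nat.add_lt_add_left hi _, y, by simp [enc]⟩

theorem enc_inj (T : BTree) {i i' y y' : ℕ} (hi : i < T.leaves) (hi' : i' < T.leaves)
    (h : T.enc i y = T.enc i' y') : i = i' ∧ y = y' := by
  induction T generalizing i i' with
  | leaf => exact ⟨by simp only [leaves] at hi hi'; omega, h⟩
  | node l r hl hr =>
    simp only [enc, leaves] at h hi hi'
    split_ifs at h with h1 h2 h2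
    · exact hl h1 h2 (by omega)
    · omega
    · omega
    · have := hr (i := i - l.leaves) (i' := i' - l.leaves) (by omega) (by omega) (by omega)
      exact ⟨by omega, this.2⟩

theorem enc_caret (T : BTree) {k : ℕ} (hk : k < T.leaves) (i y : ℕ) (hi : i < T.leaves + 1) :
    (T.caret k).enc i y = if i < k then T.enc i y else if i = k then T.enc k (2 * y)
      else if i = k + 1 then T.enc k (2 * y + 1) else T.enc (i - 1) y := by
  induction T generalizing k i with
  | leaf =>
    simp only [leaves] at hk hi
    obtain rfl : k = 0 := by omega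
    obtain rfl | rfl : i = 0 ∨ i = 1 := by omega
    all_goals simp [caret, enc, leaves]
  | node l r hl hr =>
    simp only [leaves] at hk hi
    by_cases h1 : k < l.leaves
    · simp only [caret, h1, if_true, enc, leaves_caret]
      by_cases h2 : i < l.leaves + 1
      · rw [if_pos h2, hl h1 i h2]
        split_ifs <;> first | rfl | omega
      · rw [if_neg h2, if_neg (by omega), if_neg (by omega), if_neg (by omega), if_neg (by omega),
          show i - (l.leaves + 1) = i - 1 - l.leaves by omega]
    · simp only [caret, h1, if_false, enc]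
      by_cases h2 : i < l.leaves
      · rw [if_pos h2, if_pos (by omega), if_pos h2]
      · rw [if_neg h2, hr (by omega) _ (by omega), show i - l.leaves - 1 = i - 1 - l.leaves by omega]
        split_ifs <;> first | rfl | omega

theorem eq_of_enc (T U : BTree) (h : T.leaves = U.leaves)
    (h' : ∀ i < T.leaves, ∀ y, T.enc i y = U.enc i y) : T = U := by
  induction T generalizing U with
  | leaf =>
    cases U with
    | leaf => rfl
    | node l r =>
      have := l.leaves_pos
      have := r.leaves_pos
      simp only [leaves] at h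
      omega
  | node l r hl hr =>
    cases U with
    | leaf =>
      have := l.leaves_pos
      have := r.leaves_pos
      simp only [leaves] at h
      omega
    | node l' r' =>
      simp only [leaves, enc] at h h'
      have h1 := r.leaves_pos
      have h2 := r'.leaves_pos
      have h3 : l.leaves = l'.leaves := by
        by_contra hne
        have := h' (min l.leaves l'.leaves) (by omega) 0
        split_ifs at this <;> omega
      rw [hl l' h3 fun i hi y => ?_, hr r' (by omega) fun i hi y => ?_]
      · have := h' (l.leaves + i) (by omega) y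
        rw [if_neg (by omega), if_neg (by omega), ← h3, Nat.add_sub_cancel_left] at this
        omega
      · have := h' i (by omega) y
        rw [if_pos hi, if_pos (by omega)] at this
        omega

/-- `U` is obtained from `T` by attaching carets. -/
def Le : BTree → BTree → Prop :=
  Relation.ReflTransGen fun T U => ∃ k < T.leaves, U = T.caret k

theorem Le.node {l l' r r' : BTree} (hl : Le l l') (hr : Le r r') :
    Le (.node l r) (.node l' r') := by
  refine Relation.ReflTransGen.trans (b := .node l' r) ?_ ?_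
  · induction hl with
    | refl => exact .refl
    | tail _ h ih =>
      obtain ⟨k, hk, rfl⟩ := h
      exact ih.tail ⟨k, Nat.lt_add_right _ hk, by simp [caret, hk]⟩
  · induction hr with
    | refl => exact .refl
    | tail _ h ih =>
      obtain ⟨k, hk, rfl⟩ := h
      exact ih.tail ⟨l'.leaves + k, Nat.add_lt_add_left hk _, by simp [caret]⟩

theorem leaf_le (T : BTree) : Le .leaf T := by
  induction T with
  | leaf => exact .refl
  | node l r hl hr => exact .head ⟨0, one_pos, rfl⟩ (hl.node hr)

theorem exists_common (T U : BTree) : ∃ V, Le T V ∧ Le U V := by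
  induction T generalizing U with
  | leaf => exact ⟨U, leaf_le U, .refl⟩
  | node l r hl hr =>
    cases U with
    | leaf => exact ⟨_, .refl, leaf_le _⟩
    | node l' r' =>
      obtain ⟨a, h1, h2⟩ := hl l'
      obtain ⟨b, h3, h4⟩ := hr r'
      exact ⟨.node a b, h1.node h3, h2.node h4⟩

end BTree

/-- Number of ones in the binary expansion. -/
def ones (y : ℕ) : ℕ := (Nat.digits 2 y).sum

@[simp] theorem ones_zero : ones 0 = 0 := by simp [ones]

theorem ones_two_mul (y : ℕ) : ones (2 * y) = ones y := by
  rcases y.eq_zero_or_pos with rfl | hy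
  · rfl
  · simp [ones, Nat.digits_base_mul one_lt_two hy]

theorem ones_two_mul_add_one (y : ℕ) : ones (2 * y + 1) = ones y + 1 := by
  rw [ones, add_comm, Nat.digits_add 2 one_lt_two 1 y one_lt_two (Or.inl one_ne_zero),
    List.sum_cons, add_comm, ones]

variable {G : Type} [Group G] (φ : G ≃* G) {ψ : Bool}

/-- Twisting automorphism. -/
def tw (y : ℕ) : MulAut G := (show MulAut G from φ) ^ ones y

/-- `π` is the map described by the triple `s`. -/
def Desc (s : Triple G ψ) (π : ℕ × G → ℕ × G) : Prop :=
  ∀ i (hi : i < s.lab.length) y h,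
    π (s.plus.enc i y, h) = (s.minus.enc i y, tw φ y s.lab[i] * h)

theorem exists_desc (s : Triple G ψ) : ∃ π, Desc φ s π := by
  choose I hI Y hY using s.plus.enc_surj
  refine ⟨fun p => (s.minus.enc (I p.1) (Y p.1),
    tw φ (Y p.1) (s.lab[I p.1]'(s.len_plus ▸ hI _)) * p.2), fun i hi y h => ?_⟩
  obtain ⟨h1, h2⟩ := s.plus.enc_inj (hI _) (s.len_plus ▸ hi) (hY (s.plus.enc i y))
  simp only [h1, h2]

variable {φ}

theorem Desc.unique {s : Triple G ψ} {π π' : ℕ × G → ℕ × G} (h : Desc φ s π) (h' : Desc φ s π') :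
    π = π' := by
  funext ⟨n, g⟩
  obtain ⟨i, hi, y, rfl⟩ := s.plus.enc_surj n
  rw [h i (s.len_plus ▸ hi), h' i (s.len_plus ▸ hi)]

theorem Desc.expand {s t : Triple G ψ} {π : ℕ × G → ℕ × G} (h : Desc φ s π)
    (hst : Expand φ ψ s t) : Desc φ t π := by
  obtain ⟨k, hk, h1, h2, h3⟩ := hst
  intro i hi y g
  have hi' : i < s.lab.length + 1 := by
    rw [h3, List.length_insertIdx_of_le_length (by omega)] at hi
    exact hi
  rw [h1, h2, BTree.enc_caret _ (s.len_plus ▸ hk) _ _ (s.len_plus ▸ hi'),
    BTree.enc_caret _ (s.len_minus ▸ hk) _ _ (s.len_minus ▸ hi')]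
  simp only [h3, List.getElem_insertIdx]
  split_ifs with h4 h5 h6 h7 h8 h9 h10 h11 h12 <;> try omega
  · exact h i _ y g
  · subst h7
    rw [h i hk, tw, tw, ones_two_mul]
  · rw [h k hk, tw, tw, ones_two_mul_add_one, pow_succ]
    rfl
  · exact h (i - 1) _ y g

variable (φ) in
/-- The action of a class of triples. -/
noncomputable def act (x : CloningGroup φ ψ) : ℕ × G → ℕ × G :=
  Quot.lift (fun s => (exists_desc φ s).choose) (fun s t hst =>
    ((exists_desc φ s).choose_spec.expand hst).unique (exists_desc φ t).choose_spec) x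

theorem desc_act (s : Triple G ψ) : Desc φ s (act φ (Quot.mk _ s)) :=
  (exists_desc φ s).choose_spec

theorem exists_expand (s : Triple G ψ) {k : ℕ} (hk : k < s.lab.length) :
    ∃ t : Triple G ψ, (Quot.mk _ t : CloningGroup φ ψ) = Quot.mk _ s ∧
      t.minus = s.minus.caret k ∧ t.plus = s.plus.caret k := by
  have hl : (s.lab.insertIdx (k + 1) (φ s.lab[k])).length = s.lab.length + 1 :=
    List.length_insertIdx_of_le_length (by omega) _
  refine ⟨⟨s.minus.caret k, s.lab.insertIdx (k + 1) (φ s.lab[k]), s.plus.caret k,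
    by rw [hl, BTree.leaves_caret, s.len_minus], by rw [hl, BTree.leaves_caret, s.len_plus],
    fun h => ?_⟩, (Quot.sound ⟨k, hk, rfl, rfl, rfl⟩).symm, rfl, rfl⟩
  have := s.first h
  generalize φ s.lab[k] = a
  cases hs : s.lab with
  | nil => simp [hs] at this
  | cons b l => simpa [hs] using this

theorem exists_plus (s : Triple G ψ) {U : BTree} (h : s.plus.Le U) :
    ∃ t : Triple G ψ, (Quot.mk _ t : CloningGroup φ ψ) = Quot.mk _ s ∧ t.plus = U := by
  induction h with
  | refl => exact ⟨s, rfl, rfl⟩
  | tail _ h ih =>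
    obtain ⟨k, hk, rfl⟩ := h
    obtain ⟨t, h1, rfl⟩ := ih
    obtain ⟨u, h2, -, h3⟩ := exists_expand (φ := φ) t (t.len_plus ▸ hk)
    exact ⟨u, h2.trans h1, h3⟩

theorem exists_minus (s : Triple G ψ) {U : BTree} (h : s.minus.Le U) :
    ∃ t : Triple G ψ, (Quot.mk _ t : CloningGroup φ ψ) = Quot.mk _ s ∧ t.minus = U := by
  induction h with
  | refl => exact ⟨s, rfl, rfl⟩
  | tail _ h ih =>
    obtain ⟨k, hk, rfl⟩ := h
    obtain ⟨t, h1, rfl⟩ := ih
    obtain ⟨u, h2, h3, -⟩ := exists_expand (φ := φ) t (t.len_minus ▸ hk)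
    exact ⟨u, h2.trans h1, h3⟩

theorem act_injective : Function.Injective (act φ : CloningGroup φ ψ → _) := by
  rintro ⟨s⟩ ⟨t⟩ h
  obtain ⟨V, h1, h2⟩ := s.plus.exists_common t.plus
  obtain ⟨s', hs, hs'⟩ := exists_plus (φ := φ) s h1
  obtain ⟨t', ht, ht'⟩ := exists_plus (φ := φ) t h2
  have h3 := desc_act (φ := φ) s'
  have h4 := desc_act (φ := φ) t'
  rw [hs, h, ← ht] at h3
  refine hs.symm.trans (Eq.trans (congrArg _ ?_) ht)
  have hl : s'.lab.length = t'.lab.length := by rw [← s'.len_plus, ← t'.len_plus, hs', ht']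
  have key : ∀ i (hi : i < s'.lab.length) y, (s'.minus.enc i y, tw φ y s'.lab[i] * 1) =
      (t'.minus.enc i y, tw φ y (t'.lab[i]'(hl ▸ hi)) * 1) := fun i hi y => by
    rw [← h3 i hi, ← h4 i (hl ▸ hi), hs', ht']
  have h5 : s'.minus = t'.minus := BTree.eq_of_enc _ _ (by rw [s'.len_minus, t'.len_minus, hl])
    fun i hi y => congrArg Prod.fst (key i (s'.len_minus ▸ hi) y)
  have h6 : s'.lab = t'.lab := List.ext_getElem hl fun i hi _ => by
    simpa using congrArg Prod.snd (key i hi 0)
  obtain ⟨a, b, c, _, _, _⟩ := s'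
  obtain ⟨a', b', c', _, _, _⟩ := t'
  simp only at h5 h6 hs' ht'
  subst h5 h6 hs' ht'
  rfl

theorem act_mul (x y : CloningGroup φ ψ) : act φ (x.mul y) = act φ x ∘ act φ y := by
  have hex : ∃ z : CloningGroup φ ψ, ∃ s t u : Triple G ψ,
      Quot.mk _ s = x ∧ Quot.mk _ t = y ∧ Quot.mk _ u = z ∧ s.plus = t.minus ∧
      u.minus = s.minus ∧ u.plus = t.plus ∧ u.lab = List.zipWith (· * ·) s.lab t.lab := by
    obtain ⟨s⟩ := x
    obtain ⟨t⟩ := y
    obtain ⟨V, h1, h2⟩ := s.plus.exists_common t.minus
    obtain ⟨s', hs, hs'⟩ := exists_plus (φ := φ) s h1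
    obtain ⟨t', ht, ht'⟩ := exists_minus (φ := φ) t h2
    have hl : s'.lab.length = t'.lab.length := by rw [← s'.len_plus, ← t'.len_minus, hs', ht']
    refine ⟨_, s', t', ⟨s'.minus, List.zipWith (· * ·) s'.lab t'.lab, t'.plus,
      by simp [s'.len_minus, hl], by simp [t'.len_plus, hl], fun h => ?_⟩, hs, ht, rfl,
      hs'.trans ht'.symm, rfl, rfl, rfl⟩
    simp [List.head?_zipWith, s'.first h, t'.first h]
  obtain ⟨s, t, u, h1, h2, h3, h4, h5, h6, h7⟩ := @Classical.epsilon_spec _ _ hex
  rw [CloningGroup.mul, ← h3]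
  refine (desc_act u).unique fun i hi z g => ?_
  have hi' := hi
  rw [h7, List.length_zipWith, lt_min_iff] at hi'
  simp only [h7, List.getElem_zipWith, Function.comp_apply]
  rw [← h1, ← h2, h6, desc_act t i hi'.2, ← h4, desc_act s i hi'.1, h5, map_mul, mul_assoc]

theorem act_one : act φ (CloningGroup.one φ ψ) = id := by
  refine (desc_act _).unique fun i hi y g => ?_
  obtain rfl : i = 0 := by simpa using hi
  simp [BTree.enc]

theorem mul_assoc' (x y z : CloningGroup φ ψ) : (x.mul y).mul z = x.mul (y.mul z) :=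
  act_injective (by simp only [act_mul, Function.comp_assoc])

theorem one_mul' (x : CloningGroup φ ψ) : (CloningGroup.one φ ψ).mul x = x :=
  act_injective (by rw [act_mul, act_one, Function.id_comp])

theorem inv_mul_cancel' (x : CloningGroup φ ψ) : x.inv.mul x = CloningGroup.one φ ψ := by
  refine @Classical.epsilon_spec _ (fun y : CloningGroup φ ψ => y.mul x = CloningGroup.one φ ψ) ?_
  obtain ⟨s⟩ := x
  let s' : Triple G ψ := ⟨s.plus, s.lab.map (·⁻¹), s.minus, by simp [s.len_plus],
    by simp [s.len_minus], fun h => by simp [s.first h]⟩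
  refine ⟨Quot.mk _ s', act_injective ?_⟩
  rw [act_mul, act_one]
  funext ⟨n, g⟩
  obtain ⟨i, hi, y, rfl⟩ := s.plus.enc_surj n
  have hi' : i < s.lab.length := s.len_plus ▸ hi
  rw [Function.comp_apply, desc_act s i hi']
  have := desc_act (φ := φ) s' i (by simpa [s'] using hi') y (tw φ y s.lab[i] * g)
  simpa [s'] using this

end Pool.Agent.P.MP_335bcb_an
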