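import Mathlib
import Pool.Agent.P.MP_335bcb_an.Group

set_option autoImplicit false

namespace Pool.Agent.P.MP_335bcb_an

/-- The group structure on classes of triples, with the product `CloningGroup.mul`. -/
noncomputable instance instGroupCloningGroup {G : Type} [Group G] (φ : G ≃* G) (ψ : Bool) :
    Group (CloningGroup φ ψ) :=
  @Group.ofLeftAxioms _ ⟨CloningGroup.mul⟩ ⟨CloningGroup.inv⟩ ⟨CloningGroup.one φ ψ⟩
    (fun x y z => mul_assoc' x y z) (fun x => one_mul' x) (fun x => inv_mul_cancel' x)

end Pool.Agent.P.MP_335bcb_an
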