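import Mathlib
import Pool.Agent.P.MP_335bcb_an.Absorb

/-! Local algebras attached to supports, independence, and small corners with Pauli matrices. -/

set_option autoImplicit false

open scoped InnerProductSpace
open Filter Topology

namespace Pool.Agent.P.MP_335bcb_an

section General
variable {H : Type} [NormedAddCommGroup H] [InnerProductSpace ℂ H] [CompleteSpace H]

theorem apply_eq_zero_of_nonneg {c : H →L[ℂ] H} (hc : 0 ≤ c) {ξ : H} (h : ⟪ξ, c ξ⟫_ℂ = 0) :
    c ξ = 0 := by
  obtain ⟨s, rfl⟩ := CStarAlgebra.nonneg_iff_eq_star_mul_self.1 hc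
  rw [mul_apply_eq_comp, inner_star_right, inner_self_eq_zero] at h
  rw [mul_apply_eq_comp, h, map_zero]

theorem exists_proj {S : Set (H →L[ℂ] H)} {h : H →L[ℂ] H} (hS : h ∈ vN S) (hs : star h = h)
    {ξ : H} (h0 : ⟪ξ, h ξ⟫_ℂ = 0) (h1 : h ξ ≠ 0) :
    ∃ P ∈ vN S, star P = P ∧ P * P = P ∧ P ≠ 0 ∧ P ≠ 1 := by
  have hs' : IsSelfAdjoint h := hs
  have hdec := CFC.posPart_sub_negPart h hs'
  let K : Submodule ℂ H := (h⁺).ker
  have : CompleteSpace K := (ContinuousLinearMap.isClosed_ker _).completeSpace_coe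
  have hK : ∀ T, Comm S T → ∀ v ∈ K, T v ∈ K := by
    intro T hT v hv
    have h2 : Commute h⁺ T := Commute.cfcₙ_real (mem_vN.1 hS T hT).symm _
    have h3 : h⁺ v = 0 := hv
    change h⁺ (T v) = 0
    rw [← mul_apply_eq_comp, h2.eq, mul_apply_eq_comp, h3, map_zero]
  refine ⟨K.starProjection, mem_vN.2 fun T hT => commute_starProjection K (hK T hT)
    (hK _ hT.star), (isSelfAdjoint_starProjection K).star_eq,
    K.isIdempotentElem_starProjection, fun hP => h1 ?_, fun hP => h1 ?_⟩
  · have h2 : h⁻ = 0 := by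
      ext1 v
      have h3 : h⁻ v ∈ K := by
        change h⁺ (h⁻ v) = 0
        rw [← mul_apply_eq_comp, CFC.posPart_mul_negPart]
        rfl
      rw [← Submodule.starProjection_eq_self_iff.2 h3, hP]
      rfl
    rw [h2, sub_zero] at hdec
    exact apply_eq_zero_of_nonneg (hdec ▸ CFC.posPart_nonneg h) h0
  · have h2 : h⁺ = 0 := by
      ext1 v
      have h3 : v ∈ K := Submodule.starProjection_eq_self_iff.1 (by rw [hP]; rfl)
      exact h3
    rw [h2, zero_sub] at hdec
    have h3 : 0 ≤ -h := by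
      rw [← hdec, neg_neg]
      exact CFC.negPart_nonneg h
    have := apply_eq_zero_of_nonneg h3 (ξ := ξ) (by simp [h0])
    simpa using this

theorem conj_mem_vN {S S' : Set (H →L[ℂ] H)} {u : H →L[ℂ] H} (hu : u ∈ unitary (H →L[ℂ] H))
    (h : ∀ s ∈ S, u * s * star u ∈ vN S') {x : H →L[ℂ] H} (hx : x ∈ vN S) :
    u * x * star u ∈ vN S' := by
  have key : ∀ T y : H →L[ℂ] H, T * (u * y * star u) = u * y * star u * T ↔
      star u * T * u * y = y * (star u * T * u) := by
    intro T y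
    constructor
    · intro h1
      calc star u * T * u * y = star u * (T * (u * y * star u)) * u := by
            simp only [mul_assoc, hu.1, mul_one]
        _ = y * (star u * T * u) := by
            rw [h1]
            simp only [← mul_assoc, hu.1, one_mul]
    · intro h1
      calc T * (u * y * star u) = u * (star u * T * u * y) * star u := by
            simp only [← mul_assoc, hu.2, one_mul]
        _ = u * y * star u * T := by
            rw [h1]
            simp only [mul_assoc, hu.2, mul_one]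
  refine mem_vN.2 fun T hT => (key T x).2 (mem_vN.1 hx _ fun s hs => ⟨?_, ?_⟩)
  · exact ((key T s).1 (mem_vN.1 (h s hs) T hT)).symm
  · have := star_mem (h s hs)
    simp only [star_mul, star_star, ← mul_assoc] at this
    exact ((key T (star s)).1 (mem_vN.1 this T hT)).symm

/-- Pauli matrices in the corner of a projection `p`. -/
structure PP (p x z : H →L[ℂ] H) : Prop where
  star_p : star p = p
  star_x : star x = x
  star_z : star z = z
  pp : p * p = p
  xx : x * x = p
  zz : z * z = p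
  px : p * x = x
  pz : p * z = z
  anti : z * x = -(x * z)

theorem pp_of_orth {e u : H →L[ℂ] H} (hu : u ∈ unitary (H →L[ℂ] H)) (hs : star e = e)
    (he : e * e = e) (ho : e * (u * e * star u) = 0) :
    PP (e + u * e * star u) (u * e + e * star u) (e - u * e * star u) := by
  have h1 : e * (u * e) = 0 := by
    have := congrArg (· * u) ho
    simpa only [mul_assoc, hu.1, mul_one, zero_mul] using this
  have h2 : e * (star u * e) = 0 := by
    have := congrArg star h1
    simpa only [star_mul, hs, star_zero, mul_assoc] using this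
  have h3 : ∀ y, e * (u * (e * y)) = 0 := fun y => by
    simpa only [mul_assoc, zero_mul] using congrArg (· * y) h1
  have h4 : ∀ y, e * (star u * (e * y)) = 0 := fun y => by
    simpa only [mul_assoc, zero_mul] using congrArg (· * y) h2
  have h5 : ∀ y, e * (e * y) = e * y := fun y => by rw [← mul_assoc, he]
  have h6 : ∀ y, star u * (u * y) = y := fun y => by rw [← mul_assoc, hu.1, one_mul]
  refine ⟨?_, ?_, ?_, ?_, ?_, ?_, ?_, ?_, ?_⟩
  all_goals
    simp only [star_add, star_sub, star_mul, star_star, hs, mul_add, add_mul, mul_sub, sub_mul,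
      mul_assoc, h1, h2, h3, h4, h5, h6, he, mul_zero, zero_add, add_zero, sub_zero, zero_sub,
      sub_neg_eq_add, neg_sub]
    try abel

theorem PP.mul_proj {p x z c : H →L[ℂ] H} (h : PP p x z) (hs : star c = c) (hc : c * c = c)
    (hp : Commute c p) (hx : Commute c x) (hz : Commute c z) : PP (p * c) (x * c) (z * c) := by
  have key : ∀ a b : H →L[ℂ] H, Commute c b → a * c * (b * c) = a * b * c := fun a b hb => by
    rw [mul_assoc, ← mul_assoc c, hb.eq, mul_assoc b, hc, mul_assoc]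
  refine ⟨by rw [star_mul, hs, h.star_p, hp.eq], by rw [star_mul, hs, h.star_x, hx.eq],
    by rw [star_mul, hs, h.star_z, hz.eq], by rw [key _ _ hp, h.pp], by rw [key _ _ hx, h.xx],
    by rw [key _ _ hz, h.zz], by rw [key _ _ hx, h.px], by rw [key _ _ hz, h.pz],
    by rw [key _ _ hx, key _ _ hz, h.anti, neg_mul]⟩

theorem PP.conj {p x z u : H →L[ℂ] H} (h : PP p x z) (hu : u ∈ unitary (H →L[ℂ] H)) :
    PP (u * p * star u) (u * x * star u) (u * z * star u) := by
  have key : ∀ a b : H →L[ℂ] H, u * a * star u * (u * b * star u) = u * (a * b) * star u :=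
    fun a b => by
      simp only [mul_assoc]
      rw [← mul_assoc (star u), hu.1, one_mul]
  have key2 : ∀ a : H →L[ℂ] H, star (u * a * star u) = u * star a * star u := fun a => by
    simp only [star_mul, star_star, mul_assoc]
  refine ⟨by rw [key2, h.star_p], by rw [key2, h.star_x], by rw [key2, h.star_z],
    by rw [key, h.pp], by rw [key, h.xx], by rw [key, h.zz], by rw [key, h.px],
    by rw [key, h.pz], by rw [key, key, h.anti, mul_neg, neg_mul]⟩

theorem inner_proj {p : H →L[ℂ] H} (hs : star p = p) (hp : p * p = p) (ξ : H) :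
    ⟪ξ, p ξ⟫_ℂ = (‖p ξ‖ ^ 2 : ℝ) := by
  conv_lhs => rw [← hp, mul_apply_eq_comp, ← inner_star_left, hs]
  rw [inner_self_eq_norm_sq_to_K]
  simp

end General

section Group
variable {Γ : Type} [Group Γ]

/-- The canonical trace. -/
noncomputable def tr (x : L2 Γ →L[ℂ] L2 Γ) : ℂ := ⟪delta 1, x (delta 1)⟫_ℂ

theorem tr_add (x y : L2 Γ →L[ℂ] L2 Γ) : tr (x + y) = tr x + tr y := by
  simp [tr]

theorem tr_sub (x y : L2 Γ →L[ℂ] L2 Γ) : tr (x - y) = tr x - tr y := by
  simp [tr]

theorem tr_one : tr (1 : L2 Γ →L[ℂ] L2 Γ) = 1 := by simp [tr, norm_delta]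

theorem tr_conj {x : L2 Γ →L[ℂ] L2 Γ} (hx : x ∈ groupVN Γ) (g : Γ) :
    tr (lam g * x * star (lam g)) = tr x := by
  rw [tr, (tr_group Γ).trace _ (mul_mem (lam_mem g) hx) _ (star_mem (lam_mem g)), ← mul_assoc,
    (lam_unitary g).1, one_mul, tr]

theorem vN_lam_le (K : Set Γ) : vN (lam '' K) ≤ groupVN Γ :=
  groupVN_eq (Γ := Γ) ▸ vN_mono (Set.image_subset_range _ _)

theorem lam_apply (k g : Γ) (f : L2 Γ) : lam k f g = f (k⁻¹ * g) := by
  rw [← inner_delta, ← inner_star_left, star_lam, lam_delta, inner_delta]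

theorem support_of_mem (K : Subgroup Γ) {x : L2 Γ →L[ℂ] L2 Γ} (hx : x ∈ vN (lam '' K)) {g : Γ}
    (hg : g ∉ K) : x (delta 1) g = 0 := by
  let P : Submodule ℂ (L2 Γ) := ⨅ g : {g // g ∉ K}, (innerSL ℂ (delta g.1)).ker
  have hP : ∀ f, f ∈ P ↔ ∀ g ∉ K, f g = 0 := fun f => by
    simp [P, Submodule.mem_iInf, inner_delta]
  have hcl : IsClosed (P : Set (L2 Γ)) := by
    simp only [P, Submodule.coe_iInf]
    exact isClosed_iInter fun g => ContinuousLinearMap.isClosed_ker _
  have : CompleteSpace P := hcl.completeSpace_coe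
  have hinv : ∀ k ∈ K, ∀ v ∈ P, lam k v ∈ P := fun k hk v hv => (hP _).2 fun g hg => by
    rw [lam_apply]
    exact (hP _).1 hv _ fun h => hg (by simpa using K.mul_mem hk h)
  refine (hP _).1 (invariant_of_vN P ?_ hx ((hP _).2 fun g hg => ?_)) g hg
  · rintro _ ⟨k, hk, rfl⟩
    rw [star_lam]
    exact ⟨hinv k hk, hinv _ (K.inv_mem hk)⟩
  · rw [delta_apply, if_neg]
    rintro rfl
    exact hg K.one_mem

theorem tr_mul_of_disjoint {K K' : Subgroup Γ} (hK : ∀ g ∈ K, g ∈ K' → g = 1)
    {x y : L2 Γ →L[ℂ] L2 Γ} (hx : x ∈ vN (lam '' K)) (hy : y ∈ vN (lam '' K')) :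
    tr (x * y) = tr x * tr y := by
  rw [tr, mul_apply_eq_comp, ← inner_star_left, lp.inner_eq_tsum, tsum_eq_single 1]
  · rw [tr, tr, inner_delta, inner_delta]
    simp [star_apply_delta (vN_lam_le _ hx), mul_comm]
  · intro g hg
    by_cases h : g ∈ K
    · simp [support_of_mem K' hy fun h' => hg (hK g h h')]
    · simp [support_of_mem K (star_mem hx) h]

variable {Y : Type} [MulAction Γ Y] [FaithfulSMul Γ Y]

variable (Γ) in
/-- The algebra of the elements supported in `U`. -/
noncomputable def loc (U : Set Y) : StarSubalgebra ℂ (L2 Γ →L[ℂ] L2 Γ) :=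
  vN (lam '' fixingSubgroup Γ Uᶜ)

omit [FaithfulSMul Γ Y] in
theorem loc_mono {U V : Set Y} (h : U ⊆ V) : loc Γ U ≤ loc Γ V :=
  vN_mono (Set.image_mono (fixingSubgroup_antitone Γ Y (Set.compl_subset_compl.2 h)))

omit [FaithfulSMul Γ Y] in
theorem loc_le (U : Set Y) : loc Γ U ≤ groupVN Γ := vN_lam_le _

theorem commute_of_disjoint {U V : Set Y} (h : Disjoint U V) {g k : Γ}
    (hg : g ∈ fixingSubgroup Γ Uᶜ) (hk : k ∈ fixingSubgroup Γ Vᶜ) : Commute g k := by
  have h1 : (MulAction.toPerm g : Equiv.Perm Y).Disjoint (MulAction.toPerm k) := fun y => by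
    by_cases hy : y ∈ U
    · exact Or.inr ((mem_fixingSubgroup_iff Γ).1 hk y (Set.disjoint_left.1 h hy))
    · exact Or.inl ((mem_fixingSubgroup_iff Γ).1 hg y hy)
  refine eq_of_smul_eq_smul (α := Y) fun y => ?_
  simpa [mul_smul] using DFunLike.congr_fun h1.commute.eq y

theorem loc_commute {U V : Set Y} (h : Disjoint U V) {x y : L2 Γ →L[ℂ] L2 Γ} (hx : x ∈ loc Γ U)
    (hy : y ∈ loc Γ V) : Commute x y := by
  refine commute_of_vN ?_ hx hy
  rintro _ ⟨k, hk, rfl⟩ _ ⟨g, hg, rfl⟩
  rw [star_lam]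
  simp only [← lam_mul]
  exact ⟨congrArg _ (commute_of_disjoint h hg hk), congrArg _
    (commute_of_disjoint h (Subgroup.inv_mem _ hg) hk)⟩

theorem loc_tr_mul {U V : Set Y} (h : Disjoint U V) {x y : L2 Γ →L[ℂ] L2 Γ} (hx : x ∈ loc Γ U)
    (hy : y ∈ loc Γ V) : tr (x * y) = tr x * tr y := by
  refine tr_mul_of_disjoint (fun g hg hg' => eq_of_smul_eq_smul (α := Y) fun y => ?_) hx hy
  rw [one_smul]
  by_cases hy : y ∈ U
  · exact (mem_fixingSubgroup_iff Γ).1 hg' y (Set.disjoint_left.1 h hy)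
  · exact (mem_fixingSubgroup_iff Γ).1 hg y hy

theorem exists_pp {a b : Γ} {U : Set Y} (ha : a ≠ 1) (haU : a ∈ fixingSubgroup Γ Uᶜ)
    (hb : ∀ y ∈ U, b • y ∉ U) :
    ∃ p x z, PP p x z ∧ p ∈ vN (lam '' {a, b}) ∧ x ∈ vN (lam '' {a, b}) ∧
      z ∈ vN (lam '' {a, b}) ∧ ∃ d : ℝ, 0 < d ∧ d ≤ 1 / 2 ∧ tr p = d := by
  have hla : lam a ∈ vN (lam '' {a}) := subset_vN ⟨a, rfl, rfl⟩
  obtain ⟨P, hP, hPs, hPP, hP0, hP1⟩ := exists_proj (S := lam '' {a}) (h := lam a + star (lam a))
    (add_mem hla (star_mem hla)) (by simp [add_comm]) (ξ := delta 1)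
    (by simp [star_lam, inner_delta_delta, ha.symm, ha])
    (fun h => by
      have := congrFun (congrArg (fun f : L2 Γ => (f : Γ → ℂ)) h) a
      simp only [star_lam, add_apply, lam_delta, mul_one, lp.coeFn_add, Pi.add_apply,
        delta_apply, if_true, lp.coeFn_zero, Pi.zero_apply] at this
      split_ifs at this <;> norm_num at this)
  have hPM : P ∈ groupVN Γ := vN_lam_le _ hP
  have hPU : P ∈ loc Γ U := vN_mono (Set.image_mono (by simpa using haU)) hP
  have hu := lam_unitary b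
  set P' := lam b * P * star (lam b) with hP'
  have hP'U : P' ∈ loc Γ ((b • ·) '' U) := by
    refine conj_mem_vN hu ?_ hP
    rintro _ ⟨_, rfl, rfl⟩
    rw [star_lam, ← lam_mul, ← lam_mul]
    refine subset_vN ⟨_, (mem_fixingSubgroup_iff Γ).2 fun y hy => ?_, rfl⟩
    rw [mul_smul, mul_smul, (mem_fixingSubgroup_iff Γ).1 haU, smul_inv_smul]
    exact fun h => hy ⟨_, h, smul_inv_smul _ _⟩
  have hdisj : Disjoint U ((b • ·) '' U) := by
    rw [Set.disjoint_right]
    rintro _ ⟨y, hy, rfl⟩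
    exact hb y hy
  have hc : Commute P P' := loc_commute hdisj hPU hP'U
  have hP's : star P' = P' := by simp only [hP', star_mul, star_star, hPs, mul_assoc]
  have hP'P : P' * P' = P' := by
    simp only [hP', mul_assoc]
    rw [← mul_assoc (star (lam b)), hu.1, one_mul, ← mul_assoc P, hPP]
  have hc' : Commute P (1 - P') := (Commute.one_right P).sub_right hc
  have he0 : (1 - P') * P' = 0 := by rw [sub_mul, one_mul, hP'P, sub_self]
  have he1 : (1 - P') * (1 - P') = 1 - P' := by rw [mul_sub, mul_one, he0, sub_zero]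
  have hpp := pp_of_orth (e := P * (1 - P')) hu
    (by rw [star_mul, star_sub, star_one, hP's, hPs, hc'.eq])
    (by rw [mul_assoc, ← mul_assoc (1 - P'), ← hc'.eq, mul_assoc, he1, ← mul_assoc, hPP])
    (by
      have : lam b * (P * (1 - P')) * star (lam b) =
          P' * (lam b * (1 - P') * star (lam b)) := by
        simp only [hP', mul_assoc]
        rw [← mul_assoc (star (lam b)) (lam b), hu.1, one_mul]
      rw [this, mul_assoc, ← mul_assoc (1 - P'), he0, zero_mul, mul_zero])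
  have hPB : P ∈ vN (lam '' {a, b}) := vN_mono (Set.image_mono (by simp)) hP
  have hbB : lam b ∈ vN (lam '' {a, b}) := subset_vN ⟨b, by simp, rfl⟩
  have heB : P * (1 - P') ∈ vN (lam '' {a, b}) :=
    mul_mem hPB (sub_mem (one_mem _) (mul_mem (mul_mem hbB hPB) (star_mem hbB)))
  refine ⟨_, _, _, hpp, add_mem heB (mul_mem (mul_mem hbB heB) (star_mem hbB)),
    add_mem (mul_mem hbB heB) (mul_mem heB (star_mem hbB)),
    sub_mem heB (mul_mem (mul_mem hbB heB) (star_mem hbB)), ?_⟩
  have ht : tr P = (‖P (delta 1)‖ ^ 2 : ℝ) := inner_proj hPs hPP _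
  have ht' : tr (1 - P) = (‖(1 - P) (delta 1)‖ ^ 2 : ℝ) :=
    inner_proj (by rw [star_sub, star_one, hPs])
      (by rw [mul_sub, mul_one, sub_mul, one_mul, hPP, sub_self, sub_zero]) _
  have h0 : 0 < ‖P (delta 1)‖ ^ 2 :=
    pow_pos (norm_pos_iff.2 fun h => hP0 ((tr_group Γ).eq_zero hPM h)) 2
  have h1 : 0 < ‖(1 - P) (delta 1)‖ ^ 2 :=
    pow_pos (norm_pos_iff.2 fun h => hP1
      (sub_eq_zero.1 ((tr_group Γ).eq_zero (sub_mem (one_mem _) hPM) h)).symm) 2
  rw [tr_sub, tr_one, ht] at ht'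
  have h2 : 1 - ‖P (delta 1)‖ ^ 2 = ‖(1 - P) (delta 1)‖ ^ 2 := by exact_mod_cast ht'
  refine ⟨2 * (‖P (delta 1)‖ ^ 2 * (1 - ‖P (delta 1)‖ ^ 2)), by rw [h2]; positivity,
    by nlinarith [sq_nonneg (2 * ‖P (delta 1)‖ ^ 2 - 1)], ?_⟩
  rw [tr_add, tr_conj (vN_lam_le _ heB), loc_tr_mul hdisj hPU (sub_mem (one_mem _) hP'U), tr_sub,
    tr_one, hP', tr_conj hPM, ht]
  push_cast
  ring

end Group

end Pool.Agent.P.MP_335bcb_an
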