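import Mathlib
import Pool.Agent.P.MP_335bcb_an.Sites

/-! The first-marker construction of almost shift invariant Pauli matrices. -/

set_option autoImplicit false

open scoped InnerProductSpace
open Filter Topology

namespace Pool.Agent.P.MP_335bcb_an

section Ring
variable {A : Type} [Ring A]

/-- No marker at the sites `m, …, m + n - 1`. -/
def Qs (p : ℕ → A) : ℕ → ℕ → A
  | 0, _ => 1
  | n + 1, m => (1 - p m) * Qs p n (m + 1)

/-- Use `y` at the first marker among the sites `m, …, m + n - 1`. -/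
def Ys (p y : ℕ → A) : ℕ → ℕ → A
  | 0, _ => 0
  | n + 1, m => y m + (1 - p m) * Ys p y n (m + 1)

theorem Ys_succ_sub (p y : ℕ → A) (n : ℕ) :
    ∀ m, Ys p y (n + 1) m - Ys p y n m = Qs p n m * y (m + n) := by
  induction n with
  | zero => intro m; simp [Ys, Qs]
  | succ n ih =>
    intro m
    rw [Ys, Ys.eq_2 p y m n, add_sub_add_left_eq_sub, ← mul_sub, ih, Qs, mul_assoc,
      show m + 1 + n = m + (n + 1) by omega]

theorem Ys_equiv (p y : ℕ → A) (u : A) (n m : ℕ) (hp : ∀ i, u * p (n + i) = p (m + i) * u)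
    (hy : ∀ i, u * y (n + i) = y (m + i) * u) (r : ℕ) :
    ∀ i, u * Ys p y r (n + i) = Ys p y r (m + i) * u := by
  induction r with
  | zero => intro i; simp [Ys]
  | succ r ih =>
    intro i
    have h1 : u * (1 - p (n + i)) = (1 - p (m + i)) * u := by
      rw [mul_sub, sub_mul, hp, mul_one, one_mul]
    rw [Ys, Ys, mul_add, add_mul, hy, ← mul_assoc, h1, mul_assoc, add_assoc, ih, add_assoc,
      mul_assoc]

end Ring

theorem PP.symm {H : Type} [NormedAddCommGroup H] [InnerProductSpace ℂ H] [CompleteSpace H]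
    {p x z : H →L[ℂ] H} (h : PP p x z) : PP p z x :=
  ⟨h.star_p, h.star_z, h.star_x, h.pp, h.zz, h.xx, h.pz, h.px, by rw [h.anti, neg_neg]⟩

theorem PP.xp {H : Type} [NormedAddCommGroup H] [InnerProductSpace ℂ H] [CompleteSpace H]
    {p x z : H →L[ℂ] H} (h : PP p x z) : x * p = x := by
  simpa only [star_mul, h.star_p, h.star_x] using congrArg star h.px

theorem norm_le_one_of_sq {H : Type} [NormedAddCommGroup H] [InnerProductSpace ℂ H]
    [CompleteSpace H] {x p : H →L[ℂ] H} (hx : star x = x) (hp : star p = p) (hpp : p * p = p)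
    (h : x * x = p) : ‖x‖ ≤ 1 := by
  have h1 : ‖p‖ * ‖p‖ = ‖p‖ := by rw [← CStarRing.norm_star_mul_self, hp, hpp]
  have h2 : ‖x‖ * ‖x‖ = ‖p‖ := by rw [← CStarRing.norm_star_mul_self, hx, h]
  have h3 : ‖p‖ ≤ 1 := by nlinarith [norm_nonneg p]
  nlinarith [norm_nonneg x]

variable {Γ : Type} [Group Γ] {Y : Type} [MulAction Γ Y] [FaithfulSMul Γ Y]

/-- A column of independent corners with Pauli matrices. -/
structure Col (W : ℕ → Set Y) (p x z : ℕ → L2 Γ →L[ℂ] L2 Γ) (d : ℝ) : Prop where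
  disj : ∀ i j, i ≠ j → Disjoint (W i) (W j)
  pp : ∀ j, PP (p j) (x j) (z j)
  mem_p : ∀ j, p j ∈ loc Γ (W j)
  mem_x : ∀ j, x j ∈ loc Γ (W j)
  mem_z : ∀ j, z j ∈ loc Γ (W j)
  tr_p : ∀ j, tr (p j) = d
  pos : 0 < d

/-- The union of the sites from `m` on. -/
def tail (W : ℕ → Set Y) (m : ℕ) : Set Y := {y | ∃ j, m ≤ j ∧ y ∈ W j}

variable {W : ℕ → Set Y} {p x z : ℕ → L2 Γ →L[ℂ] L2 Γ} {d : ℝ}

omit [FaithfulSMul Γ Y] in
theorem Col.symm (h : Col W p x z d) : Col W p z x d :=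
  ⟨h.disj, fun j => (h.pp j).symm, h.mem_p, h.mem_z, h.mem_x, h.tr_p, h.pos⟩

omit [FaithfulSMul Γ Y] in
theorem Col.disj_tail (h : Col W p x z d) (m : ℕ) : Disjoint (W m) (tail W (m + 1)) := by
  rw [Set.disjoint_right]
  rintro y ⟨j, hj, hy⟩
  exact Set.disjoint_right.1 (h.disj m j (by omega)) hy

omit [FaithfulSMul Γ Y] in
theorem loc_le_tail (m : ℕ) : loc Γ (W m) ≤ loc Γ (tail W m) :=
  loc_mono fun _ hy => ⟨m, le_rfl, hy⟩

omit [FaithfulSMul Γ Y] in
theorem loc_tail_le (m : ℕ) : loc Γ (tail W (m + 1)) ≤ loc Γ (tail W m) :=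
  loc_mono fun _ ⟨j, hj, hy⟩ => ⟨j, by omega, hy⟩

omit [FaithfulSMul Γ Y] in
theorem Col.Qs_mem (h : Col W p x z d) (n : ℕ) : ∀ m, Qs p n m ∈ loc Γ (tail W m) := by
  induction n with
  | zero => exact fun _ => one_mem _
  | succ n ih =>
    exact fun m => mul_mem (sub_mem (one_mem _) (loc_le_tail m (h.mem_p m)))
      (loc_tail_le m (ih _))

omit [FaithfulSMul Γ Y] in
theorem Col.Ys_mem (h : Col W p x z d) (n : ℕ) : ∀ m, Ys p x n m ∈ loc Γ (tail W m) := by
  induction n with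
  | zero => exact fun _ => zero_mem _
  | succ n ih =>
    exact fun m => add_mem (loc_le_tail m (h.mem_x m))
      (mul_mem (sub_mem (one_mem _) (loc_le_tail m (h.mem_p m))) (loc_tail_le m (ih _)))

theorem Col.Qs_spec (h : Col W p x z d) (n : ℕ) : ∀ m, star (Qs p n m) = Qs p n m ∧
    Qs p n m * Qs p n m = Qs p n m ∧ tr (Qs p n m) = (1 - d) ^ n := by
  induction n with
  | zero => exact fun m => ⟨star_one _, mul_one _, by simp [Qs, tr_one]⟩
  | succ n ih =>
    intro m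
    obtain ⟨h1, h2, h3⟩ := ih (m + 1)
    have hm := sub_mem (one_mem _) (h.mem_p m)
    have hc := loc_commute (h.disj_tail m) hm (h.Qs_mem n (m + 1))
    have h4 : (1 - p m) * (1 - p m) = 1 - p m := by
      rw [mul_sub, mul_one, sub_mul, one_mul, (h.pp m).pp, sub_self, sub_zero]
    refine ⟨?_, ?_, ?_⟩
    · rw [Qs, star_mul, h1, star_sub, star_one, (h.pp m).star_p, hc.eq]
    · rw [Qs, mul_assoc, ← mul_assoc (Qs p n (m + 1)), ← hc.eq, mul_assoc, h2, ← mul_assoc, h4]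
    · rw [Qs, loc_tr_mul (h.disj_tail m) hm (h.Qs_mem n (m + 1)), h3, tr_sub, tr_one, h.tr_p,
        pow_succ']

theorem Col.Ys_mul (h : Col W p x z d) {x' : ℕ → L2 Γ →L[ℂ] L2 Γ} {z' : ℕ → L2 Γ →L[ℂ] L2 Γ}
    (h' : Col W p x' z' d) (n m : ℕ) : Ys p x (n + 1) m * Ys p x' (n + 1) m =
      x m * x' m + (1 - p m) * (Ys p x n (m + 1) * Ys p x' n (m + 1)) := by
  have hm := sub_mem (one_mem _) (h.mem_p m)
  have hc := loc_commute (h.disj_tail m) hm (h.Ys_mem n (m + 1))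
  have hc' := loc_commute (h.disj_tail m) (h'.mem_x m) (h.Ys_mem n (m + 1))
  have h4 : (1 - p m) * (1 - p m) = 1 - p m := by
    rw [mul_sub, mul_one, sub_mul, one_mul, (h.pp m).pp, sub_self, sub_zero]
  have h5 : x m * (1 - p m) = 0 := by rw [mul_sub, mul_one, (h.pp m).xp, sub_self]
  have h6 : (1 - p m) * x' m = 0 := by rw [sub_mul, one_mul, (h'.pp m).px, sub_self]
  rw [Ys, Ys, mul_add, add_mul, add_mul, mul_assoc, ← hc'.eq, ← mul_assoc, h6, zero_mul, add_zero,
    ← mul_assoc (x m), h5, zero_mul, zero_add, mul_assoc, ← mul_assoc (Ys p x n (m + 1)),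
    ← hc.eq, mul_assoc, ← mul_assoc, h4]

theorem Col.Ys_spec (h : Col W p x z d) (n : ℕ) : ∀ m, star (Ys p x n m) = Ys p x n m ∧
    Ys p x n m * Ys p x n m = 1 - Qs p n m ∧
    Ys p z n m * Ys p x n m = -(Ys p x n m * Ys p z n m) := by
  induction n with
  | zero => exact fun m => ⟨star_zero _, by simp [Ys, Qs], by simp [Ys]⟩
  | succ n ih =>
    intro m
    obtain ⟨h1, h2, h3⟩ := ih (m + 1)
    have hm := sub_mem (one_mem _) (h.mem_p m)
    have hc := loc_commute (h.disj_tail m) hm (h.Ys_mem n (m + 1))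
    refine ⟨?_, ?_, ?_⟩
    · rw [Ys, star_add, star_mul, h1, star_sub, star_one, (h.pp m).star_p, (h.pp m).star_x, hc.eq]
    · rw [h.Ys_mul h, h2, (h.pp m).xx, Qs, mul_sub, mul_one]
      abel
    · rw [h.Ys_mul h.symm, h.symm.Ys_mul h, h3, (h.pp m).anti, mul_neg, neg_add]

theorem Col.norm_Ys (h : Col W p x z d) (n m : ℕ) : ‖Ys p x n m‖ ≤ 1 := by
  obtain ⟨h1, h2, -⟩ := h.Qs_spec n m
  refine norm_le_one_of_sq (h.Ys_spec n m).1 (by rw [star_sub, star_one, h1]) ?_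
    (h.Ys_spec n m).2.1
  rw [mul_sub, mul_one, sub_mul, one_mul, h2, sub_self, sub_zero]

theorem Col.norm_Qs (h : Col W p x z d) (n m : ℕ) : ‖Qs p n m (delta 1)‖ = √(1 - d) ^ n := by
  have key : ∀ n, ‖Qs p n m (delta 1)‖ ^ 2 = (1 - d) ^ n := fun n => by
    obtain ⟨h1, h2, h3⟩ := h.Qs_spec n m
    rw [tr, inner_proj h1 h2] at h3
    exact_mod_cast h3
  have h0 : 0 ≤ 1 - d := by
    have := key 1
    rw [pow_one] at this
    rw [← this]
    positivity
  rw [← Real.sqrt_sq (norm_nonneg _), key, ← Real.sqrt_sq (pow_nonneg (Real.sqrt_nonneg _) n),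
    ← pow_mul, mul_comm, pow_mul, Real.sq_sqrt h0]

omit [FaithfulSMul Γ Y] in
theorem Col.sqrt_lt (h : Col W p x z d) : √(1 - d) < 1 :=
  Real.sqrt_lt' one_pos |>.2 (by linarith [h.pos])

theorem Col.exists_lim (h : Col W p x z d) (m : ℕ) :
    ∃ X : L2 Γ →L[ℂ] L2 Γ, ∀ v, Tendsto (fun n => Ys p x n m v) atTop (𝓝 (X v)) := by
  obtain ⟨X, -, hX⟩ := (tr_group Γ).exists_lim (fun n => h.norm_Ys n m)
    (fun n => loc_le _ (h.Ys_mem n m))
    (cauchySeq_of_le_geometric _ 1 h.sqrt_lt fun n => by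
      rw [dist_comm, dist_eq_norm, ← sub_apply, Ys_succ_sub, ← h.norm_Qs n m]
      refine ((tr_group Γ).norm_mul_le (loc_le _ (h.Qs_mem n m)) (loc_le _ (h.mem_x _))).trans ?_
      gcongr
      exact norm_le_one_of_sq (h.pp _).star_x (h.pp _).star_p (h.pp _).pp (h.pp _).xx)
  exact ⟨X, hX⟩

theorem Col.lim_spec (h : Col W p x z d) {X : ℕ → L2 Γ →L[ℂ] L2 Γ}
    (hX : ∀ m v, Tendsto (fun n => Ys p x n m v) atTop (𝓝 (X m v))) (m : ℕ) :
    X m ∈ loc Γ (tail W m) ∧ star (X m) = X m ∧ X m * X m = 1 ∧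
      ‖(X (m + 1) - X m) (delta 1)‖ ≤ 2 * √d := by
  have hmem : ∀ m, X m ∈ loc Γ (tail W m) := fun m =>
    mem_vN_of_tendsto (hX m) fun n => h.Ys_mem n m
  refine ⟨hmem m, isSelfAdjoint_of_tendsto (hX m) fun n => (h.Ys_spec n m).1, ?_, ?_⟩
  · ext1 v
    refine tendsto_nhds_unique (tendsto_mul_apply (fun n => h.norm_Ys n m) (hX m) (hX m) v) ?_
    have h1 : Tendsto (fun n => Qs p n m v) atTop (𝓝 0) := by
      refine (tr_group Γ).tendsto_zero (C := 1) (fun n => ?_) (fun n => loc_le _ (h.Qs_mem n m))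
        ?_ v
      · obtain ⟨h1, h2, -⟩ := h.Qs_spec n m
        exact norm_le_one_of_sq h1 h1 h2 h2
      · rw [tendsto_zero_iff_norm_tendsto_zero]
        simp only [h.norm_Qs]
        exact tendsto_pow_atTop_nhds_zero_of_lt_one (Real.sqrt_nonneg _) h.sqrt_lt
    simp only [(h.Ys_spec _ m).2.1]
    simpa using h1.const_sub v
  · have h1 : X m = x m + (1 - p m) * X (m + 1) := by
      ext1 v
      refine tendsto_nhds_unique ((tendsto_add_atTop_iff_nat 1).2 (hX m v)) ?_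
      exact (((1 - p m).continuous.tendsto _).comp (hX (m + 1) v)).const_add (x m v)
    have h2 : X (m + 1) - X m = p m * X (m + 1) - x m := by
      rw [h1, sub_mul, one_mul]
      abel
    have h3 : ‖p m (delta 1)‖ = √d := by
      have := h.tr_p m
      rw [tr, inner_proj (h.pp m).star_p (h.pp m).pp] at this
      rw [← Real.sqrt_sq (norm_nonneg _)]
      congr 1
      exact_mod_cast this
    have h4 : ‖x m (delta 1)‖ ≤ √d := by
      rw [← (h.pp m).xp, ← h3, mul_apply_eq_comp]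
      simpa using (x m).le_of_opNorm_le
        (norm_le_one_of_sq (h.pp _).star_x (h.pp _).star_p (h.pp _).pp (h.pp _).xx) _
    have h5 : ‖(p m * X (m + 1)) (delta 1)‖ ≤ √d := by
      refine ((tr_group Γ).norm_mul_le (loc_le _ (h.mem_p m)) (loc_le _ (hmem _))).trans ?_
      rw [h3]
      exact mul_le_of_le_one_left (Real.sqrt_nonneg _)
        (norm_le_of_tendsto (fun n => h.norm_Ys n _) (hX _))
    rw [h2, sub_apply]
    linarith [norm_sub_le ((p m * X (m + 1)) (delta 1)) (x m (delta 1))]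

theorem Col.lim_anti (h : Col W p x z d) {X Z : ℕ → L2 Γ →L[ℂ] L2 Γ}
    (hX : ∀ m v, Tendsto (fun n => Ys p x n m v) atTop (𝓝 (X m v)))
    (hZ : ∀ m v, Tendsto (fun n => Ys p z n m v) atTop (𝓝 (Z m v))) (m : ℕ) :
    Z m * X m = -(X m * Z m) := by
  ext1 v
  refine tendsto_nhds_unique (tendsto_mul_apply (fun n => h.symm.norm_Ys n m) (hZ m) (hX m) v) ?_
  simp only [(h.Ys_spec _ m).2.2]
  exact (tendsto_mul_apply (fun n => h.norm_Ys n m) (hX m) (hZ m) v).neg

theorem Col.lim_comm (h : Col W p x z d) {X : ℕ → L2 Γ →L[ℂ] L2 Γ}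
    (hX : ∀ m v, Tendsto (fun n => Ys p x n m v) atTop (𝓝 (X m v))) {g : Γ} {n m : ℕ}
    (hp : ∀ i, lam g * p (n + i) = p (m + i) * lam g)
    (hx : ∀ i, lam g * x (n + i) = x (m + i) * lam g) {k : ℕ} (hk : n ≤ k) :
    ‖(X k * lam g - lam g * X k) (delta 1)‖ ≤ (n + m) * (2 * √d) := by
  obtain ⟨i, rfl⟩ := Nat.exists_eq_add_of_le hk
  have h1 : lam g * X (n + i) = X (m + i) * lam g := by
    ext1 v
    refine tendsto_nhds_unique (((lam g).continuous.tendsto _).comp (hX (n + i) v)) ?_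
    refine (hX (m + i) (lam g v)).congr fun r => ?_
    exact (DFunLike.congr_fun (Ys_equiv p x _ n m hp hx r i) v).symm
  have h2 : ∀ s, ‖(X (s + i) - X i) (delta 1)‖ ≤ s * (2 * √d) := by
    intro s
    induction s with
    | zero => simp
    | succ s ih =>
      have h3 := (h.lim_spec hX (s + i)).2.2.2
      have h4 : X (s + 1 + i) - X i = (X (s + i + 1) - X (s + i)) + (X (s + i) - X i) := by
        rw [show s + 1 + i = s + i + 1 by omega]
        abel
      rw [h4, add_apply]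
      refine (norm_add_le _ _).trans ?_
      rw [Nat.cast_succ]
      linarith
  have hM : ∀ j, X j ∈ groupVN Γ := fun j => loc_le _ (h.lim_spec hX j).1
  rw [h1, ← sub_mul]
  refine ((tr_group Γ).norm_mul_le (sub_mem (hM _) (hM _)) (lam_mem g)).trans ?_
  have h5 : ‖lam g‖ ≤ 1 := by
    have := (CStarRing.norm_star_mul_self (x := lam g)).symm
    rw [(lam_unitary g).1] at this
    have h6 : ‖(1 : L2 Γ →L[ℂ] L2 Γ)‖ ≤ 1 := ContinuousLinearMap.norm_id_le
    nlinarith [norm_nonneg (lam g)]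
  have h6 : X (n + i) - X (m + i) = (X (n + i) - X i) - (X (m + i) - X i) := by abel
  refine (mul_le_of_le_one_left (norm_nonneg _) h5).trans ?_
  rw [h6, sub_apply]
  linarith [norm_sub_le ((X (n + i) - X i) (delta 1)) ((X (m + i) - X i) (delta 1)), h2 n, h2 m]

end Pool.Agent.P.MP_335bcb_an
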