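import Mathlib
import Pool.Agent.P.MP_335bcb_an.Marker

/-! Groups with a two-parameter family of independent sites that are shifted by conjugation have
group von Neumann algebras with property Gamma that absorb the hyperfinite factor. -/

set_option autoImplicit false

open scoped InnerProductSpace
open Filter Topology

namespace Pool.Agent.P.MP_335bcb_an

variable {Γ : Type} [Group Γ]

theorem of_pauli {X Z : ℕ → L2 Γ →L[ℂ] L2 Γ} (h : Pauli X Z) (hX : ∀ n, X n ∈ groupVN Γ)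
    (hZ : ∀ n, Z n ∈ groupVN Γ)
    (hsX : ∀ g : Γ, Summable fun k => ‖(X k * lam g - lam g * X k) (delta 1)‖)
    (hsZ : ∀ g : Γ, Summable fun k => ‖(Z k * lam g - lam g * Z k) (delta 1)‖) :
    AbsorbsR Γ ∧ HasPropertyGamma Γ := by
  have ht := tr_group Γ
  constructor
  · refine absorbs ht ?_ h hX hZ (le_antisymm ?_ ?_)
    · refine total_of_forall fun f => (total_delta Γ).induction _
        (Submodule.isClosed_topologicalClosure _) (fun g => ?_) f
      exact Submodule.le_topologicalClosure _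
        (Submodule.subset_span ⟨⟨lam g, lam_mem g⟩, by simp⟩)
    · refine (vN_mono ?_).trans ht.bicomm.le
      rintro s (hs | ⟨n, rfl⟩ | ⟨n, rfl⟩)
      exacts [hs.1, hX n, hZ n]
    · refine groupVN_eq.le.trans (vN_le ?_)
      rintro _ ⟨g, rfl⟩
      exact h.mem_vN_of_summable ht hX hZ (fun n => subset_vN (Or.inr (Or.inl ⟨n, rfl⟩)))
        (fun n => subset_vN (Or.inr (Or.inr ⟨n, rfl⟩)))
        (fun y hy hc => subset_vN (Or.inl ⟨hy, fun k => ⟨(hc k).1.symm, (hc k).2.symm⟩⟩))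
        (lam_mem g) (hsX g) (hsZ g)
  · refine ⟨X, fun j => ⟨hX j, ⟨by rw [h.starX, h.sqX], by rw [h.starX, h.sqX]⟩,
      ht.trace_eq_zero (hX j) (hZ j) (h.sqZ j) (h.anti j)⟩, fun x hx => ?_⟩
    have h1 : ∀ v ∈ Submodule.span ℂ (Set.range (delta : Γ → L2 Γ)), ∃ y ∈ groupVN Γ,
        y (delta 1) = v ∧ Tendsto (fun j => (X j * y - y * X j) (delta 1)) atTop (𝓝 0) := by
      intro v hv
      induction hv using Submodule.span_induction with
      | mem v hv =>
        obtain ⟨g, rfl⟩ := hv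
        exact ⟨lam g, lam_mem g, by simp,
          tendsto_zero_iff_norm_tendsto_zero.2 (hsX g).tendsto_atTop_zero⟩
      | zero => exact ⟨0, zero_mem _, rfl, by simp⟩
      | add v w _ _ hv hw =>
        obtain ⟨y, hy, rfl, hy'⟩ := hv
        obtain ⟨y', hz, rfl, hz'⟩ := hw
        refine ⟨y + y', add_mem hy hz, rfl, ?_⟩
        have := hy'.add hz'
        rw [add_zero] at this
        refine this.congr fun j => ?_
        rw [← add_apply, mul_add, add_mul]
        congr 1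
        abel
      | smul c v _ hv =>
        obtain ⟨y, hy, rfl, hy'⟩ := hv
        refine ⟨c • y, SMulMemClass.smul_mem _ hy, rfl, ?_⟩
        have := hy'.const_smul c
        rw [smul_zero] at this
        refine this.congr fun j => ?_
        rw [← smul_apply, mul_smul_comm, smul_mul_assoc, smul_sub]
    rw [Metric.tendsto_nhds]
    intro ε hε
    obtain ⟨v, hv, hvx⟩ := Metric.mem_closure_iff.1 (total_delta Γ (x (delta 1))) (ε / 3)
      (by positivity)
    obtain ⟨y, hy, rfl, hy'⟩ := h1 v hv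
    filter_upwards [Metric.tendsto_nhds.1 hy' (ε / 3) (by positivity)] with j hj
    rw [dist_zero_right] at hj
    rw [dist_eq_norm, ← sub_apply] at hvx
    rw [dist_zero_right, norm_norm]
    have h2 : X j * x - x * X j = (X j * y - y * X j) + X j * (x - y) - (x - y) * X j := by
      rw [mul_sub, sub_mul]
      abel
    have h3 := norm_symm_le (h.starX j) (h.sqX j)
    have h4 : ‖(X j * (x - y)) (delta 1)‖ ≤ 1 * ‖(x - y) (delta 1)‖ :=
      (X j).le_of_opNorm_le h3 _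
    have h5 : ‖((x - y) * X j) (delta 1)‖ ≤ 1 * ‖(x - y) (delta 1)‖ :=
      (ht.norm_mul_le (sub_mem hx hy) (hX j)).trans (by gcongr)
    rw [h2, sub_apply, add_apply]
    linarith [norm_sub_le ((X j * y - y * X j) (delta 1) + (X j * (x - y)) (delta 1))
      (((x - y) * X j) (delta 1)),
      norm_add_le ((X j * y - y * X j) (delta 1)) ((X j * (x - y)) (delta 1))]

variable {Y : Type} [MulAction Γ Y] [FaithfulSMul Γ Y]

omit [FaithfulSMul Γ Y] in
theorem fix_mono {U V : Set Y} (h : U ⊆ V) {g : Γ} (hg : g ∈ fixingSubgroup Γ Uᶜ) :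
    g ∈ fixingSubgroup Γ Vᶜ :=
  fixingSubgroup_antitone Γ Y (Set.compl_subset_compl.2 h) hg

theorem exists_small_pp {a b : ℕ → Γ} {U U' : ℕ → Set Y}
    (hU : ∀ i j, i ≠ j → Disjoint (U i) (U j)) (haU : ∀ u, a u ∈ fixingSubgroup Γ (U u)ᶜ)
    (hbU : ∀ u, b u ∈ fixingSubgroup Γ (U u)ᶜ) (ha : ∀ u, a u ≠ 1)
    (haU' : ∀ u, a u ∈ fixingSubgroup Γ (U' u)ᶜ) (hb : ∀ u, ∀ y ∈ U' u, b u • y ∉ U' u) (m : ℕ) :
    ∃ p x z, PP p x z ∧ p ∈ vN (lam '' {g | ∃ u ≤ m, g = a u ∨ g = b u}) ∧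
      x ∈ vN (lam '' {g | ∃ u ≤ m, g = a u ∨ g = b u}) ∧
      z ∈ vN (lam '' {g | ∃ u ≤ m, g = a u ∨ g = b u}) ∧
      ∃ d : ℝ, 0 < d ∧ d ≤ (1 / 2) ^ m ∧ tr p = d := by
  have hsub : ∀ m, vN (lam '' {a m, b m}) ≤ vN (lam '' {g | ∃ u ≤ m, g = a u ∨ g = b u}) :=
    fun m => vN_mono (Set.image_mono fun g hg => ⟨m, le_rfl, hg⟩)
  induction m with
  | zero =>
    obtain ⟨p, x, z, h, hp, hx, hz, d, h0, h1, h2⟩ := exists_pp (ha 0) (haU' 0) (hb 0)
    exact ⟨p, x, z, h, hsub 0 hp, hsub 0 hx, hsub 0 hz, d, h0, by linarith, h2⟩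
  | succ m ih =>
    obtain ⟨p, x, z, h, hp, hx, hz, d, h0, h1, h2⟩ := ih
    obtain ⟨c, x', z', h', hc, -, -, d', h0', h1', h2'⟩ :=
      exists_pp (ha (m + 1)) (haU' (m + 1)) (hb (m + 1))
    have hold : vN (lam '' {g | ∃ u ≤ m, g = a u ∨ g = b u}) ≤ loc Γ {y | ∃ u ≤ m, y ∈ U u} := by
      refine vN_mono (Set.image_mono ?_)
      rintro g ⟨u, hu, rfl | rfl⟩
      · exact fix_mono (V := {y | ∃ u ≤ m, y ∈ U u}) (fun y hy => ⟨u, hu, hy⟩) (haU u)
      · exact fix_mono (V := {y | ∃ u ≤ m, y ∈ U u}) (fun y hy => ⟨u, hu, hy⟩) (hbU u)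
    have hnew : c ∈ loc Γ (U (m + 1)) := by
      refine vN_mono (Set.image_mono ?_) hc
      rintro g (rfl | rfl)
      exacts [haU _, hbU _]
    have hdisj : Disjoint (U (m + 1)) {y | ∃ u ≤ m, y ∈ U u} := by
      rw [Set.disjoint_right]
      rintro y ⟨u, hu, hy⟩
      exact Set.disjoint_right.1 (hU _ u (by omega)) hy
    have hmono : vN (lam '' {g | ∃ u ≤ m, g = a u ∨ g = b u}) ≤
        vN (lam '' {g | ∃ u ≤ m + 1, g = a u ∨ g = b u}) :=
      vN_mono (Set.image_mono fun g ⟨u, hu, hg⟩ => ⟨u, by omega, hg⟩)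
    refine ⟨_, _, _, h.mul_proj h'.star_p h'.pp (loc_commute hdisj hnew (hold hp))
      (loc_commute hdisj hnew (hold hx)) (loc_commute hdisj hnew (hold hz)),
      mul_mem (hmono hp) (hsub _ hc), mul_mem (hmono hx) (hsub _ hc),
      mul_mem (hmono hz) (hsub _ hc), d * d', by positivity, ?_, ?_⟩
    · rw [pow_succ]
      gcongr
    · rw [loc_tr_mul hdisj.symm (hold hp) hnew, h2, h2']
      push_cast
      rfl

theorem main_of_sites (t : Γ) (a b : ℕ → Γ) (U : ℕ → ℕ → Set Y) (U' : ℕ → Set Y)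
    (hU : ∀ j u j' u', (j, u) ≠ (j', u') → Disjoint (U j u) (U j' u'))
    (haU : ∀ j u, t ^ j * a u * (t ^ j)⁻¹ ∈ fixingSubgroup Γ (U j u)ᶜ)
    (hbU : ∀ j u, t ^ j * b u * (t ^ j)⁻¹ ∈ fixingSubgroup Γ (U j u)ᶜ)
    (hshift : ∀ g : Γ, ∃ n m, ∀ i u, Commute ((t ^ (m + i))⁻¹ * g * t ^ (n + i)) (a u) ∧
      Commute ((t ^ (m + i))⁻¹ * g * t ^ (n + i)) (b u))
    (ha : ∀ u, a u ≠ 1) (haU' : ∀ u, a u ∈ fixingSubgroup Γ (U' u)ᶜ)
    (hb : ∀ u, ∀ y ∈ U' u, b u • y ∉ U' u) : AbsorbsR Γ ∧ HasPropertyGamma Γ := by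
  have h1 : ∀ k, ∃ p x z, PP p x z ∧
      p ∈ vN (lam '' {g | ∃ u ≤ 2 * k, g = a (Nat.pair k u) ∨ g = b (Nat.pair k u)}) ∧
      x ∈ vN (lam '' {g | ∃ u ≤ 2 * k, g = a (Nat.pair k u) ∨ g = b (Nat.pair k u)}) ∧
      z ∈ vN (lam '' {g | ∃ u ≤ 2 * k, g = a (Nat.pair k u) ∨ g = b (Nat.pair k u)}) ∧
      ∃ d : ℝ, 0 < d ∧ d ≤ (1 / 2) ^ (2 * k) ∧ tr p = d := fun k =>
    exists_small_pp (U := fun u => U 0 (Nat.pair k u)) (U' := fun u => U' (Nat.pair k u))
      (fun i j hij => hU _ _ _ _ (by simpa using hij)) (fun u => by simpa using haU 0 _)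
      (fun u => by simpa using hbU 0 _) (fun u => ha _) (fun u => haU' _) (fun u => hb _) _
  choose p x z hpp hp hx hz d hd0 hd1 hd2 using h1
  let W : ℕ → ℕ → Set Y := fun k j => {y | ∃ u, y ∈ U j (Nat.pair k u)}
  have hW : ∀ k j k' j', (k, j) ≠ (k', j') → Disjoint (W k j) (W k' j') := by
    intro k j k' j' hne
    rw [Set.disjoint_left]
    rintro y ⟨u, hu⟩ ⟨u', hu'⟩
    refine Set.disjoint_left.1 (hU _ _ _ _ fun h => hne ?_) hu hu'
    simp only [Prod.mk.injEq, Nat.pair_eq_pair] at h ⊢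
    exact ⟨h.2.1, h.1⟩
  let c : ℕ → (L2 Γ →L[ℂ] L2 Γ) → L2 Γ →L[ℂ] L2 Γ := fun j y =>
    lam (t ^ j) * y * star (lam (t ^ j))
  have hc : ∀ k j, ∀ y ∈ vN (lam '' {g | ∃ u ≤ 2 * k, g = a (Nat.pair k u) ∨
      g = b (Nat.pair k u)}), c j y ∈ loc Γ (W k j) := by
    intro k j y hy
    refine conj_mem_vN (lam_unitary _) ?_ hy
    rintro _ ⟨g, ⟨u, -, hg⟩, rfl⟩
    rw [star_lam, ← lam_mul, ← lam_mul]
    refine subset_vN ⟨_, fix_mono (U := U j (Nat.pair k u)) (V := W k j)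
      (fun y hy => ⟨u, hy⟩) ?_, rfl⟩
    rcases hg with rfl | rfl
    exacts [haU _ _, hbU _ _]
  have hcol : ∀ k, Col (W k) (fun j => c j (p k)) (fun j => c j (x k)) (fun j => c j (z k))
      (d k) := fun k =>
    ⟨fun i j hij => hW _ _ _ _ (by simpa using hij), fun j => (hpp k).conj (lam_unitary _),
      fun j => hc k j _ (hp k), fun j => hc k j _ (hx k), fun j => hc k j _ (hz k),
      fun j => (tr_conj (vN_lam_le _ (hp k)) _).trans (hd2 k), hd0 k⟩
  choose X hX using fun k m => (hcol k).exists_lim m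
  choose Z hZ using fun k m => (hcol k).symm.exists_lim m
  have hXs := fun k => (hcol k).lim_spec (hX k) k
  have hZs := fun k => (hcol k).symm.lim_spec (hZ k) k
  have hT : ∀ k l, k ≠ l → Disjoint (tail (W k) k) (tail (W l) l) := by
    intro k l hkl
    rw [Set.disjoint_left]
    rintro y ⟨j, -, hj⟩ ⟨j', -, hj'⟩
    exact Set.disjoint_left.1 (hW _ _ _ _ (by simp [hkl])) hj hj'
  have hequiv : ∀ g : Γ, ∃ n m, ∀ k, ∀ y ∈ vN (lam '' {g | ∃ u ≤ 2 * k, g = a (Nat.pair k u) ∨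
      g = b (Nat.pair k u)}), ∀ i, lam g * c (n + i) y = c (m + i) y * lam g := by
    intro g
    obtain ⟨n, m, h⟩ := hshift g
    refine ⟨n, m, fun k y hy i => ?_⟩
    have h2 := mem_vN.1 hy (lam ((t ^ (m + i))⁻¹ * g * t ^ (n + i))) (by
      rintro _ ⟨g', ⟨u, -, hg'⟩, rfl⟩
      have h3 : Commute ((t ^ (m + i))⁻¹ * g * t ^ (n + i)) g' := by
        rcases hg' with rfl | rfl
        exacts [(h i _).1, (h i _).2]
      rw [star_lam]
      simp only [← lam_mul]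
      exact ⟨congrArg _ h3.eq.symm, congrArg _ h3.inv_right.eq.symm⟩)
    have h4 : lam g * lam (t ^ (n + i)) =
        lam (t ^ (m + i)) * lam ((t ^ (m + i))⁻¹ * g * t ^ (n + i)) := by
      simp only [← lam_mul, mul_assoc, mul_inv_cancel_left]
    have h5 : lam ((t ^ (m + i))⁻¹ * g * t ^ (n + i)) * lam (t ^ (n + i))⁻¹ =
        lam (t ^ (m + i))⁻¹ * lam g := by
      simp only [← lam_mul, mul_assoc, mul_inv_cancel, mul_one]
    simp only [c, star_lam]
    rw [← mul_assoc, ← mul_assoc, h4, mul_assoc (lam (t ^ (m + i))), h2, mul_assoc, mul_assoc,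
      h5, mul_assoc, mul_assoc]
  have hsum : ∀ (f : ℕ → ℝ) (n : ℕ) (C : ℝ), 0 ≤ C → (∀ k, 0 ≤ f k) →
      (∀ k, n ≤ k → f k ≤ C * (2 * √(d k))) → Summable f := by
    intro f n C hC h0 hf
    refine Summable.of_norm_bounded_eventually_nat
      ((summable_geometric_two.mul_left 2).mul_left C) (eventually_atTop.2 ⟨n, fun k hk => ?_⟩)
    rw [Real.norm_of_nonneg (h0 k)]
    refine (hf k hk).trans ?_
    gcongr
    rw [Real.sqrt_le_left (by positivity), ← pow_mul, mul_comm]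
    exact hd1 k
  refine of_pauli (X := fun k => X k k) (Z := fun k => Z k k)
    ⟨fun k => (hXs k).2.1, fun k => (hZs k).2.1, fun k => (hXs k).2.2.1, fun k => (hZs k).2.2.1,
      fun k l => ?_, fun k l => ?_, fun k => (hcol k).lim_anti (hX k) (hZ k) k,
      fun k l hkl => loc_commute (hT k l hkl) (hXs k).1 (hZs l).1⟩
    (fun k => loc_le _ (hXs k).1) (fun k => loc_le _ (hZs k).1) (fun g => ?_) fun g => ?_
  · by_cases hkl : k = l
    · rw [hkl]
    · exact loc_commute (hT k l hkl) (hXs k).1 (hXs l).1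
  · by_cases hkl : k = l
    · rw [hkl]
    · exact loc_commute (hT k l hkl) (hZs k).1 (hZs l).1
  · obtain ⟨n, m, h⟩ := hequiv g
    exact hsum _ n (n + m) (by positivity) (fun _ => norm_nonneg _) fun k hk =>
      (hcol k).lim_comm (hX k) (h k _ (hp k)) (h k _ (hx k)) hk
  · obtain ⟨n, m, h⟩ := hequiv g
    exact hsum _ n (n + m) (by positivity) (fun _ => norm_nonneg _) fun k hk =>
      (hcol k).symm.lim_comm (hZ k) (h k _ (hp k)) (h k _ (hz k)) hk

end Pool.Agent.P.MP_335bcb_an
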