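import Mathlib
import Pool.Agent.P.MP_335bcb_an.Inst
import Pool.Agent.P.MP_335bcb_an.Main

/-! The sites in the cloning groups: copies of an element of the oriented Thompson group. -/

set_option autoImplicit false

namespace Pool.Agent.P.MP_335bcb_an

open BTree

/-- Prepend the binary word `w`. -/
def encW : List Bool → ℕ → ℕ
  | [], y => y
  | b :: w, y => 2 * encW w y + b.toNat

/-- The tree with `T` grafted at the address `w`. -/
def graft : List Bool → BTree → BTree
  | [], T => T
  | b :: w, T => if b then .node .leaf (graft w T) else .node (graft w T) .leaf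

theorem encW_append (v w : List Bool) (y : ℕ) : encW (v ++ w) y = encW v (encW w y) := by
  induction v with
  | nil => rfl
  | cons b v ih => simp [encW, ih]

theorem encW_injective (w : List Bool) : Function.Injective (encW w) := by
  induction w with
  | nil => exact fun _ _ h => h
  | cons b w ih => exact fun _ _ h => ih (by simp only [encW] at h; omega)

theorem encW_replicate (n y : ℕ) : encW (List.replicate n false) y = 2 ^ n * y := by
  induction n with
  | zero => simp [encW]
  | succ n ih => simp [List.replicate_succ, encW, ih, pow_succ', mul_assoc]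

theorem encW_run (b : Bool) (j j' : ℕ) {v v' : List Bool} {y y' : ℕ}
    (h : encW (List.replicate j b ++ (!b) :: v) y = encW (List.replicate j' b ++ (!b) :: v') y') :
    j = j' ∧ encW v y = encW v' y' := by
  induction j generalizing j' with
  | zero =>
    cases j' with
    | zero => exact ⟨rfl, by simp only [List.replicate_zero, List.nil_append, encW] at h; omega⟩
    | succ j' =>
      cases b <;> simp [List.replicate_succ, encW] at h <;> omega
  | succ j ih =>
    cases j' with
    | zero => cases b <;> simp [List.replicate_succ, encW] at h <;> omega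
    | succ j' =>
      have := ih j' (by simp only [List.replicate_succ, List.cons_append, encW] at h; omega)
      exact ⟨by omega, this.2⟩

theorem ones_encW (w : List Bool) (y : ℕ) : ones (encW w y) = w.count true + ones y := by
  induction w with
  | nil => simp [encW]
  | cons b w ih =>
    cases b
    · simp [encW, ones_two_mul, ih]
    · simp [encW, ones_two_mul_add_one, ih]
      omega

theorem leaves_graft (w : List Bool) {T T' : BTree} (h : T.leaves = T'.leaves) :
    (graft w T).leaves = (graft w T').leaves := by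
  induction w with
  | nil => exact h
  | cons b w ih => cases b <;> simp [graft, leaves, ih]

theorem enc_graft (w : List Bool) {T T' : BTree} (h : T.leaves = T'.leaves) (i : ℕ)
    (hi : i < (graft w T).leaves) (y : ℕ) :
    (∃ i₀ < T.leaves, (graft w T).enc i y = encW w (T.enc i₀ y) ∧
      (graft w T').enc i y = encW w (T'.enc i₀ y)) ∨
    ((graft w T).enc i y = (graft w T').enc i y ∧ (graft w T).enc i y ∉ Set.range (encW w)) := by
  induction w generalizing i with
  | nil => exact Or.inl ⟨i, hi, rfl, rfl⟩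
  | cons b w ih =>
    have hl := leaves_graft w h
    cases b
    · simp only [graft, Bool.false_eq_true, if_false, enc, leaves, encW, ← hl] at hi ⊢
      by_cases h1 : i < (graft w T).leaves
      · simp only [h1, if_true]
        rcases ih i h1 with ⟨i₀, h2, h3, h4⟩ | ⟨h2, h3⟩
        · exact Or.inl ⟨i₀, h2, by simp [h3], by simp [h4]⟩
        · exact Or.inr ⟨by rw [h2], fun ⟨n, hn⟩ => h3 ⟨n, by simp at hn; omega⟩⟩
      · simp only [h1, if_false]
        exact Or.inr ⟨trivial, fun ⟨n, hn⟩ => by simp at hn; omega⟩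
    · simp only [graft, if_true, enc, leaves, encW] at hi ⊢
      by_cases h1 : i < 1
      · simp only [h1, if_true]
        exact Or.inr ⟨trivial, fun ⟨n, hn⟩ => by simp at hn; omega⟩
      · simp only [h1, if_false]
        rcases ih (i - 1) (by omega) with ⟨i₀, h2, h3, h4⟩ | ⟨h2, h3⟩
        · exact Or.inl ⟨i₀, h2, by simp [h3], by simp [h4]⟩
        · exact Or.inr ⟨by rw [h2], fun ⟨n, hn⟩ => h3 ⟨n, by simp at hn; omega⟩⟩

theorem exists_depth (T : BTree) : ∃ n, ∀ y, T.enc 0 y = 2 ^ n * y := by
  induction T with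
  | leaf => exact ⟨0, fun y => by simp [enc]⟩
  | node l r hl _ =>
    obtain ⟨n, hn⟩ := hl
    exact ⟨n + 1, fun y => by simp [enc, l.leaves_pos, hn, pow_succ', mul_assoc]⟩

theorem ones_pow_mul (n y : ℕ) : ones (2 ^ n * y) = ones y := by
  rw [← encW_replicate, ones_encW]
  simp [List.count_replicate]

variable {G : Type} [Group G] {φ : G ≃* G} {ψ : Bool}

/-- The faithful action. -/
@[reducible] noncomputable def action : MulAction (CloningGroup φ ψ) (ℕ × G) where
  smul x p := act φ x p
  one_smul p := congrFun act_one p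
  mul_smul x y p := congrFun (act_mul x y) p

attribute [local instance] action

theorem faithful : FaithfulSMul (CloningGroup φ ψ) (ℕ × G) :=
  ⟨fun h => act_injective (funext h)⟩

attribute [local instance] faithful

variable (φ ψ) in
/-- The element of Thompson's group given by a pair of trees. -/
def el (A B : BTree) (h : A.leaves = B.leaves) : CloningGroup φ ψ :=
  Quot.mk _ ⟨A, List.replicate B.leaves 1, B, by simp [h], by simp, fun _ => by
    obtain ⟨n, hn⟩ := Nat.exists_eq_succ_of_ne_zero B.leaves_pos.ne'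
    simp [hn, List.replicate_succ]⟩

theorem el_smul (A B : BTree) (h : A.leaves = B.leaves) {i : ℕ} (hi : i < B.leaves) (y : ℕ)
    (g : G) : el φ ψ A B h • (B.enc i y, g) = (A.enc i y, g) := by
  have := desc_act (φ := φ) (ψ := ψ) ⟨A, List.replicate B.leaves 1, B, by simp [h], by simp,
    fun _ => by
      obtain ⟨n, hn⟩ := Nat.exists_eq_succ_of_ne_zero B.leaves_pos.ne'
      simp [hn, List.replicate_succ]⟩ i (by simpa using hi) y g
  simpa using! this

/-- The domain tree of the basic element. -/
def tE : BTree := .node .leaf (.node .leaf (.node .leaf .leaf))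

/-- The range tree of the basic element. -/
def tB : BTree := .node (.node .leaf (.node .leaf .leaf)) .leaf

theorem ones_tE (i y : ℕ) (hi : i < tE.leaves) :
    ones (tE.enc i y) % 2 = ones (tB.enc i y) % 2 := by
  have h4 : i < 4 := hi
  interval_cases i <;> simp [tE, tB, enc, leaves, ones_two_mul, ones_two_mul_add_one]
  omega

variable (φ ψ) in
/-- The copy of the basic element on the cone at `w`. -/
def site (w : List Bool) : CloningGroup φ ψ :=
  el φ ψ (graft w tB) (graft w tE) (leaves_graft w rfl)

theorem site_smul (w : List Bool) {i : ℕ} (hi : i < tE.leaves) (y : ℕ) (g : G) :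
    site φ ψ w • (encW w (tE.enc i y), g) = (encW w (tB.enc i y), g) := by
  obtain ⟨j, hj, z, hz⟩ := (graft w tE).enc_surj (encW w (tE.enc i y))
  rcases enc_graft w (T := tE) (T' := tB) rfl j hj z with ⟨i₀, h2, h3, h4⟩ | ⟨-, h3⟩
  · obtain ⟨rfl, rfl⟩ := tE.enc_inj h2 hi (encW_injective w (h3.symm.trans hz))
    rw [← h3, ← h4]
    exact el_smul _ _ _ hj _ _
  · exact absurd ⟨_, hz.symm⟩ h3

theorem site_smul_of_notMem (w : List Bool) {p : ℕ × G} (hp : p.1 ∉ Set.range (encW w)) :
    site φ ψ w • p = p := by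
  obtain ⟨n, g⟩ := p
  obtain ⟨j, hj, z, rfl⟩ := (graft w tE).enc_surj n
  rcases enc_graft w (T := tE) (T' := tB) rfl j hj z with ⟨i₀, -, h3, -⟩ | ⟨h2, -⟩
  · exact absurd ⟨_, h3.symm⟩ hp
  · rw [site, el_smul _ _ _ hj, h2]

/-- `g` maps the cone at `0 ^ n` rigidly onto the cone at `0 ^ m`. -/
def Sh (g : CloningGroup φ ψ) (n m : ℕ) : Prop :=
  ∃ c : G, ∀ y h, g • (2 ^ n * y, h) = (2 ^ m * y, tw φ y c * h)

theorem exists_sh (g : CloningGroup φ ψ) : ∃ n m, Sh g n m := by
  obtain ⟨s⟩ := g
  obtain ⟨n, hn⟩ := exists_depth s.plus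
  obtain ⟨m, hm⟩ := exists_depth s.minus
  have h0 : 0 < s.lab.length := s.len_plus ▸ s.plus.leaves_pos
  refine ⟨n, m, s.lab[0], fun y h => ?_⟩
  rw [← hn, ← hm]
  exact desc_act s 0 h0 y h

theorem Sh.add {g : CloningGroup φ ψ} {n m : ℕ} (h : Sh g n m) (i : ℕ) : Sh g (n + i) (m + i) := by
  obtain ⟨c, hc⟩ := h
  refine ⟨c, fun y h => ?_⟩
  rw [pow_add, pow_add, mul_assoc, mul_assoc, hc, tw, tw, ones_pow_mul]

theorem Sh.mul {g g' : CloningGroup φ ψ} {n m k : ℕ} (h' : Sh g' m k) (h : Sh g n m) :
    Sh (g' * g) n k := by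
  obtain ⟨c, hc⟩ := h
  obtain ⟨c', hc'⟩ := h'
  exact ⟨c' * c, fun y h => by rw [mul_smul, hc, hc', map_mul, mul_assoc]⟩

theorem Sh.inv {g : CloningGroup φ ψ} {n m : ℕ} (h : Sh g n m) : Sh g⁻¹ m n := by
  obtain ⟨c, hc⟩ := h
  exact ⟨c⁻¹, fun y h => by rw [inv_smul_eq_iff, hc, map_inv, mul_inv_cancel_left]⟩

theorem Sh.pow {t : CloningGroup φ ψ} (h : Sh t 1 2) (j : ℕ) : Sh (t ^ j) 1 (j + 1) := by
  induction j with
  | zero => exact ⟨1, fun y h => by simp⟩
  | succ j ih =>
    rw [pow_succ']
    refine Sh.mul ?_ ih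
    simpa only [add_comm 1 j, add_comm 2 j] using h.add j

theorem Sh.conj (hφ : ∀ g, φ (φ g) = g) {g : CloningGroup φ ψ} {n m : ℕ} (h : Sh g n m)
    (v : List Bool) : g * site φ ψ (List.replicate n false ++ v) =
      site φ ψ (List.replicate m false ++ v) * g := by
  obtain ⟨c, hc⟩ := h
  have h2 : (show MulAut G from φ) ^ 2 = 1 := by
    rw [pow_two]
    exact MulEquiv.ext hφ
  have henc : ∀ n y, encW (List.replicate n false ++ v) y = 2 ^ n * encW v y := fun n y => by
    rw [encW_append, encW_replicate]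
  refine eq_of_smul_eq_smul (α := ℕ × G) fun p => ?_
  rw [mul_smul, mul_smul]
  by_cases hp : p.1 ∈ Set.range (encW (List.replicate n false ++ v))
  · obtain ⟨_, h⟩ := p
    obtain ⟨z, rfl⟩ := hp
    obtain ⟨i, hi, y, rfl⟩ := tE.enc_surj z
    rw [site_smul _ hi, henc, henc, hc, hc, ← henc, ← henc, site_smul _ hi, tw, tw,
      pow_eq_pow_mod _ h2, pow_eq_pow_mod (ones (encW v (tE.enc i y))) h2, ones_encW, ones_encW,
      Nat.add_mod, ← ones_tE i y hi, ← Nat.add_mod]
  · rw [site_smul_of_notMem _ hp, site_smul_of_notMem]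
    rintro ⟨z, hz⟩
    have h3 : g • p = g • (2 ^ n * encW v z, (tw φ (encW v z) c)⁻¹ * (g • p).2) := by
      rw [hc, mul_inv_cancel_left, ← henc, hz]
    exact hp ⟨z, by rw [(smul_left_cancel_iff g).1 h3, henc]⟩

theorem site_mem (w w' : List Bool) : site φ ψ (w ++ w') ∈
    fixingSubgroup (CloningGroup φ ψ) {p : ℕ × G | p.1 ∈ Set.range (encW w)}ᶜ :=
  (mem_fixingSubgroup_iff _).2 fun _ hp => site_smul_of_notMem _ fun ⟨z, hz⟩ =>
    hp ⟨_, (encW_append w w' z).symm.trans hz⟩

theorem cloning_main (hφ : ∀ g, φ (φ g) = g) :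
    AbsorbsR (CloningGroup φ ψ) ∧ HasPropertyGamma (CloningGroup φ ψ) := by
  let t : CloningGroup φ ψ :=
    el φ ψ (.node (.node .leaf .leaf) .leaf) (.node .leaf (.node .leaf .leaf)) rfl
  have ht : Sh t 1 2 := ⟨1, fun y h => by
    have := el_smul (φ := φ) (ψ := ψ) (.node (.node .leaf .leaf) .leaf)
      (.node .leaf (.node .leaf .leaf)) rfl (i := 0) (by simp [leaves]) y h
    simpa [enc, leaves, ← mul_assoc] using this⟩
  let v : ℕ → List Bool := fun u => true :: (List.replicate u true ++ [false])
  have hconj : ∀ j w, t ^ j * site φ ψ (List.replicate 1 false ++ w) * (t ^ j)⁻¹ =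
      site φ ψ (List.replicate (j + 1) false ++ w) := fun j w => by
    rw [(ht.pow j).conj hφ, mul_inv_cancel_right]
  refine main_of_sites (Y := ℕ × G) t
    (fun u => site φ ψ (List.replicate 1 false ++ (v u ++ [true, false])))
    (fun u => site φ ψ (List.replicate 1 false ++ v u))
    (fun j u => {p | p.1 ∈ Set.range (encW (List.replicate (j + 1) false ++ v u))})
    (fun u => {p | p.1 ∈ Set.range (encW (List.replicate 1 false ++ (v u ++ [true, false])))})
    ?_ ?_ ?_ ?_ ?_ ?_ ?_
  · intro j u j' u' hne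
    rw [Set.disjoint_left]
    rintro p ⟨y, hy⟩ ⟨y', hy'⟩
    obtain ⟨h1, h2⟩ := encW_run false (j + 1) (j' + 1) (hy.trans hy'.symm)
    obtain ⟨h3, -⟩ := encW_run true u u' h2
    exact hne (Prod.ext (by omega) h3)
  · intro j u
    rw [hconj, ← List.append_assoc]
    exact site_mem _ _
  · intro j u
    rw [hconj]
    simpa using site_mem (List.replicate (j + 1) false ++ v u) []
  · intro g
    obtain ⟨n, m, h⟩ := exists_sh g
    refine ⟨n, m, fun i u => ?_⟩
    have h1 : Sh ((t ^ (m + i))⁻¹ * g * t ^ (n + i)) 1 1 :=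
      ((ht.pow (m + i)).inv.mul (h.add (i + 1))).mul (ht.pow (n + i))
    exact ⟨h1.conj hφ _, h1.conj hφ _⟩
  · intro u h
    have := site_smul (φ := φ) (ψ := ψ) (List.replicate 1 false ++ (v u ++ [true, false]))
      (i := 0) (by simp [tE, leaves]) 1 1
    rw [h, one_smul] at this
    have h2 := encW_injective _ (congrArg Prod.fst this)
    simp [tE, tB, enc, leaves] at h2
  · intro u
    simpa using site_mem (List.replicate 1 false ++ (v u ++ [true, false])) []
  · rintro u ⟨_, g⟩ ⟨y, rfl⟩ ⟨y', hy'⟩
    have h1 : encW [true, false] y = tE.enc 1 y := by simp [tE, enc, leaves, encW]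
    rw [← List.append_assoc, encW_append _ [true, false] y', encW_append _ [true, false] y, h1,
      site_smul _ (by simp [tE, leaves])] at hy'
    have h2 := encW_injective _ hy'
    simp [tB, enc, leaves, encW] at h2
    omega

end Pool.Agent.P.MP_335bcb_an
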