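import Mathlib
import Pool.Agent.P.MP_335bcb_an.Basic

/-! Transfer from the concrete spaces `ℓ²(I)` to Hilbert spaces with a chosen basis. -/

set_option autoImplicit false

open scoped InnerProductSpace
open Filter Topology

namespace Pool.Agent.P.MP_335bcb_an

variable {I H : Type} [NormedAddCommGroup H] [InnerProductSpace ℂ H] [CompleteSpace H]

omit [CompleteSpace H] in
theorem repr_basis (b : HilbertBasis I ℂ H) (i : I) : b.repr (b i) = delta i := by
  classical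
  rw [b.repr_self, delta]

/-- Conjugation by the coordinate isomorphism. -/
noncomputable def cj (b : HilbertBasis I ℂ H) : (H →L[ℂ] H) ≃⋆ₐ[ℂ] (L2 I →L[ℂ] L2 I) :=
  b.repr.conjStarAlgEquiv

theorem cj_delta (b : HilbertBasis I ℂ H) (T : H →L[ℂ] H) (i : I) :
    cj b T (delta i) = b.repr (T (b i)) := by
  rw [← repr_basis b]
  simp [cj]

theorem cj_iff (b : HilbertBasis I ℂ H) (T : H →L[ℂ] H) (i j : I) (a : ℂ) :
    cj b T (delta i) = a • delta j ↔ T (b i) = a • b j := by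
  rw [cj_delta, ← repr_basis b, ← map_smul, b.repr.injective.eq_iff]

theorem cj_iff' (b : HilbertBasis I ℂ H) (T : H →L[ℂ] H) (i j : I) :
    cj b T (delta i) = delta j ↔ T (b i) = b j := by
  simpa using cj_iff b T i j 1

theorem cj_coeff (b : HilbertBasis I ℂ H) (T : H →L[ℂ] H) (i j : I) :
    cj b T (delta i) j = ⟪b j, T (b i)⟫_ℂ := by
  rw [cj_delta, b.repr_apply_apply]

theorem image_cj (b : HilbertBasis I ℂ H) {S : Set (H →L[ℂ] H)} {S' : Set (L2 I →L[ℂ] L2 I)}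
    (h : ∀ T, cj b T ∈ S' ↔ T ∈ S) : cj b '' S = S' := by
  ext T
  obtain ⟨T, rfl⟩ := EquivLike.surjective (cj b) T
  rw [h, (EquivLike.injective (cj b)).mem_set_image]

theorem comm_comm (S : Set (H →L[ℂ] H)) : commutant (commutant S) = (vN S : Set (H →L[ℂ] H)) := by
  have h : ∀ S : Set (H →L[ℂ] H),
      commutant S = (StarSubalgebra.centralizer ℂ S : Set (H →L[ℂ] H)) := fun S => by
    ext z
    simp only [commutant, Set.mem_ofPred_eq, SetLike.mem_coe, StarSubalgebra.mem_centralizer_iff]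
  rw [h, h, vN]

theorem mem_groupAlg {Γ : Type} [Group Γ] (b : HilbertBasis Γ ℂ H) (x : H →L[ℂ] H) :
    x ∈ groupAlg b ↔ cj b x ∈ groupVN Γ := by
  rw [groupAlg, comm_comm, SetLike.mem_coe, mem_vN_image (cj b), groupVN,
    image_cj b (S' := {T | ∃ g : Γ, ∀ h : Γ, T (delta h) = delta (g * h)})
      fun T => by simp [cj_iff']]

theorem mem_pauliAlg (c : HilbertBasis (Finset ℕ × Finset ℕ) ℂ H) (x : H →L[ℂ] H) :
    x ∈ pauliAlg c ↔ cj c x ∈ hyperfinite := by
  rw [pauliAlg, comm_comm, SetLike.mem_coe, mem_vN_image (cj c), hyperfinite,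
    image_cj c (S' := {T | ∃ n : ℕ, (∀ A B, T (delta (A, B)) = delta (symmDiff A {n}, B)) ∨
      ∀ A B, T (delta (A, B)) = (if n ∈ A then -1 else 1 : ℂ) • delta (A, symmDiff B {n})})
      fun T => by simp only [Set.mem_ofPred_eq, cj_iff', cj_iff]]

theorem starIso_of {A B : Type} [Ring A] [StarRing A] [Algebra ℂ A] [StarModule ℂ A]
    [Ring B] [StarRing B] [Algebra ℂ B] [StarModule ℂ B]
    {M : StarSubalgebra ℂ A} {N : StarSubalgebra ℂ B} (e : M ≃⋆ₐ[ℂ] N) :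
    StarIso (M : Set A) (N : Set B) := by
  classical
  have hf : ∀ x (hx : x ∈ M),
      (fun x => if hx : x ∈ M then ((e ⟨x, hx⟩ : N) : B) else 0) x = e ⟨x, hx⟩ :=
    fun x hx => dif_pos hx
  refine ⟨fun x => if hx : x ∈ M then ((e ⟨x, hx⟩ : N) : B) else 0, ⟨?_, ?_, ?_⟩, ?_⟩
  · intro x hx
    rw [hf x hx]
    exact (e ⟨x, hx⟩).2
  · intro x hx y hy h
    rw [hf x hx, hf y hy] at h
    exact congrArg Subtype.val (EquivLike.injective e (Subtype.ext h))
  · intro y hy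
    obtain ⟨x, hx⟩ := EquivLike.surjective e ⟨y, hy⟩
    exact ⟨x, x.2, by rw [hf x x.2]; exact congrArg Subtype.val hx⟩
  · intro x hx y hy a
    rw [hf x hx, hf y hy, hf _ (add_mem hx hy), hf _ (mul_mem hx hy), hf _ (SMulMemClass.smul_mem a hx),
      hf _ (star_mem hx)]
    exact ⟨congrArg Subtype.val (map_add e ⟨x, hx⟩ ⟨y, hy⟩),
      congrArg Subtype.val (map_mul e ⟨x, hx⟩ ⟨y, hy⟩),
      congrArg Subtype.val (map_smul e a ⟨x, hx⟩), congrArg Subtype.val (map_star e ⟨x, hx⟩)⟩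

theorem isMcDuff_of {Γ : Type} [Group Γ] (h : AbsorbsR Γ) {K L : Type}
    [NormedAddCommGroup K] [InnerProductSpace ℂ K] [CompleteSpace K]
    [NormedAddCommGroup L] [InnerProductSpace ℂ L] [CompleteSpace L]
    (b : HilbertBasis Γ ℂ H) (c : HilbertBasis (Finset ℕ × Finset ℕ) ℂ K)
    (d : HilbertBasis (Γ × (Finset ℕ × Finset ℕ)) ℂ L) :
    StarIso (groupAlg b) (tensorAlg b c d (groupAlg b) (pauliAlg c)) := by
  obtain ⟨e⟩ := h
  obtain ⟨e₁⟩ := nonempty_equiv_vN (cj b) {T | ∃ g : Γ, ∀ h : Γ, T (b h) = b (g * h)}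
  rw [image_cj b (S' := {T | ∃ g : Γ, ∀ h : Γ, T (delta h) = delta (g * h)})
    fun T => by simp [cj_iff']] at e₁
  obtain ⟨e₂⟩ := nonempty_equiv_vN (cj d) {z | ∃ x ∈ groupAlg b, ∃ y ∈ pauliAlg c, ∀ i j i' j',
    ⟪d (i', j'), z (d (i, j))⟫_ℂ = ⟪b i', x (b i)⟫_ℂ * ⟪c j', y (c j)⟫_ℂ}
  rw [image_cj d (S' := {z | ∃ x ∈ groupVN Γ, ∃ y ∈ hyperfinite, ∀ i j i' j',
    z (delta (i, j)) (i', j') = x (delta i) i' * y (delta j) j'}) fun T => ?_] at e₂
  · have := starIso_of ((e₁.trans e).trans e₂.symm)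
    rw [← comm_comm, ← comm_comm] at this
    exact this
  · constructor
    · rintro ⟨x, hx, y, hy, h⟩
      obtain ⟨x, rfl⟩ := EquivLike.surjective (cj b) x
      obtain ⟨y, rfl⟩ := EquivLike.surjective (cj c) y
      exact ⟨x, (mem_groupAlg b x).2 hx, y, (mem_pauliAlg c y).2 hy, by
        simpa only [cj_coeff] using h⟩
    · rintro ⟨x, hx, y, hy, h⟩
      exact ⟨_, (mem_groupAlg b x).1 hx, _, (mem_pauliAlg c y).1 hy, by
        simpa only [cj_coeff] using h⟩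

theorem hasGamma_of {Γ : Type} [Group Γ] (h : HasPropertyGamma Γ) (b : HilbertBasis Γ ℂ H) :
    HasGamma b := by
  obtain ⟨u, h1, h2⟩ := h
  obtain ⟨v, rfl⟩ : ∃ v : ℕ → H →L[ℂ] H, u = fun j => cj b (v j) :=
    ⟨fun j => (cj b).symm (u j), funext fun j => ((cj b).apply_symm_apply _).symm⟩
  refine ⟨v, fun j => ⟨(mem_groupAlg b _).2 (h1 j).1, ?_, ?_, ?_⟩, fun x hx => ?_⟩
  · apply EquivLike.injective (cj b)
    rw [map_mul, map_star, map_one]
    exact (h1 j).2.1.1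
  · apply EquivLike.injective (cj b)
    rw [map_mul, map_star, map_one]
    exact (h1 j).2.1.2
  · rw [← cj_coeff, ← inner_delta]
    exact (h1 j).2.2
  · refine (h2 _ ((mem_groupAlg b x).1 hx)).congr fun j => ?_
    rw [← map_mul, ← map_mul, ← map_sub, cj_delta, b.repr.norm_map]
    rfl

end Pool.Agent.P.MP_335bcb_an
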